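import Pool.Agent.EVR.Stmts

/-!
# Squad EVR (MP_3e5173_lc): basic lemmas for all modules
-/

set_option autoImplicit false

namespace EVR

open Polynomial

noncomputable section

/-! ## regularity and values -/

theorem rg_vl_of_eq {c : ℂ} {y : K} {p q : ℂ[X]} (hq : q.eval c ≠ 0) (h : y * pz q = pz p) :
    Rg c y ∧ vl c y = p.eval c / q.eval c := by
  have hq0 : q ≠ 0 := by
    rintro rfl
    simp at hq
  have hy : y = pz p / pz q := by
    rw [eq_div_iff (RatFunc.algebraMap_ne_zero hq0), h]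
  have hdvd : y.denom ∣ q := by
    rw [hy]
    exact RatFunc.denom_div_dvd p q
  have hrg : y.denom.eval c ≠ 0 := by
    obtain ⟨r, hr⟩ := hdvd
    intro h0
    apply hq
    rw [hr, eval_mul, h0, zero_mul]
  refine ⟨hrg, ?_⟩
  have h1 : y.num * q = p * y.denom := by
    rw [RatFunc.num_mul_eq_mul_denom_iff hq0]
    exact hy
  have h2 := congrArg (Polynomial.eval c) h1
  rw [eval_mul, eval_mul] at h2
  show y.num.eval c / y.denom.eval c = _
  rw [div_eq_div_iff hrg hq]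
  exact h2

theorem vl_def (c : ℂ) (y : K) : vl c y = y.num.eval c / y.denom.eval c := rfl

theorem eq_div (y : K) : y = pz y.num / pz y.denom := (RatFunc.num_div_denom y).symm

theorem mul_denom (y : K) : y * pz y.denom = pz y.num := by
  have h : pz y.denom ≠ 0 := RatFunc.algebraMap_ne_zero (RatFunc.denom_ne_zero y)
  have h1 := eq_div y
  rw [eq_div_iff h] at h1
  exact h1

theorem exists_of_rg {c : ℂ} {y : K} (h : Rg c y) :
    ∃ p q : ℂ[X], q.eval c ≠ 0 ∧ y * pz q = pz p ∧ vl c y = p.eval c / q.eval c :=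
  ⟨y.num, y.denom, h, mul_denom y, vl_def c y⟩

theorem rg_pz (c : ℂ) (p : ℂ[X]) : Rg c (pz p) :=
  (rg_vl_of_eq (c := c) (y := pz p) (p := p) (q := 1) (by simp) (by simp)).1

@[simp] theorem vl_pz (c : ℂ) (p : ℂ[X]) : vl c (pz p) = p.eval c := by
  have := (rg_vl_of_eq (c := c) (y := pz p) (p := p) (q := 1) (by simp) (by simp)).2
  simpa using this

theorem pz_C (a : ℂ) : pz (C a) = cst a := RatFunc.algebraMap_C a

theorem pz_X : pz X = (RatFunc.X : K) := RatFunc.algebraMap_X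

theorem pz_inj {p q : ℂ[X]} : pz p = pz q ↔ p = q :=
  (RatFunc.algebraMap_injective ℂ).eq_iff

theorem pz_ne_zero {p : ℂ[X]} : pz p ≠ 0 ↔ p ≠ 0 := by
  rw [Ne, Ne, ← pz_inj (p := p) (q := 0), map_zero]

theorem rg_cst (c a : ℂ) : Rg c (cst a) := by
  rw [← pz_C]
  exact rg_pz c _

@[simp] theorem vl_cst (c a : ℂ) : vl c (cst a) = a := by
  rw [← pz_C, vl_pz, eval_C]

theorem rg_X (c : ℂ) : Rg c (RatFunc.X : K) := by
  rw [← pz_X]
  exact rg_pz c _

@[simp] theorem vl_X (c : ℂ) : vl c (RatFunc.X : K) = c := by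
  rw [← pz_X, vl_pz, eval_X]

@[simp] theorem vl_zero (c : ℂ) : vl c (0 : K) = 0 := by
  have := vl_pz c 0
  simpa using this

@[simp] theorem vl_one (c : ℂ) : vl c (1 : K) = 1 := by
  have := vl_pz c 1
  simpa using this

theorem rg_zero (c : ℂ) : Rg c (0 : K) := by
  have := rg_pz c 0
  simpa using this

theorem rg_one (c : ℂ) : Rg c (1 : K) := by
  have := rg_pz c 1
  simpa using this

theorem rg_vl_add {c : ℂ} {x y : K} (hx : Rg c x) (hy : Rg c y) :
    Rg c (x + y) ∧ vl c (x + y) = vl c x + vl c y := by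
  obtain ⟨p, q, hq, h1, h2⟩ := exists_of_rg hx
  obtain ⟨r, s, hs, h3, h4⟩ := exists_of_rg hy
  have h := rg_vl_of_eq (c := c) (y := x + y) (p := p * s + r * q) (q := q * s)
    (by rw [eval_mul]; exact mul_ne_zero hq hs)
    (by rw [map_add, map_mul, map_mul, map_mul, ← h1, ← h3]; ring)
  refine ⟨h.1, ?_⟩
  rw [h.2, h2, h4, eval_add, eval_mul, eval_mul, eval_mul]
  field_simp

theorem rg_vl_mul {c : ℂ} {x y : K} (hx : Rg c x) (hy : Rg c y) :
    Rg c (x * y) ∧ vl c (x * y) = vl c x * vl c y := by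
  obtain ⟨p, q, hq, h1, h2⟩ := exists_of_rg hx
  obtain ⟨r, s, hs, h3, h4⟩ := exists_of_rg hy
  have h := rg_vl_of_eq (c := c) (y := x * y) (p := p * r) (q := q * s)
    (by rw [eval_mul]; exact mul_ne_zero hq hs)
    (by rw [map_mul, map_mul, ← h1, ← h3]; ring)
  refine ⟨h.1, ?_⟩
  rw [h.2, h2, h4, eval_mul, eval_mul]
  field_simp

theorem rg_vl_neg {c : ℂ} {x : K} (hx : Rg c x) : Rg c (-x) ∧ vl c (-x) = -vl c x := by
  obtain ⟨p, q, hq, h1, h2⟩ := exists_of_rg hx
  have h := rg_vl_of_eq (c := c) (y := -x) (p := -p) (q := q) hq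
    (by rw [map_neg, ← h1]; ring)
  refine ⟨h.1, ?_⟩
  rw [h.2, h2, eval_neg, neg_div]

theorem rg_vl_sub {c : ℂ} {x y : K} (hx : Rg c x) (hy : Rg c y) :
    Rg c (x - y) ∧ vl c (x - y) = vl c x - vl c y := by
  have h := rg_vl_add hx (rg_vl_neg hy).1
  rw [(rg_vl_neg hy).2, ← sub_eq_add_neg, ← sub_eq_add_neg] at h
  exact h

theorem rg_vl_inv {c : ℂ} {x : K} (hx : Rg c x) (h0 : vl c x ≠ 0) :
    Rg c x⁻¹ ∧ vl c x⁻¹ = (vl c x)⁻¹ := by
  obtain ⟨p, q, hq, h1, h2⟩ := exists_of_rg hx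
  have hp : p.eval c ≠ 0 := by
    intro h
    rw [h2, h, zero_div] at h0
    exact h0 rfl
  have hx0 : x ≠ 0 := by
    rintro rfl
    rw [vl_zero] at h0
    exact h0 rfl
  have h := rg_vl_of_eq (c := c) (y := x⁻¹) (p := q) (q := p) hp
    (by rw [← h1]; field_simp)
  refine ⟨h.1, ?_⟩
  rw [h.2, h2, inv_div]

theorem rg_vl_div {c : ℂ} {x y : K} (hx : Rg c x) (hy : Rg c y) (h0 : vl c y ≠ 0) :
    Rg c (x / y) ∧ vl c (x / y) = vl c x / vl c y := by
  have h := rg_vl_mul hx (rg_vl_inv hy h0).1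
  rw [(rg_vl_inv hy h0).2, ← div_eq_mul_inv, ← div_eq_mul_inv] at h
  exact h

theorem rg_vl_pow {c : ℂ} {x : K} (hx : Rg c x) (n : ℕ) :
    Rg c (x ^ n) ∧ vl c (x ^ n) = vl c x ^ n := by
  induction n with
  | zero => simpa using rg_one c
  | succ n ih =>
    have h := rg_vl_mul ih.1 hx
    rw [ih.2, ← pow_succ, ← pow_succ] at h
    exact h

theorem rg_vl_sum {ι : Type} {c : ℂ} {x : ι → K} (s : Finset ι) (hx : ∀ i ∈ s, Rg c (x i)) :
    Rg c (∑ i ∈ s, x i) ∧ vl c (∑ i ∈ s, x i) = ∑ i ∈ s, vl c (x i) := by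
  classical
  induction s using Finset.induction_on with
  | empty => simpa using rg_zero c
  | insert a s ha ih =>
    rw [Finset.sum_insert ha, Finset.sum_insert ha]
    have h1 := ih (fun i hi => hx i (Finset.mem_insert_of_mem hi))
    have h := rg_vl_add (hx a (Finset.mem_insert_self a s)) h1.1
    rw [h1.2] at h
    exact h

/-- a rational function is regular outside a finite set -/
theorem finite_not_rg (y : K) : {c : ℂ | ¬ Rg c y}.Finite := by
  refine (y.denom.roots.toFinset.finite_toSet).subset ?_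
  intro c hc
  simp only [Set.mem_ofPred_eq, Rg, not_not] at hc
  simp only [Finset.mem_coe, Multiset.mem_toFinset]
  rw [mem_roots (RatFunc.denom_ne_zero y)]
  exact hc

/-- a nonzero rational function has a nonzero value outside a finite set -/
theorem finite_vl_eq_zero {y : K} (hy : y ≠ 0) : {c : ℂ | ¬ (Rg c y ∧ vl c y ≠ 0)}.Finite := by
  refine ((finite_not_rg y).union (y.num.roots.toFinset.finite_toSet)).subset ?_
  intro c hc
  simp only [Set.mem_ofPred_eq] at hc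
  by_cases h : Rg c y
  · right
    simp only [Finset.mem_coe, Multiset.mem_toFinset]
    rw [mem_roots (RatFunc.num_ne_zero hy)]
    have h1 : vl c y = 0 := by
      by_contra h2
      exact hc ⟨h, h2⟩
    rw [vl_def, div_eq_zero_iff] at h1
    rcases h1 with h1 | h1
    · exact h1
    · exact absurd h1 h
  · exact Or.inl h

/-- two rational functions with infinitely many common values are equal -/
theorem eq_of_infinite {x y : K} {S : Set ℂ} (hS : S.Infinite)
    (h : ∀ c ∈ S, Rg c x → Rg c y → vl c x = vl c y) : x = y := by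
  by_contra hxy
  apply hS
  refine (((finite_not_rg x).union (finite_not_rg y)).union
    (finite_vl_eq_zero (sub_ne_zero.2 hxy))).subset ?_
  intro c hc
  by_cases h1 : Rg c x
  · by_cases h2 : Rg c y
    · right
      intro h3
      apply h3.2
      rw [(rg_vl_sub h1 h2).2, h c hc h1 h2, sub_self]
    · left; right; exact h2
  · left; left; exact h1

/-! ## the fields -/

theorem cst_mem_kZ {k : Subfield ℂ} {a : ℂ} (h : a ∈ k) : cst a ∈ kZ k :=
  Subfield.subset_closure (Or.inl ⟨a, h, rfl⟩)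

theorem X_mem_kZ (k : Subfield ℂ) : (RatFunc.X : K) ∈ kZ k :=
  Subfield.subset_closure (Or.inr rfl)

theorem pz_mem_kZ {k : Subfield ℂ} {p : ℂ[X]} (h : ∀ n, p.coeff n ∈ k) : pz p ∈ kZ k := by
  rw [p.as_sum_range_C_mul_X_pow, map_sum]
  refine Subfield.sum_mem _ fun i _ => ?_
  rw [map_mul, map_pow, pz_C, pz_X]
  exact mul_mem (cst_mem_kZ (h i)) (pow_mem (X_mem_kZ k) i)

/-- a polynomial whose coefficients belong to `k` comes from `k[Z]` -/
theorem exists_lift {k : Subfield ℂ} {p : ℂ[X]} (h : ∀ n, p.coeff n ∈ k) :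
    ∃ P : Polynomial k, P.map k.subtype = p ∧ P.natDegree = p.natDegree := by
  have h1 : p ∈ Polynomial.lifts k.subtype := by
    rw [Polynomial.lifts_iff_coeff_lifts]
    intro n
    exact ⟨⟨p.coeff n, h n⟩, rfl⟩
  obtain ⟨P, hP⟩ := (Polynomial.mem_lifts p).1 h1
  refine ⟨P, hP, ?_⟩
  rw [← hP, Polynomial.natDegree_map_eq_of_injective k.subtype.injective]

theorem coeff_map_mem {k : Subfield ℂ} (P : Polynomial k) (n : ℕ) :
    (P.map k.subtype).coeff n ∈ k := by
  rw [coeff_map]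
  exact (P.coeff n).2

theorem eval_map_mem {k : Subfield ℂ} (P : Polynomial k) {c : ℂ} (hc : c ∈ k) :
    (P.map k.subtype).eval c ∈ k := by
  rw [eval_eq_sum_range]
  exact Subfield.sum_mem _ fun i _ => mul_mem (coeff_map_mem P i) (pow_mem hc i)

/-- the elements of `k(Z)` -/
theorem mem_kZ_iff {k : Subfield ℂ} {y : K} : y ∈ kZ k ↔ ∃ P Q : Polynomial k, Q ≠ 0 ∧
    y = pz (P.map k.subtype) / pz (Q.map k.subtype) := by
  have hm : ∀ P : Polynomial k, P ≠ 0 → pz (P.map k.subtype) ≠ 0 := by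
    intro P hP
    rw [pz_ne_zero, Ne, Polynomial.map_eq_zero]
    exact hP
  constructor
  · intro h
    refine Subfield.closure_induction (p := fun y _ => ∃ P Q : Polynomial k, Q ≠ 0 ∧
      y = pz (P.map k.subtype) / pz (Q.map k.subtype)) ?_ ?_ ?_ ?_ ?_ ?_ h
    · rintro x (⟨a, ha, rfl⟩ | hx)
      · refine ⟨C ⟨a, ha⟩, 1, one_ne_zero, ?_⟩
        simp only [Polynomial.map_C, Polynomial.map_one, map_one, div_one]
        exact (pz_C a).symm
      · rw [Set.mem_singleton_iff] at hx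
        subst hx
        refine ⟨X, 1, one_ne_zero, ?_⟩
        simp only [Polynomial.map_X, Polynomial.map_one, map_one, div_one]
        exact pz_X.symm
    · exact ⟨1, 1, one_ne_zero, by simp⟩
    · rintro x y _ _ ⟨P, Q, hQ, rfl⟩ ⟨R, S, hS, rfl⟩
      refine ⟨P * S + Q * R, Q * S, mul_ne_zero hQ hS, ?_⟩
      rw [div_add_div _ _ (hm Q hQ) (hm S hS)]
      simp only [Polynomial.map_add, Polynomial.map_mul, map_add, map_mul]
    · rintro x _ ⟨P, Q, hQ, rfl⟩
      refine ⟨-P, Q, hQ, ?_⟩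
      rw [Polynomial.map_neg, map_neg]
      exact (neg_div _ _).symm
    · rintro x _ ⟨P, Q, hQ, rfl⟩
      by_cases hP : P = 0
      · subst hP
        exact ⟨0, 1, one_ne_zero, by simp⟩
      · exact ⟨Q, P, hP, by rw [inv_div]⟩
    · rintro x y _ _ ⟨P, Q, hQ, rfl⟩ ⟨R, S, hS, rfl⟩
      refine ⟨P * R, Q * S, mul_ne_zero hQ hS, ?_⟩
      rw [div_mul_div_comm]
      simp only [Polynomial.map_mul, map_mul]
  · rintro ⟨P, Q, hQ, rfl⟩
    exact div_mem (pz_mem_kZ (coeff_map_mem P)) (pz_mem_kZ (coeff_map_mem Q))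

theorem kZ_mono {k k' : Subfield ℂ} (h : k ≤ k') : kZ k ≤ kZ k' := by
  refine Subfield.closure_mono ?_
  rintro x (⟨a, ha, rfl⟩ | hx)
  · exact Or.inl ⟨a, h ha, rfl⟩
  · exact Or.inr hx

theorem vl_mem_of_kZ {k : Subfield ℂ} {y : K} (hy : y ∈ kZ k) :
    {c : ℂ | c ∈ k ∧ ¬ (Rg c y ∧ vl c y ∈ k)}.Finite := by
  obtain ⟨P, Q, hQ, rfl⟩ := mem_kZ_iff.1 hy
  have hQ' : pz (Q.map k.subtype) ≠ 0 := by
    rw [pz_ne_zero, Ne, Polynomial.map_eq_zero]
    exact hQ
  refine (finite_vl_eq_zero hQ').subset ?_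
  rintro c ⟨hc, h⟩ h'
  apply h
  have h2 := rg_vl_div (rg_pz c (P.map k.subtype)) h'.1 h'.2
  refine ⟨h2.1, ?_⟩
  rw [h2.2, vl_pz, vl_pz]
  exact div_mem (eval_map_mem P hc) (eval_map_mem Q hc)

theorem le_ad (k : Subfield ℂ) (S : Set ℂ) : k ≤ ad k S :=
  fun _ hx => Subfield.subset_closure (Or.inl hx)

theorem mem_ad (k : Subfield ℂ) {S : Set ℂ} {z : ℂ} (h : z ∈ S) : z ∈ ad k S :=
  Subfield.subset_closure (Or.inr h)

theorem ad_le {k L : Subfield ℂ} {S : Set ℂ} (h : k ≤ L) (h' : S ⊆ L) : ad k S ≤ L :=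
  Subfield.closure_le.2 (Set.union_subset h h')

theorem ad_mono {k : Subfield ℂ} {S T : Set ℂ} (h : S ⊆ T) : ad k S ≤ ad k T :=
  ad_le (le_ad k T) (fun _ hx => mem_ad k (h hx))

theorem kZ_le_fld (k : Subfield ℂ) (f : ℂ[X]) : kZ k ≤ fld k f :=
  fun _ hx => Subfield.subset_closure (Or.inl hx)

theorem pz_mem_fld (k : Subfield ℂ) (f : ℂ[X]) : pz f ∈ fld k f :=
  Subfield.subset_closure (Or.inr rfl)

/-- elements of `F(g)`, for any field; this contains REP -/
theorem exists_rep {L : Type} [Field L] (F : Subfield L) (g y : L)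
    (h : y ∈ Subfield.closure ((F : Set L) ∪ {g})) :
    ∃ P Q : L[X], (∀ n, P.coeff n ∈ F) ∧ (∀ n, Q.coeff n ∈ F) ∧ Q.eval g ≠ 0 ∧
      y = P.eval g / Q.eval g := by
  have hadd : ∀ P Q : L[X], (∀ n, P.coeff n ∈ F) → (∀ n, Q.coeff n ∈ F) →
      ∀ n, (P + Q).coeff n ∈ F := fun P Q hP hQ n => by
    rw [coeff_add]
    exact add_mem (hP n) (hQ n)
  have hmul : ∀ P Q : L[X], (∀ n, P.coeff n ∈ F) → (∀ n, Q.coeff n ∈ F) →
      ∀ n, (P * Q).coeff n ∈ F := fun P Q hP hQ n => by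
    rw [coeff_mul]
    exact Subfield.sum_mem _ fun x _ => mul_mem (hP x.1) (hQ x.2)
  have hone : ∀ n, (1 : L[X]).coeff n ∈ F := fun n => by
    rw [coeff_one]
    split_ifs
    · exact one_mem F
    · exact zero_mem F
  refine Subfield.closure_induction (p := fun y _ => ∃ P Q : L[X], (∀ n, P.coeff n ∈ F) ∧
    (∀ n, Q.coeff n ∈ F) ∧ Q.eval g ≠ 0 ∧ y = P.eval g / Q.eval g) ?_ ?_ ?_ ?_ ?_ ?_ h
  · rintro x (hx | hx)
    · refine ⟨C x, 1, fun n => ?_, hone, by simp, by simp⟩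
      rw [coeff_C]
      split_ifs
      · exact hx
      · exact zero_mem F
    · rw [Set.mem_singleton_iff] at hx
      subst hx
      refine ⟨X, 1, fun n => ?_, hone, by simp, by simp⟩
      rw [coeff_X]
      split_ifs
      · exact one_mem F
      · exact zero_mem F
  · exact ⟨1, 1, hone, hone, by simp, by simp⟩
  · rintro x y _ _ ⟨P, Q, hP, hQ, h0, rfl⟩ ⟨R, S, hR, hS, h1, rfl⟩
    refine ⟨P * S + Q * R, Q * S, hadd _ _ (hmul _ _ hP hS) (hmul _ _ hQ hR), hmul _ _ hQ hS,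
      ?_, ?_⟩
    · rw [eval_mul]
      exact mul_ne_zero h0 h1
    · rw [div_add_div _ _ h0 h1, eval_add, eval_mul, eval_mul, eval_mul]
  · rintro x _ ⟨P, Q, hP, hQ, h0, rfl⟩
    refine ⟨-P, Q, fun n => ?_, hQ, h0, ?_⟩
    · rw [coeff_neg]
      exact neg_mem (hP n)
    · rw [eval_neg, neg_div]
  · rintro x _ ⟨P, Q, hP, hQ, h0, rfl⟩
    by_cases h1 : P.eval g = 0
    · refine ⟨0, 1, fun n => ?_, hone, by simp, ?_⟩
      · rw [coeff_zero]
        exact zero_mem F
      · rw [h1]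
        simp
    · exact ⟨Q, P, hQ, hP, h1, by rw [inv_div]⟩
  · rintro x y _ _ ⟨P, Q, hP, hQ, h0, rfl⟩ ⟨R, S, hR, hS, h1, rfl⟩
    refine ⟨P * R, Q * S, hmul _ _ hP hR, hmul _ _ hQ hS, ?_, ?_⟩
    · rw [eval_mul]
      exact mul_ne_zero h0 h1
    · rw [div_mul_div_comm, eval_mul, eval_mul]

/-- the elements of `k(s)` inside `ℂ` -/
theorem exists_of_mem_ad {k : Subfield ℂ} {s z : ℂ} (h : z ∈ ad k {s}) :
    ∃ P Q : ℂ[X], (∀ n, P.coeff n ∈ k) ∧ (∀ n, Q.coeff n ∈ k) ∧ Q.eval s ≠ 0 ∧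
      z = P.eval s / Q.eval s :=
  exists_rep k s z h

/-- algebraic elements, for subfields of `ℂ`, in terms of polynomials with coefficients in `F` -/
theorem isAlgebraic_iff {F : Subfield ℂ} {z : ℂ} :
    IsAlgebraic F z ↔ ∃ P : ℂ[X], (∀ n, P.coeff n ∈ F) ∧ P ≠ 0 ∧ P.eval z = 0 := by
  constructor
  · rintro ⟨P, hP, h⟩
    refine ⟨P.map F.subtype, coeff_map_mem P, ?_, ?_⟩
    · rw [Ne, Polynomial.map_eq_zero]
      exact hP
    · rw [eval_map]
      exact h
  · rintro ⟨P, hP, h0, h⟩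
    obtain ⟨Q, hQ, -⟩ := exists_lift hP
    refine ⟨Q, ?_, ?_⟩
    · rintro rfl
      rw [Polynomial.map_zero] at hQ
      exact h0 hQ.symm
    · rw [← hQ, eval_map] at h
      exact h

/-- algebraic elements, for subfields of `ℂ(Z)` -/
theorem isAlgebraic_iff' {F : Subfield K} {z : K} :
    IsAlgebraic F z ↔ ∃ P : K[X], (∀ n, P.coeff n ∈ F) ∧ P ≠ 0 ∧ P.eval z = 0 := by
  constructor
  · rintro ⟨P, hP, h⟩
    refine ⟨P.map F.subtype, fun n => ?_, ?_, ?_⟩
    · rw [coeff_map]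
      exact (P.coeff n).2
    · rw [Ne, Polynomial.map_eq_zero]
      exact hP
    · rw [eval_map]
      exact h
  · rintro ⟨P, hP, h0, h⟩
    have h1 : P ∈ Polynomial.lifts F.subtype := by
      rw [Polynomial.lifts_iff_coeff_lifts]
      intro n
      exact ⟨⟨P.coeff n, hP n⟩, rfl⟩
    obtain ⟨Q, hQ⟩ := (Polynomial.mem_lifts P).1 h1
    refine ⟨Q, ?_, ?_⟩
    · rintro rfl
      rw [Polynomial.map_zero] at hQ
      exact h0 hQ.symm
    · rw [← hQ, eval_map] at h
      exact h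

theorem isAlgebraic_mono {F F' : Subfield ℂ} (h : F ≤ F') {z : ℂ} (hz : IsAlgebraic F z) :
    IsAlgebraic F' z := by
  obtain ⟨P, h1, h2, h3⟩ := isAlgebraic_iff.1 hz
  exact isAlgebraic_iff.2 ⟨P, fun n => h (h1 n), h2, h3⟩

theorem isAlgebraic_mono' {F F' : Subfield K} (h : F ≤ F') {z : K} (hz : IsAlgebraic F z) :
    IsAlgebraic F' z := by
  obtain ⟨P, h1, h2, h3⟩ := isAlgebraic_iff'.1 hz
  exact isAlgebraic_iff'.2 ⟨P, fun n => h (h1 n), h2, h3⟩

theorem isAlgebraic_of_mem {F : Subfield ℂ} {z : ℂ} (h : z ∈ F) : IsAlgebraic F z :=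
  isAlgebraic_algebraMap (⟨z, h⟩ : F)

theorem isAlgebraic_of_mem' {F : Subfield K} {z : K} (h : z ∈ F) : IsAlgebraic F z :=
  isAlgebraic_algebraMap (⟨z, h⟩ : F)

theorem tr_iff {F : Subfield K} {g : K} : Tr F g ↔ ¬ IsAlgebraic F g := by
  rw [isAlgebraic_iff']
  constructor
  · rintro h ⟨P, h1, h2, h3⟩
    exact h2 (h P h1 h3)
  · intro h P h1 h3
    by_contra h2
    exact h ⟨P, h1, h2, h3⟩

theorem Tr.mono {F F' : Subfield K} {g : K} (h : Tr F' g) (hF : F ≤ F') : Tr F g :=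
  fun P hP h0 => h P (fun n => hF (hP n)) h0

/-- the algebraic closure of a subfield inside `ℂ` -/
theorem exists_acl (F : Subfield ℂ) : ∃ L : Subfield ℂ, F ≤ L ∧ Clo L ∧
    ∀ z : ℂ, z ∈ L ↔ IsAlgebraic F z := by
  refine ⟨(algebraicClosure F ℂ).toSubfield, ?_, ?_, ?_⟩
  · intro x hx
    show x ∈ algebraicClosure F ℂ
    rw [mem_algebraicClosure_iff]
    exact isAlgebraic_of_mem hx
  · intro z hz
    show z ∈ algebraicClosure F ℂ
    rw [mem_algebraicClosure_iff]
    have hz' : IsAlgebraic (algebraicClosure F ℂ) z := hz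
    exact hz'.restrictScalars F
  · intro z
    show z ∈ algebraicClosure F ℂ ↔ _
    exact mem_algebraicClosure_iff

theorem Clo.infinite {k : Subfield ℂ} (_hk : Clo k) : (k : Set ℂ).Infinite := by
  have : Infinite k := Infinite.of_injective (fun n : ℕ => (n : k)) Nat.cast_injective
  exact Set.infinite_coe_iff.1 this

/-! ## the test polynomial and `bev` -/

theorem tp_natDegree_sum {d : ℕ} (a : Fin (d + 1) → ℂ) :
    (∑ i, C (a i) * X ^ (i : ℕ) : ℂ[X]).natDegree ≤ d := by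
  refine natDegree_sum_le_of_forall_le _ _ fun i _ => ?_
  refine (natDegree_C_mul_X_pow_le _ _).trans ?_
  have := i.2
  omega

theorem tp_monic {M d : ℕ} (h : d < M) (a : Fin (d + 1) → ℂ) : (tp M d a).Monic := by
  refine monic_X_pow_add ?_
  refine degree_le_natDegree.trans_lt ?_
  exact_mod_cast (tp_natDegree_sum a).trans_lt h

theorem tp_natDegree {M d : ℕ} (h : d < M) (a : Fin (d + 1) → ℂ) : (tp M d a).natDegree = M := by
  have h1 : (∑ i, C (a i) * X ^ (i : ℕ) : ℂ[X]).natDegree < M := (tp_natDegree_sum a).trans_lt h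
  rw [tp, natDegree_add_eq_left_of_natDegree_lt, natDegree_X_pow]
  rw [natDegree_X_pow]
  exact h1

theorem tp_eval (M d : ℕ) (a : Fin (d + 1) → ℂ) (c : ℂ) :
    (tp M d a).eval c = c ^ M + ∑ i, a i * c ^ (i : ℕ) := by
  rw [tp, eval_add, eval_pow, eval_X, eval_finsetSum]
  simp only [eval_mul, eval_C, eval_pow, eval_X]

theorem tp_coeff {M d : ℕ} (h : d < M) (a : Fin (d + 1) → ℂ) (i : Fin (d + 1)) :
    (tp M d a).coeff i = a i := by
  have hi := i.2
  rw [tp, coeff_add, coeff_X_pow, if_neg (by omega), zero_add, finsetSum_coeff]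
  simp only [coeff_C_mul, coeff_X_pow]
  rw [Finset.sum_eq_single i]
  · simp
  · intro j _ hj
    rw [if_neg, mul_zero]
    intro h1
    exact hj (Fin.ext h1.symm)
  · intro h1
    exact absurd (Finset.mem_univ i) h1

theorem bev_C (k : Subfield ℂ) (f : ℂ[X]) (p : Polynomial k) :
    bev k f (C p) = p.map k.subtype := by
  show Polynomial.eval₂ (Polynomial.mapRingHom k.subtype) f (C p) = _
  rw [eval₂_C, coe_mapRingHom]

theorem bev_X (k : Subfield ℂ) (f : ℂ[X]) : bev k f X = f := by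
  show Polynomial.eval₂ (Polynomial.mapRingHom k.subtype) f X = _
  rw [eval₂_X]

theorem bev_eq_sum (k : Subfield ℂ) (f : ℂ[X]) (A : Polynomial (Polynomial k)) :
    bev k f A = ∑ i ∈ Finset.range (A.natDegree + 1), (A.coeff i).map k.subtype * f ^ i := by
  show Polynomial.eval₂ (Polynomial.mapRingHom k.subtype) f A = _
  rw [eval₂_eq_sum_range]
  simp only [coe_mapRingHom]

/-! ## conditions -/

theorem QFO.mono {F F' : Subfield K} (h : F ≤ F') {ι : Type} {Φ : (ι → K) → Prop}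
    (hΦ : QFO F ι Φ) : QFO F' ι Φ := by
  induction hΦ with
  | zero P hP => exact QFO.zero P fun m => h (hP m)
  | neg _ ih => exact QFO.neg ih
  | and _ _ ih ih' => exact QFO.and ih ih'

theorem ext_none {ι : Type} (y : ι → K) (t : K) : ext y t none = t := rfl

theorem ext_some {ι : Type} (y : ι → K) (t : K) (i : ι) : ext y t (some i) = y i := rfl

end

end EVR
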