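import Pool.Agent.EVR.Api

/-!
Squad EVR, module CHR: uniqueness of the extension of a derivation and the chain rule.
-/

set_option autoImplicit false

namespace EVR

open Polynomial

namespace CHR_

variable {D : Derivation ℤ ℂ ℂ}

theorem cd_add (hc : ∀ (D : Derivation ℤ ℂ ℂ) (p : ℂ[X]) (n : ℕ),
    (cd D p).coeff n = D (p.coeff n)) (p q : ℂ[X]) : cd D (p + q) = cd D p + cd D q := by
  ext n
  rw [coeff_add, hc, hc, hc, coeff_add, map_add]

theorem cd_monomial (hc : ∀ (D : Derivation ℤ ℂ ℂ) (p : ℂ[X]) (n : ℕ),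
    (cd D p).coeff n = D (p.coeff n)) (n : ℕ) (a : ℂ) :
    cd D (monomial n a) = monomial n (D a) := by
  ext m
  rw [hc, coeff_monomial, coeff_monomial]
  split_ifs
  · rfl
  · exact map_zero D

theorem first (hc : ∀ (D : Derivation ℤ ℂ ℂ) (p : ℂ[X]) (n : ℕ),
    (cd D p).coeff n = D (p.coeff n)) {E : Derivation ℤ K K} (hE : IsExt D E) (p : ℂ[X]) :
    E (pz p) = pz (cd D p) := by
  induction p using Polynomial.induction_on' with
  | add p q hp hq => rw [cd_add hc, map_add, map_add, hp, hq, map_add]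
  | monomial n a =>
    rw [cd_monomial hc, ← C_mul_X_pow_eq_monomial, ← C_mul_X_pow_eq_monomial, map_mul pz,
      map_mul pz, map_pow pz, pz_C, pz_C, pz_X, E.leibniz, E.leibniz_pow, hE.X, hE.C]
    simp only [smul_eq_mul, smul_zero, zero_add]
    ring

theorem cd_mul (hc : ∀ (D : Derivation ℤ ℂ ℂ) (p : ℂ[X]) (n : ℕ),
    (cd D p).coeff n = D (p.coeff n)) {E : Derivation ℤ K K} (hE : IsExt D E) (p q : ℂ[X]) :
    cd D (p * q) = p * cd D q + q * cd D p := by
  rw [← pz_inj, ← first hc hE, map_mul, E.leibniz, first hc hE, first hc hE, map_add, map_mul,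
    map_mul]
  rfl

theorem cd_pow (hc : ∀ (D : Derivation ℤ ℂ ℂ) (p : ℂ[X]) (n : ℕ),
    (cd D p).coeff n = D (p.coeff n)) {E : Derivation ℤ K K} (hE : IsExt D E) (p : ℂ[X]) (n : ℕ) :
    cd D (p ^ n) = (n : ℂ[X]) * p ^ (n - 1) * cd D p := by
  rw [← pz_inj, ← first hc hE, map_pow, E.leibniz_pow, first hc hE, map_mul, map_mul, map_pow,
    map_natCast]
  simp only [smul_eq_mul, nsmul_eq_mul]
  ring

end CHR_

open CHR_ in
theorem chr_proof (hEXT : Stmt_EXT) : Stmt_CHR := by
  obtain ⟨hc, -⟩ := hEXT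
  intro D E hE
  refine ⟨first hc hE, ?_⟩
  intro k f A hk
  induction A using Polynomial.induction_on' with
  | add p q hp hq =>
    rw [map_add, cd_add hc, hp, hq, derivative_add, map_add]
    ring
  | monomial n c =>
    have h0 : cd D (c.map k.subtype) = 0 := by
      ext m
      rw [hc, coeff_map, coeff_zero]
      exact hk _ (c.coeff m).2
    rw [derivative_monomial, ← C_mul_X_pow_eq_monomial, ← C_mul_X_pow_eq_monomial, map_mul,
      map_mul, map_pow, map_pow, bev_C, bev_C, bev_X, cd_mul hc hE, h0, cd_pow hc hE,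
      Polynomial.map_mul, Polynomial.map_natCast]
    ring

end EVR
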