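import Pool.Agent.EVR.Api

/-!
# Squad EVR (MP_3e5173_lc): clearing denominators
-/

set_option autoImplicit false

namespace EVR

open Polynomial

noncomputable section

namespace CLD_

/-- `k[Z] → ℂ(Z)` -/
def io (k : Subfield ℂ) : Polynomial k →+* K := (pz : ℂ[X] →+* K).comp (mapRingHom k.subtype)

/-- `k[Z][x] → ℂ(Z)[x]` -/
def J (k : Subfield ℂ) : Polynomial (Polynomial k) →+* K[X] := mapRingHom (io k)

theorem io_apply (k : Subfield ℂ) (p : Polynomial k) : io k p = pz (p.map k.subtype) := rfl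

theorem io_inj (k : Subfield ℂ) : Function.Injective (io k) := by
  intro p q h
  rw [io_apply, io_apply, pz_inj] at h
  exact Polynomial.map_injective _ k.subtype.injective h

theorem J_inj (k : Subfield ℂ) : Function.Injective (J k) :=
  Polynomial.map_injective _ (io_inj k)

theorem io_mem (k : Subfield ℂ) (p : Polynomial k) : io k p ∈ kZ k :=
  pz_mem_kZ fun n => coeff_map_mem p n

theorem J_coeff (k : Subfield ℂ) (A : Polynomial (Polynomial k)) (n : ℕ) :
    (J k A).coeff n = io k (A.coeff n) := by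
  show (A.map (io k)).coeff n = _
  rw [coeff_map]

theorem Co_J (k : Subfield ℂ) (A : Polynomial (Polynomial k)) : Co (kZ k) (J k A) := fun n => by
  rw [J_coeff]
  exact io_mem k _

theorem Co_C (k : Subfield ℂ) (g : Polynomial k) : Co (kZ k) (C (io k g)) := fun n => by
  rw [coeff_C]
  split_ifs
  · exact io_mem k g
  · exact zero_mem _

theorem J_eval (k : Subfield ℂ) (f : ℂ[X]) (A : Polynomial (Polynomial k)) :
    (J k A).eval (pz f) = pz (bev k f A) := by
  show (A.map (io k)).eval (pz f) = pz (eval₂ (mapRingHom k.subtype) f A)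
  rw [eval_map, hom_eval₂]
  rfl

theorem coeffs (k : Subfield ℂ) (A : K[X]) (hA : Co (kZ k) A) (N : ℕ) :
    ∃ g : Polynomial k, g ≠ 0 ∧ ∀ n < N, ∃ p : Polynomial k, io k g * A.coeff n = io k p := by
  induction N with
  | zero => exact ⟨1, one_ne_zero, fun n hn => absurd hn (Nat.not_lt_zero n)⟩
  | succ N ih =>
    obtain ⟨g, hg, h⟩ := ih
    obtain ⟨P, Q, hQ, hPQ⟩ := mem_kZ_iff.1 (hA N)
    refine ⟨g * Q, mul_ne_zero hg hQ, fun n hn => ?_⟩
    rcases Nat.lt_succ_iff_lt_or_eq.1 hn with h1 | h1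
    · obtain ⟨p, hp⟩ := h n h1
      refine ⟨Q * p, ?_⟩
      rw [map_mul, map_mul, ← hp]
      ring
    · refine ⟨g * P, ?_⟩
      have hQ' : io k Q ≠ 0 := by
        rw [Ne, map_eq_zero_iff (io k) (io_inj k)]
        exact hQ
      rw [h1, hPQ, ← io_apply, ← io_apply, map_mul, map_mul]
      field_simp

theorem denom (k : Subfield ℂ) (A : K[X]) (hA : Co (kZ k) A) :
    ∃ (g : Polynomial k) (A1 : Polynomial (Polynomial k)), g ≠ 0 ∧ C (io k g) * A = J k A1 := by
  obtain ⟨g, hg, h⟩ := coeffs k A hA (A.natDegree + 1)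
  choose! p hp using h
  refine ⟨g, ∑ n ∈ Finset.range (A.natDegree + 1), C (p n) * X ^ n, hg, ?_⟩
  ext n
  rw [coeff_C_mul, J_coeff, finsetSum_coeff]
  by_cases hn : n < A.natDegree + 1
  · rw [hp n hn, Finset.sum_eq_single n]
    · rw [coeff_C_mul, coeff_X_pow_self, mul_one]
    · intro m _ hm
      rw [coeff_C_mul, coeff_X_pow, if_neg (Ne.symm hm), mul_zero]
    · intro h
      exact absurd (Finset.mem_range.2 hn) h
  · rw [coeff_eq_zero_of_natDegree_lt (by omega), mul_zero, Finset.sum_eq_zero, map_zero]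
    intro m hm
    have := Finset.mem_range.1 hm
    rw [coeff_C_mul, coeff_X_pow, if_neg (by omega), mul_zero]

end CLD_

open CLD_ in
theorem cld_proof (hMML : Stmt_MML) : Stmt_CLD := by
  intro k A B hA hB hNC
  obtain ⟨gA, A1, hgA, hA1⟩ := denom k A hA
  obtain ⟨gB, B1, hgB, hB1⟩ := denom k B hB
  set g := gA * gB with hg
  have hg0 : g ≠ 0 := mul_ne_zero hgA hgB
  have hm0 : io k g ≠ 0 := by
    rw [Ne, map_eq_zero_iff (io k) (io_inj k)]
    exact hg0
  have hA2 : A * C (io k g) ^ 4 = J k (C g ^ 3 * C gB * A1) := by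
    have e : J k (C g) = C (io k g) := by
      show (C g).map (io k) = _
      rw [map_C]
    have eB : J k (C gB) = C (io k gB) := by
      show (C gB).map (io k) = _
      rw [map_C]
    rw [(J k).map_mul, (J k).map_mul, (J k).map_pow, e, eB, ← hA1]
    have e2 : C (io k g) = C (io k gA) * C (io k gB) := by
      rw [hg, map_mul, map_mul]
    rw [e2]
    ring
  have hB2 : B * C (io k g) ^ 6 = J k (C g ^ 5 * C gA * B1) := by
    have e : J k (C g) = C (io k g) := by
      show (C g).map (io k) = _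
      rw [map_C]
    have eA : J k (C gA) = C (io k gA) := by
      show (C gA).map (io k) = _
      rw [map_C]
    rw [(J k).map_mul, (J k).map_mul, (J k).map_pow, e, eA, ← hB1]
    have e2 : C (io k g) = C (io k gA) * C (io k gB) := by
      rw [hg, map_mul, map_mul]
    rw [e2]
    ring
  set A2 := C g ^ 3 * C gB * A1 with hA2d
  set B2 := C g ^ 5 * C gA * B1 with hB2d
  have hCm : (C (io k g) : K[X]) ≠ 0 := C_ne_zero.2 hm0
  have hne : A2 ≠ 0 ∨ B2 ≠ 0 := by
    by_contra hcon
    push Not at hcon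
    rw [hcon.1, map_zero] at hA2
    rw [hcon.2, map_zero] at hB2
    have hA0 : A = 0 := by
      rcases mul_eq_zero.1 hA2 with h | h
      · exact h
      · exact absurd h (pow_ne_zero 4 hCm)
    have hB0 : B = 0 := by
      rcases mul_eq_zero.1 hB2 with h | h
      · exact h
      · exact absurd h (pow_ne_zero 6 hCm)
    apply hNC.disc
    rw [hA0, hB0]
    ring
  obtain ⟨L, A', B', hL, hLA, hLB, hM⟩ := hMML (Polynomial (Polynomial k)) A2 B2 hne
  have hl0 : J k L ≠ 0 := by
    rw [Ne, map_eq_zero_iff (J k) (J_inj k)]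
    exact hL
  have e1 : A * C (io k g) ^ 4 = J k L ^ 4 * J k A' := by
    rw [hA2, hLA, map_mul, map_pow]
  have e2 : B * C (io k g) ^ 6 = J k L ^ 6 * J k B' := by
    rw [hB2, hLB, map_mul, map_pow]
  refine ⟨A', B', J k L, C (io k g), Co_J k L, Co_C k g, hl0, hCm, hM, ?_, ?_, fun f => ⟨?_, ?_⟩⟩
  · intro h
    have h1 : J k L ^ 12 * (4 * J k A' ^ 3 + 27 * J k B' ^ 2) =
        C (io k g) ^ 12 * (4 * A ^ 3 + 27 * B ^ 2) := by
      calc J k L ^ 12 * (4 * J k A' ^ 3 + 27 * J k B' ^ 2) =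
          4 * (J k L ^ 4 * J k A') ^ 3 + 27 * (J k L ^ 6 * J k B') ^ 2 := by ring
        _ = 4 * (A * C (io k g) ^ 4) ^ 3 + 27 * (B * C (io k g) ^ 6) ^ 2 := by rw [e1, e2]
        _ = _ := by ring
    have h2 : 4 * J k A' ^ 3 + 27 * J k B' ^ 2 = 0 := by
      have := congrArg (J k) h
      rw [(J k).map_add, (J k).map_mul, (J k).map_mul, (J k).map_pow, (J k).map_pow, map_ofNat,
        map_ofNat, (J k).map_zero] at this
      exact this
    rw [h2, mul_zero] at h1
    rcases mul_eq_zero.1 h1.symm with h3 | h3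
    · exact pow_ne_zero 12 hCm h3
    · exact hNC.disc h3
  · rintro ⟨α, β, hα, hβ⟩
    have hJC : ∀ γ : k, J k (C (C γ)) = C (cst (γ : ℂ)) := by
      intro γ
      show (C (C γ)).map (io k) = _
      rw [map_C, io_apply, Polynomial.map_C, pz_C]
      rfl
    refine hNC.nc (J k L) (C (io k g)) α β hl0 hCm ⟨?_, ?_⟩
    · rw [e1, hα, hJC, mul_comm]
    · rw [e2, hβ, hJC, mul_comm]
  · have := congrArg (Polynomial.eval (pz f)) e1
    rw [eval_mul, eval_pow, eval_mul, eval_pow, J_eval k f A'] at this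
    exact this
  · have := congrArg (Polynomial.eval (pz f)) e2
    rw [eval_mul, eval_pow, eval_mul, eval_pow, J_eval k f B'] at this
    exact this

end

end EVR
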