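import Pool.Agent.EVR.Api

set_option autoImplicit false

namespace EVR

open Polynomial

noncomputable section

namespace COL_

open Classical in
/-- the coefficients of a multivariate polynomial -/
def mc {ι : Type} (P : MvPolynomial ι K) : Finset K := P.support.image fun m => P.coeff m

theorem mc_mem {ι : Type} {P : MvPolynomial ι K} {F : Subfield K} (h : (mc P : Set K) ⊆ F)
    (m : ι →₀ ℕ) : P.coeff m ∈ F := by
  classical
  by_cases hm : m ∈ P.support
  · refine h ?_
    rw [Finset.mem_coe, mc, Finset.mem_image]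
    exact ⟨m, hm, rfl⟩
  · rw [MvPolynomial.notMem_support_iff.1 hm]
    exact zero_mem F

open Classical in
/-- the coefficients of a polynomial -/
def pc (p : ℂ[X]) : Finset ℂ := p.support.image fun n => p.coeff n

theorem pc_mem {p : ℂ[X]} {k : Subfield ℂ} (h : (pc p : Set ℂ) ⊆ k) (n : ℕ) : p.coeff n ∈ k := by
  classical
  by_cases hn : n ∈ p.support
  · refine h ?_
    rw [Finset.mem_coe, pc, Finset.mem_image]
    exact ⟨n, hn, rfl⟩
  · rw [notMem_support_iff.1 hn]
    exact zero_mem k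

theorem union_sub {α : Type} [DecidableEq α] {S T : Finset α} {F : Set α}
    (h : ((S ∪ T : Finset α) : Set α) ⊆ F) : (S : Set α) ⊆ F ∧ (T : Set α) ⊆ F := by
  rw [Finset.coe_union, Set.union_subset_iff] at h
  exact h

theorem qf {ι : Type} {Φ : (ι → K) → Prop} (h : QF ι Φ) :
    ∃ S : Finset K, ∀ F : Subfield K, (S : Set K) ⊆ F → QFO F ι Φ := by
  classical
  induction h with
  | zero P => exact ⟨mc P, fun F hF => QFO.zero P (mc_mem hF)⟩
  | neg _ ih =>
    obtain ⟨S, hS⟩ := ih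
    exact ⟨S, fun F hF => QFO.neg (hS F hF)⟩
  | and _ _ ih ih' =>
    obtain ⟨S, hS⟩ := ih
    obtain ⟨T, hT⟩ := ih'
    exact ⟨S ∪ T, fun F hF => QFO.and (hS F (union_sub hF).1) (hT F (union_sub hF).2)⟩

theorem bdd {ι : Type} {Φ : (ι → K) → Prop} (h : Bdd ι Φ) :
    ∃ (S : Finset K) (N : ℕ), ∀ (F : Subfield K) (N' : ℕ), (S : Set K) ⊆ F → N ≤ N' →
      BddO F N' ι Φ := by
  classical
  induction h with
  | free h =>
    obtain ⟨S, hS⟩ := qf h
    exact ⟨S, 0, fun F N' hF _ => BddO.free (hS F hF)⟩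
  | const s h =>
    obtain ⟨S, hS⟩ := qf h
    exact ⟨S, s, fun F N' hF hN => BddO.const s hN (hS F hF)⟩
  | alg G _ ih =>
    obtain ⟨S, N, hS⟩ := ih
    refine ⟨S ∪ G.support.biUnion fun i => mc (G.coeff i), N, fun F N' hF hN => ?_⟩
    refine BddO.alg G ?_ (hS F N' (union_sub hF).1 hN)
    intro i m
    by_cases hi : i ∈ G.support
    · refine mc_mem (fun x hx => (union_sub hF).2 ?_) m
      rw [Finset.mem_coe, Finset.mem_biUnion]
      exact ⟨i, hi, hx⟩
    · rw [notMem_support_iff.1 hi, MvPolynomial.coeff_zero]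
      exact zero_mem F
  | and _ _ ih ih' =>
    obtain ⟨S, N, hS⟩ := ih
    obtain ⟨T, M, hT⟩ := ih'
    exact ⟨S ∪ T, max N M, fun F N' hF hN => BddO.and
      (hS F N' (union_sub hF).1 ((le_max_left N M).trans hN))
      (hT F N' (union_sub hF).2 ((le_max_right N M).trans hN))⟩
  | or _ _ ih ih' =>
    obtain ⟨S, N, hS⟩ := ih
    obtain ⟨T, M, hT⟩ := ih'
    exact ⟨S ∪ T, max N M, fun F N' hF hN => BddO.or
      (hS F N' (union_sub hF).1 ((le_max_left N M).trans hN))
      (hT F N' (union_sub hF).2 ((le_max_right N M).trans hN))⟩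

end COL_

theorem col_proof : Stmt_COL := by
  classical
  refine ⟨fun ι Φ h => COL_.bdd h, ?_⟩
  intro S
  refine ⟨S.biUnion fun y => COL_.pc y.num ∪ COL_.pc y.denom, fun k hk y hy => ?_⟩
  have h1 : ((COL_.pc y.num ∪ COL_.pc y.denom : Finset ℂ) : Set ℂ) ⊆ k := by
    intro x hx
    refine hk ?_
    rw [Finset.mem_coe, Finset.mem_biUnion]
    exact ⟨y, hy, hx⟩
  rw [eq_div y]
  exact div_mem (pz_mem_kZ (COL_.pc_mem (COL_.union_sub h1).1))
    (pz_mem_kZ (COL_.pc_mem (COL_.union_sub h1).2))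

end

end EVR
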