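import Pool.Agent.EVR.Api

/-!
# Squad EVR (MP_3e5173_lc): module COR, points of minimal Weierstrass equations
-/

set_option autoImplicit false

namespace EVR

open Polynomial

noncomputable section

namespace COR_

/-- `bev` is injective -/
theorem bev_ne_zero (hTPL : Stmt_TPL) {k : Subfield ℂ} {M d : ℕ} {a : Fin (d + 1) → ℂ}
    (ha : AlgebraicIndependent k a) {G : Polynomial (Polynomial k)} (hG : G ≠ 0) :
    bev k (tp M d a) G ≠ 0 := by
  intro h0
  apply hG
  have hinf : Infinite k := Infinite.of_injective (fun n : ℕ => (n : k)) Nat.cast_injective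
  have key : ∀ c : k, G.map (evalRingHom c) = 0 := by
    intro c
    by_contra hne
    apply (hTPL k M d a ha).1 (c : ℂ) c.2
    refine ⟨G.map (evalRingHom c), hne, ?_⟩
    have h1 : (bev k (tp M d a) G).eval (c : ℂ) = 0 := by rw [h0, eval_zero]
    have h2 : (evalRingHom (c : ℂ)) (eval₂ (mapRingHom k.subtype) (tp M d a) G) = 0 := h1
    rw [hom_eval₂] at h2
    rw [aeval_def, eval₂_map]
    have h3 : (algebraMap k ℂ).comp (evalRingHom c) =
        (evalRingHom (c : ℂ)).comp (mapRingHom k.subtype) := by
      ext x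
      · simp
        rfl
      · simp
        rfl
    rw [h3]
    exact h2
  ext1 n
  rw [coeff_zero]
  apply Polynomial.funext
  intro c
  have h := congrArg (fun P => coeff P n) (key c)
  simp only [coeff_map, coe_evalRingHom, coeff_zero] at h
  rw [h, eval_zero]

theorem natDegree_bev {k : Subfield ℂ} {M d : ℕ} (h : d < M) (a : Fin (d + 1) → ℂ)
    (A : Polynomial (Polynomial k)) (hA : ∀ n, (A.coeff n).natDegree < M)
    (h1 : 1 ≤ A.natDegree) : M ≤ (bev k (tp M d a) A).natDegree := by
  have hf := tp_monic h a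
  have hfd := tp_natDegree h a
  have hA0 : A.coeff A.natDegree ≠ 0 := by
    intro h2
    have h3 : A = 0 := by
      rw [← leadingCoeff_eq_zero]
      exact h2
    rw [h3, natDegree_zero] at h1
    omega
  have hlead : ((A.coeff A.natDegree).map k.subtype * tp M d a ^ A.natDegree).natDegree =
      (A.coeff A.natDegree).natDegree + A.natDegree * M := by
    rw [natDegree_mul, natDegree_map_eq_of_injective k.subtype.injective, natDegree_pow, hfd]
    · rw [Ne, Polynomial.map_eq_zero]
      exact hA0
    · exact pow_ne_zero _ hf.ne_zero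
  have hrest : (∑ i ∈ Finset.range A.natDegree,
      (A.coeff i).map k.subtype * tp M d a ^ i).natDegree ≤ A.natDegree * M - 1 := by
    refine natDegree_sum_le_of_forall_le _ _ fun i hi => ?_
    rw [Finset.mem_range] at hi
    refine natDegree_mul_le.trans ?_
    rw [natDegree_map_eq_of_injective k.subtype.injective]
    have h2 : (tp M d a ^ i).natDegree = i * M := by rw [natDegree_pow, hfd]
    rw [h2]
    have h3 := hA i
    have h4 : (i + 1) * M ≤ A.natDegree * M := Nat.mul_le_mul_right M hi
    have h5 : (i + 1) * M = i * M + M := by ring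
    omega
  have hpos : 1 * M ≤ A.natDegree * M := Nat.mul_le_mul_right M h1
  rw [bev_eq_sum, Finset.sum_range_succ, natDegree_add_eq_right_of_natDegree_lt]
  · rw [hlead]
    omega
  · rw [hlead]
    omega

/-- coefficients of the test polynomial of high index -/
theorem tp_coeff_high {M d : ℕ} (a : Fin (d + 1) → ℂ) {n : ℕ} (hn : d < n) :
    (tp M d a).coeff n = if n = M then 1 else 0 := by
  rw [tp, coeff_add, coeff_X_pow, coeff_eq_zero_of_natDegree_lt, add_zero]
  exact (tp_natDegree_sum a).trans_lt hn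

theorem natDegree_cd (hEXT : Stmt_EXT) (D : Derivation ℤ ℂ ℂ) (p : ℂ[X]) :
    (cd D p).natDegree ≤ p.natDegree := by
  rw [natDegree_le_iff_coeff_eq_zero]
  intro n hn
  rw [hEXT.1, coeff_eq_zero_of_natDegree_lt hn, map_zero]

theorem natDegree_cd_tp (hEXT : Stmt_EXT) (D : Derivation ℤ ℂ ℂ) (M d : ℕ)
    (a : Fin (d + 1) → ℂ) : (cd D (tp M d a)).natDegree ≤ d := by
  rw [natDegree_le_iff_coeff_eq_zero]
  intro n hn
  rw [hEXT.1, tp_coeff_high a hn]
  split_ifs
  · exact D.map_one_eq_zero
  · exact map_zero D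

theorem cd_tp_eq_one (hEXT : Stmt_EXT) (D : Derivation ℤ ℂ ℂ) {M d : ℕ} (h : d < M)
    (a : Fin (d + 1) → ℂ) (h0 : D (a 0) = 1) (h1 : ∀ i, i ≠ 0 → D (a i) = 0) :
    cd D (tp M d a) = 1 := by
  ext1 n
  rw [hEXT.1, coeff_one]
  by_cases hn : d < n
  · rw [tp_coeff_high a hn, if_neg (show ¬ n = 0 by omega)]
    split_ifs
    · exact D.map_one_eq_zero
    · exact map_zero D
  · have h2 := tp_coeff h a ⟨n, by omega⟩
    simp only at h2
    rw [h2]
    by_cases hn0 : n = 0
    · subst hn0
      rw [if_pos rfl]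
      exact h0
    · rw [if_neg hn0]
      apply h1
      intro h3
      apply hn0
      have h4 := congrArg Fin.val h3
      simpa using h4

end COR_

theorem cor_proof (hDER : Stmt_DER) (hEXT : Stmt_EXT) (hCHR : Stmt_CHR) (hTPL : Stmt_TPL)
    (hMTH : Stmt_MTH) (hDVN : Stmt_DVN) (hPPD : Stmt_PPD) : Stmt_COR := by
  intro k M d a A B u v hk h6 ha hMnl hdisc hdeg hnc heq
  have hdM : d < M := by omega
  have hAB : A ≠ 0 ∨ B ≠ 0 := by
    by_contra hcon
    push Not at hcon
    apply hdisc
    rw [hcon.1, hcon.2]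
    simp
  have hmin := hDVN k M d a A B hk hdM ha hMnl hAB
  have hdisc' : 4 * (bev k (tp M d a) A) ^ 3 + 27 * (bev k (tp M d a) B) ^ 2 ≠ 0 := by
    have h := COR_.bev_ne_zero hTPL (M := M) ha hdisc
    have h2 : bev k (tp M d a) (4 * A ^ 3 + 27 * B ^ 2) =
        4 * (bev k (tp M d a) A) ^ 3 + 27 * (bev k (tp M d a) B) ^ 2 := by
      simp only [map_add, map_mul, map_pow, map_ofNat]
    rw [← h2]
    exact h
  by_cases hcase : 1 ≤ A.natDegree ∨ 1 ≤ B.natDegree
  · -- case 1
    obtain ⟨D0, hD0, hD1⟩ := hDER (ad k (a '' {i | i ≠ 0})) (a 0) (hTPL k M d a ha).2.1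
    have hD0k : ∀ z ∈ k, D0 z = 0 := fun z hz => hD0 z (le_ad k _ hz)
    have hcd : cd D0 (tp M d a) = 1 := COR_.cd_tp_eq_one hEXT D0 hdM a hD1
      (fun i hi => hD0 _ (mem_ad k ⟨i, hi, rfl⟩))
    obtain ⟨E0, hE0, hE0'⟩ := hEXT.2 D0
    have main : ∀ (D : Derivation ℤ ℂ ℂ) (E : Derivation ℤ K K), IsExt D E →
        (∀ z ∈ k, D z = 0) → E u = E0 u * E (pz (tp M d a)) ∧ E v = E0 v * E (pz (tp M d a)) := by
      intro D E hDE hDk
      have hE' := (hCHR D E hDE).1
      have hΔ : ∀ y : K, (E - (E (pz (tp M d a))) • E0) y = E y - E (pz (tp M d a)) * E0 y := by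
        intro y
        rw [Derivation.sub_apply, Derivation.smul_apply, smul_eq_mul]
      have hΔp : ∀ p : ℂ[X], (E - (E (pz (tp M d a))) • E0) (pz p) =
          pz (cd D p - cd D (tp M d a) * cd D0 p) := by
        intro p
        rw [hΔ, hE', hE', hE0', map_sub, map_mul]
      have hΔb : ∀ G : Polynomial (Polynomial k),
          (E - (E (pz (tp M d a))) • E0) (pz (bev k (tp M d a) G)) = 0 := by
        intro G
        rw [hΔp, (hCHR D E hDE).2 k (tp M d a) G hDk, (hCHR D0 E0 hE0).2 k (tp M d a) G hD0k,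
          hcd, mul_one, mul_comm, sub_self, map_zero]
      have h := hMTH (E - (E (pz (tp M d a))) • E0) d (bev k (tp M d a) A) (bev k (tp M d a) B) u v
        (fun p => ⟨cd D p - cd D (tp M d a) * cd D0 p, hΔp p, by
          refine (natDegree_sub_le _ _).trans (max_le ?_ ?_)
          · exact (COR_.natDegree_cd hEXT D p).trans (Nat.le_add_right _ _)
          · refine natDegree_mul_le.trans ?_
            have h1 := COR_.natDegree_cd_tp hEXT D M d a
            have h2 := COR_.natDegree_cd hEXT D0 p
            omega⟩)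
        (hΔb A) (hΔb B) hdisc' hmin
        (by
          rcases hcase with h1 | h1
          · left
            have := COR_.natDegree_bev hdM a A (fun n => (hdeg n).1) h1
            omega
          · right
            have := COR_.natDegree_bev hdM a B (fun n => (hdeg n).2) h1
            omega)
        heq
      rw [hΔ, hΔ, sub_eq_zero, sub_eq_zero] at h
      refine ⟨?_, ?_⟩
      · rw [h.1, mul_comm]
      · rw [h.2, mul_comm]
    exact ⟨hPPD k (tp M d a) u (E0 u) hk fun D E hDE hDk => (main D E hDE hDk).1,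
      hPPD k (tp M d a) v (E0 v) hk fun D E hDE hDk => (main D E hDE hDk).2⟩
  · -- case 2
    push Not at hcase
    have hA : A = C (A.coeff 0) := eq_C_of_natDegree_eq_zero (by omega)
    have hB : B = C (B.coeff 0) := eq_C_of_natDegree_eq_zero (by omega)
    have main : ∀ (D : Derivation ℤ ℂ ℂ) (E : Derivation ℤ K K), IsExt D E →
        (∀ z ∈ k, D z = 0) → E u = 0 ∧ E v = 0 := by
      intro D E hDE hDk
      have hE' := (hCHR D E hDE).1
      have hz : ∀ P : Polynomial k, E (pz (bev k (tp M d a) (C P))) = 0 := by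
        intro P
        rw [bev_C, hE']
        have h1 : cd D (P.map k.subtype) = 0 := by
          ext1 n
          rw [hEXT.1, coeff_zero]
          exact hDk _ (coeff_map_mem P n)
        rw [h1, map_zero]
      refine hMTH E 0 (bev k (tp M d a) A) (bev k (tp M d a) B) u v
        (fun p => ⟨cd D p, hE' p, COR_.natDegree_cd hEXT D p⟩)
        (by rw [hA]; exact hz _) (by rw [hB]; exact hz _) hdisc' hmin ?_ heq
      by_contra hcon
      push Not at hcon
      rw [hA, hB, bev_C, bev_C, natDegree_map_eq_of_injective k.subtype.injective,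
        natDegree_map_eq_of_injective k.subtype.injective] at hcon
      apply hnc
      refine ⟨(A.coeff 0).coeff 0, (B.coeff 0).coeff 0, ?_, ?_⟩
      · rw [← eq_C_of_natDegree_eq_zero (p := A.coeff 0) (by omega)]
        exact hA
      · rw [← eq_C_of_natDegree_eq_zero (p := B.coeff 0) (by omega)]
        exact hB
    exact ⟨hPPD k (tp M d a) u 0 hk fun D E hDE hDk => by
        rw [zero_mul]; exact (main D E hDE hDk).1,
      hPPD k (tp M d a) v 0 hk fun D E hDE hDk => by
        rw [zero_mul]; exact (main D E hDE hDk).2⟩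

end

end EVR
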