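import Pool.Agent.EVR.Api

/-!
# Squad EVR (MP_3e5173_lc), module DER: derivations of `ℂ`
-/

set_option autoImplicit false

namespace EVR

open Polynomial TensorProduct

noncomputable section

namespace DER_

open scoped IntermediateField.algebraAdjoinAdjoin in
theorem etale (F : Subfield ℂ) (t : Set ℂ)
    (ht : IsTranscendenceBasis F ((↑) : t → ℂ)) :
    Algebra.FormallyEtale (Algebra.adjoin F t) ℂ := by
  have h1 : Algebra.FormallyEtale (Algebra.adjoin F t) (IntermediateField.adjoin F t) :=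
    Algebra.FormallyEtale.of_isLocalization (nonZeroDivisors _)
  have h2 : Algebra.IsAlgebraic (IntermediateField.adjoin F t) ℂ := by
    have := ht.isAlgebraic_field
    rw [Subtype.range_coe] at this
    exact this
  have h3 : Algebra.IsSeparable (IntermediateField.adjoin F t) ℂ := inferInstance
  have h4 : Algebra.FormallyEtale (IntermediateField.adjoin F t) ℂ :=
    Algebra.FormallyEtale.of_isSeparable _ ℂ
  exact Algebra.FormallyEtale.comp (Algebra.adjoin F t) (IntermediateField.adjoin F t) ℂ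

/-- the derivation of `F[t]` with values in `ℂ` -/
theorem exists_der (F : Subfield ℂ) (t : Set ℂ)
    (ht : AlgebraicIndependent F ((↑) : t → ℂ)) (z : ℂ) (hz : z ∈ t) :
    ∃ D : Derivation F (Algebra.adjoin F t) ℂ,
      D ⟨z, Algebra.subset_adjoin hz⟩ = 1 := by
  have hr : Algebra.adjoin F (Set.range ((↑) : t → ℂ)) = Algebra.adjoin F t := by
    rw [Subtype.range_coe]
  let e : MvPolynomial t F ≃ₐ[F] Algebra.adjoin F t :=
    ht.aevalEquiv.trans (Subalgebra.equivOfEq _ _ hr)
  have he : ∀ p : MvPolynomial t F, ((e p : Algebra.adjoin F t) : ℂ)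
      = MvPolynomial.aeval ((↑) : t → ℂ) p := by
    intro p
    rfl
  let δ : Derivation F (MvPolynomial t F) (MvPolynomial t F) := MvPolynomial.pderiv ⟨z, hz⟩
  let φ : MvPolynomial t F →ₐ[F] ℂ := MvPolynomial.aeval ((↑) : t → ℂ)
  have hφ : ∀ a : Algebra.adjoin F t, φ (e.symm a) = (a : ℂ) := by
    intro a
    have := he (e.symm a)
    rw [AlgEquiv.apply_symm_apply] at this
    exact this.symm
  refine ⟨Derivation.mk' (φ.toLinearMap ∘ₗ δ.toLinearMap ∘ₗ e.symm.toLinearMap) ?_, ?_⟩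
  · intro a b
    show φ (δ (e.symm (a * b))) = a • φ (δ (e.symm b)) + b • φ (δ (e.symm a))
    rw [map_mul, Derivation.leibniz, map_add, smul_eq_mul, smul_eq_mul, map_mul, map_mul,
      hφ, hφ]
    rfl
  · show φ (δ (e.symm ⟨z, Algebra.subset_adjoin hz⟩)) = 1
    have h1 : e.symm ⟨z, Algebra.subset_adjoin hz⟩ = MvPolynomial.X ⟨z, hz⟩ := by
      rw [AlgEquiv.symm_apply_eq]
      apply Subtype.ext
      rw [he, MvPolynomial.aeval_X]
    rw [h1]
    show φ (MvPolynomial.pderiv ⟨z, hz⟩ (MvPolynomial.X ⟨z, hz⟩)) = 1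
    rw [MvPolynomial.pderiv_X_self, map_one]

end DER_

theorem der_proof : Stmt_DER := by
  intro F z hz
  have h0 : AlgebraicIndepOn F id ({z} : Set ℂ) := by
    have : AlgebraicIndependent F (fun i : ({z} : Set ℂ) => id (i : ℂ)) :=
      algebraicIndependent_unique_type_iff.mpr hz
    exact this
  obtain ⟨t, hst, ht⟩ := exists_isTranscendenceBasis_superset h0
  have hzt : z ∈ t := hst rfl
  obtain ⟨D0, hD0⟩ := DER_.exists_der F t ht.1 z hzt
  have := DER_.etale F t ht
  let L : Ω[(Algebra.adjoin F t)⁄F] →ₗ[Algebra.adjoin F t] ℂ := D0.liftKaehlerDifferential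
  let M : ℂ ⊗[Algebra.adjoin F t] Ω[(Algebra.adjoin F t)⁄F] →ₗ[ℂ] ℂ := L.liftBaseChange ℂ
  let N : Ω[ℂ⁄F] →ₗ[ℂ] ℂ :=
    M ∘ₗ (KaehlerDifferential.tensorKaehlerEquivOfFormallyEtale F (Algebra.adjoin F t) ℂ).symm.toLinearMap
  let D1 : Derivation F ℂ ℂ := N.compDer (KaehlerDifferential.D F ℂ)
  have h1 : D1 z = 1 := by
    show M ((KaehlerDifferential.tensorKaehlerEquivOfFormallyEtale F (Algebra.adjoin F t) ℂ).symm
      (KaehlerDifferential.D F ℂ z)) = 1
    have h2 := KaehlerDifferential.tensorKaehlerEquivOfFormallyEtale_symm_D_algebraMap F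
      (Algebra.adjoin F t) ℂ ⟨z, Algebra.subset_adjoin hzt⟩
    have h3 : algebraMap (Algebra.adjoin F t) ℂ ⟨z, Algebra.subset_adjoin hzt⟩ = z := rfl
    rw [h3] at h2
    rw [h2, LinearMap.liftBaseChange_tmul, one_smul]
    exact (D0.liftKaehlerDifferential_comp_D _).trans hD0
  refine ⟨D1.restrictScalars ℤ, ?_, h1⟩
  intro w hw
  show D1 w = 0
  have := D1.map_algebraMap ⟨w, hw⟩
  exact this

end

end EVR
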