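import Pool.Agent.EVR.Api

/-!
# Squad EVR: minimality after substitution of the test polynomial
-/

set_option autoImplicit false

namespace EVR

open Polynomial

namespace DVN_

/-- extraction of powers -/
theorem pow_dvd {k : Subfield ℂ} {f : ℂ[X]} {c : ℂ} {π : Polynomial (Polynomial k)}
    (hP : ∀ G, (bev k f G).eval c = 0 → π ∣ G) {u : ℂ[X]}
    (hu : bev k f π = (X - C c) * u) (hu' : ¬ (X - C c) ∣ u) :
    ∀ (n : ℕ) (G : Polynomial (Polynomial k)), (X - C c) ^ n ∣ bev k f G → π ^ n ∣ G := by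
  intro n
  induction n with
  | zero => intro G _; rw [pow_zero]; exact one_dvd _
  | succ n ih =>
    intro G hG
    have h0 : (bev k f G).eval c = 0 := by
      have h1 : (X - C c) ∣ bev k f G := (dvd_pow_self _ (Nat.succ_ne_zero n)).trans hG
      exact dvd_iff_isRoot.1 h1
    obtain ⟨G', rfl⟩ := hP G h0
    rw [map_mul, hu, mul_assoc, pow_succ', mul_dvd_mul_iff_left (X_sub_C_ne_zero c)] at hG
    have h2 := (prime_X_sub_C c).pow_dvd_of_dvd_mul_left n hu' hG
    rw [pow_succ']
    exact mul_dvd_mul_left _ (ih G' h2)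

/-- the case `c ∈ k` -/
theorem case1 {k : Subfield ℂ} {f : ℂ[X]} {c : ℂ} (hc : c ∈ k)
    (hf : ¬ IsAlgebraic k (f.eval c)) : ∀ G : Polynomial (Polynomial k),
    (bev k f G).eval c = 0 → (C (X - C (⟨c, hc⟩ : k)) : Polynomial (Polynomial k)) ∣ G := by
  intro G hG
  rw [C_dvd_iff_dvd_coeff]
  intro i
  rw [dvd_iff_isRoot, IsRoot.def]
  set H : Polynomial k := G.map (evalRingHom (⟨c, hc⟩ : k)) with hH
  have h1 : aeval (f.eval c) H = 0 := by
    rw [aeval_def, hH, eval₂_map, ← hG, bev_eq_sum, eval_finsetSum, eval₂_eq_sum_range]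
    refine Finset.sum_congr rfl fun j _ => ?_
    rw [eval_mul, eval_pow]
    congr 1
    show ((eval (⟨c, hc⟩ : k) (G.coeff j) : k) : ℂ) = _
    have := Polynomial.hom_eval₂ (G.coeff j) (RingHom.id k) k.subtype (⟨c, hc⟩ : k)
    rw [eval_map]
    simpa [eval₂_id] using this
  have h2 : H = 0 := by
    by_contra h3
    exact hf ⟨H, h3, h1⟩
  have h3 := congrArg (fun p => p.coeff i) h2
  simp only [hH, coeff_map, coe_evalRingHom, coeff_zero] at h3
  exact h3

/-- an irreducible element of the kernel -/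
theorem exists_irr {k : Subfield ℂ} {f : ℂ[X]} {c : ℂ} {G : Polynomial (Polynomial k)}
    (hG : G ≠ 0) (h : (bev k f G).eval c = 0) :
    ∃ π : Polynomial (Polynomial k), Prime π ∧ (bev k f π).eval c = 0 := by
  obtain ⟨s, hs, hsG⟩ := UniqueFactorizationMonoid.exists_prime_factors G hG
  obtain ⟨u, hu⟩ := hsG
  have h1 : ((evalRingHom c).comp (bev k f)) s.prod = 0 := by
    have h2 : ((evalRingHom c).comp (bev k f)) G = 0 := h
    rw [← hu, map_mul] at h2
    rcases mul_eq_zero.1 h2 with h3 | h3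
    · exact h3
    · have h4 : IsUnit (((evalRingHom c).comp (bev k f)) (u : Polynomial (Polynomial k))) :=
        u.isUnit.map _
      rw [h3] at h4
      exact absurd h4 not_isUnit_zero
  rw [map_multiset_prod, Multiset.prod_eq_zero_iff, Multiset.mem_map] at h1
  obtain ⟨π, hπ, h2⟩ := h1
  exact ⟨π, hs π hπ, h2⟩

/-- the case `c ∉ k`: the kernel is generated by the irreducible element -/
theorem case2 {k : Subfield ℂ} {f : ℂ[X]} {c : ℂ} (hc : ¬ IsAlgebraic k c)
    {π : Polynomial (Polynomial k)} (hπ : Prime π) (h : (bev k f π).eval c = 0) :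
    π.natDegree ≠ 0 ∧ ∀ G : Polynomial (Polynomial k), (bev k f G).eval c = 0 → π ∣ G := by
  have hS : ∀ p : Polynomial k, (bev k f (C p)).eval c = 0 → p = 0 := by
    intro p hp
    by_contra h0
    apply hc
    refine ⟨p, h0, ?_⟩
    rw [bev_C, eval_map] at hp
    exact hp
  have hdeg : π.natDegree ≠ 0 := by
    intro h0
    rw [eq_C_of_natDegree_eq_zero h0] at h
    have h1 := hS _ h
    apply hπ.ne_zero
    rw [eq_C_of_natDegree_eq_zero h0, h1, C_0]
  refine ⟨hdeg, ?_⟩
  intro G hG
  set L := FractionRing (Polynomial k) with hL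
  have hprim : π.IsPrimitive := hπ.irreducible.isPrimitive hdeg
  have hirr : Irreducible (π.map (algebraMap (Polynomial k) L)) :=
    (hprim.irreducible_iff_irreducible_map_fraction_map (K := L)).1 hπ.irreducible
  by_cases hd : π.map (algebraMap (Polynomial k) L) ∣ G.map (algebraMap (Polynomial k) L)
  · obtain ⟨Q, hQ⟩ := hd
    obtain ⟨b, hbM, hb⟩ := IsLocalization.integerNormalization_spec (nonZeroDivisors (Polynomial k)) Q
    have hb0 : b ≠ 0 := nonZeroDivisors.ne_zero hbM
    have h1 : C b * G = π * IsLocalization.integerNormalization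
        (nonZeroDivisors (Polynomial k)) Q := by
      apply Polynomial.map_injective (algebraMap (Polynomial k) L) (IsFractionRing.injective _ _)
      rw [Polynomial.map_mul, Polynomial.map_mul, hb, hQ, Polynomial.map_C, Algebra.smul_def,
        Polynomial.algebraMap_apply]
      ring
    have h2 : π ∣ C b * G := ⟨_, h1⟩
    rcases hπ.dvd_or_dvd h2 with h3 | h3
    · exfalso
      have h4 := natDegree_le_of_dvd h3 (by rw [Ne, C_eq_zero]; exact hb0)
      rw [natDegree_C] at h4
      omega
    · exact h3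
  · exfalso
    have hcop : IsCoprime (π.map (algebraMap (Polynomial k) L))
        (G.map (algebraMap (Polynomial k) L)) := (hirr.coprime_iff_not_dvd).2 hd
    obtain ⟨U, V, hUV⟩ := hcop
    obtain ⟨b, hbM, hb⟩ := IsLocalization.integerNormalization_spec (nonZeroDivisors (Polynomial k)) U
    obtain ⟨e, heM, he⟩ := IsLocalization.integerNormalization_spec (nonZeroDivisors (Polynomial k)) V
    have hb0 : b ≠ 0 := nonZeroDivisors.ne_zero hbM
    have he0 : e ≠ 0 := nonZeroDivisors.ne_zero heM
    have h1 : C b * C e =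
        C e * IsLocalization.integerNormalization
          (nonZeroDivisors (Polynomial k)) U * π +
        C b * IsLocalization.integerNormalization
          (nonZeroDivisors (Polynomial k)) V * G := by
      apply Polynomial.map_injective (algebraMap (Polynomial k) L) (IsFractionRing.injective _ _)
      simp only [Polynomial.map_mul, Polynomial.map_add, hb, he, Polynomial.map_C,
        Algebra.smul_def, Polynomial.algebraMap_apply]
      linear_combination (-(C (algebraMap (Polynomial k) L b) * C (algebraMap (Polynomial k) L e))) * hUV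
    have h2 : (bev k f (C (b * e))).eval c = 0 := by
      rw [C_mul, h1, map_add, map_mul, map_mul (bev k f) _ G, eval_add, eval_mul, eval_mul, h, hG]
      ring
    exact mul_ne_zero hb0 he0 (hS _ h2)

/-- `cd` satisfies the rule of Leibniz -/
theorem cd_mul (hEXT : Stmt_EXT) (D : Derivation ℤ ℂ ℂ) (p q : ℂ[X]) :
    cd D (p * q) = p * cd D q + q * cd D p := by
  obtain ⟨E, -, hE⟩ := hEXT.2 D
  apply RatFunc.algebraMap_injective ℂ
  show pz (cd D (p * q)) = pz _
  rw [← hE, map_mul, E.leibniz, hE, hE, map_add, map_mul, map_mul]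
  rfl

/-- the derivative with respect to `a_0` -/
theorem cd_tp (hEXT : Stmt_EXT) {M d : ℕ} (h : d < M) (a : Fin (d + 1) → ℂ)
    (D : Derivation ℤ ℂ ℂ) (h0 : D (a 0) = 1) (h1 : ∀ i, i ≠ 0 → D (a i) = 0) :
    cd D (tp M d a) = 1 := by
  ext n
  rw [hEXT.1, coeff_one]
  by_cases hn : n ≤ d
  · have h2 := tp_coeff h a ⟨n, by omega⟩
    simp only at h2
    rw [h2]
    by_cases h3 : n = 0
    · subst h3
      rw [if_pos rfl]
      exact h0
    · rw [if_neg h3]
      apply h1
      intro h4
      exact h3 (congrArg Fin.val h4)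
  · rw [if_neg (by omega)]
    have h2 : (tp M d a).coeff n = if n = M then 1 else 0 := by
      rw [tp, coeff_add, coeff_X_pow, coeff_eq_zero_of_natDegree_lt
        ((tp_natDegree_sum a).trans_lt (by omega)), add_zero]
    rw [h2]
    split_ifs
    · exact D.map_one_eq_zero
    · exact map_zero D

end DVN_

open DVN_ in
theorem dvn_proof (hDER : Stmt_DER) (hEXT : Stmt_EXT) (hCHR : Stmt_CHR) (hTPL : Stmt_TPL) :
    Stmt_DVN := by
  intro k M d a A B hk hdM ha hM hAB c ⟨h4, h6⟩
  obtain ⟨t1, t2, -⟩ := hTPL k M d a ha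
  have key : ∃ π : Polynomial (Polynomial k), Irreducible π ∧
      ∀ (n : ℕ) (G : Polynomial (Polynomial k)), (X - C c) ^ n ∣ bev k (tp M d a) G → π ^ n ∣ G := by
    by_cases hc : c ∈ k
    · refine ⟨C (X - C (⟨c, hc⟩ : k)), ?_, ?_⟩
      · exact (prime_C_iff.2 (prime_X_sub_C _)).irreducible
      · refine pow_dvd (u := 1) (case1 hc (t1 c hc)) ?_ ?_
        · rw [bev_C, Polynomial.map_sub, map_X, map_C, mul_one]
          rfl
        · intro h
          exact (prime_X_sub_C c).not_isUnit (isUnit_of_dvd_one h)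
    · have hc' : ¬ IsAlgebraic k c := fun h => hc (hk c h)
      have hAB' : ∃ G : Polynomial (Polynomial k), G ≠ 0 ∧ (bev k (tp M d a) G).eval c = 0 := by
        rcases hAB with h | h
        · exact ⟨A, h, dvd_iff_isRoot.1 ((dvd_pow_self _ (by norm_num)).trans h4)⟩
        · exact ⟨B, h, dvd_iff_isRoot.1 ((dvd_pow_self _ (by norm_num)).trans h6)⟩
      obtain ⟨G, hG, hG0⟩ := hAB'
      obtain ⟨π, hπ, hπ0⟩ := exists_irr hG hG0
      obtain ⟨hdeg, hker⟩ := case2 hc' hπ hπ0
      obtain ⟨u, hu⟩ := dvd_iff_isRoot.2 hπ0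
      refine ⟨π, hπ.irreducible, pow_dvd hker hu ?_⟩
      intro hdvd
      obtain ⟨D, hD, hD1⟩ := hDER (ad k (a '' {i | i ≠ 0})) (a 0) t2
      obtain ⟨E, hE, -⟩ := hEXT.2 D
      have hDk : ∀ z ∈ k, D z = 0 := fun z hz => hD z (le_ad k _ hz)
      have hDa : ∀ i, i ≠ 0 → D (a i) = 0 := fun i hi => hD _ (mem_ad k ⟨i, hi, rfl⟩)
      have h1 := (hCHR D E hE).2 k (tp M d a) π hDk
      rw [cd_tp hEXT hdM a D hD1 hDa, mul_one] at h1
      obtain ⟨v, hv⟩ := hdvd
      have h2 : (X - C c) ∣ cd D (bev k (tp M d a) π) := by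
        rw [hu, cd_mul hEXT, hv]
        exact dvd_add (dvd_mul_right _ _) ((dvd_mul_right _ _).mul_right _)
      rw [h1] at h2
      have h3 := hker _ (dvd_iff_isRoot.1 h2)
      have h5 : derivative π = 0 := by
        by_contra h7
        have h8 := natDegree_le_of_dvd h3 h7
        have h9 := natDegree_derivative_lt hdeg
        omega
      exact hdeg (derivative_eq_zero.1 h5)
  obtain ⟨π, hπ, h⟩ := key
  exact hM π hπ ⟨h 4 A h4, h 6 B h6⟩

end EVR
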