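import Mathlib

/-!
# Squad EVR (MP_3e5173_lc): existential formulas built from elliptic curves do not define the
valuation ring of `ℂ(Z)` at `Z = 0`.  Definitions.
-/

set_option autoImplicit false

namespace EVR

open Polynomial

noncomputable section

/-! ## The statement -/

/-- the field `ℂ(Z)` of rational functions -/
abbrev K : Type := RatFunc ℂ

/-- polynomials in `Z` as elements of `ℂ(Z)` -/
abbrev pz : ℂ[X] →+* K := algebraMap ℂ[X] K

/-- constants as elements of `ℂ(Z)` -/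
abbrev cst : ℂ →+* K := RatFunc.C

/-- the local ring of the rational functions which are regular at `Z = 0` -/
def O0 : Set K := {x | ∃ p q : ℂ[X], q.eval 0 ≠ 0 ∧ x * pz q = pz p}

/-- a family `y` of elements of `ℂ(Z)` together with one more element `t` -/
def ext {ι : Type} (y : ι → K) (t : K) : Option ι → K := fun o => o.elim t y

/-- quantifier-free conditions on families of elements of `ℂ(Z)`, with parameters from `ℂ(Z)` -/
inductive QF (ι : Type) : ((ι → K) → Prop) → Prop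
  | zero (P : MvPolynomial ι K) : QF ι (fun y => MvPolynomial.eval y P = 0)
  | neg {Φ : (ι → K) → Prop} (h : QF ι Φ) : QF ι (fun y => ¬ Φ y)
  | and {Φ Ψ : (ι → K) → Prop} (h : QF ι Φ) (h' : QF ι Ψ) : QF ι (fun y => Φ y ∧ Ψ y)

/-- existential conditions in which all quantified elements of `ℂ(Z)` are bounded by algebraic
equations, except that the innermost block of quantifiers is either one quantifier over `ℂ(Z)` or
finitely many quantifiers over the field `ℂ` of constants -/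
inductive Bdd : (ι : Type) → ((ι → K) → Prop) → Prop
  | free {ι : Type} {Φ : (Option ι → K) → Prop} (h : QF (Option ι) Φ) :
      Bdd ι (fun y => ∃ t : K, Φ (ext y t))
  | const {ι : Type} (s : ℕ) {Φ : (ι ⊕ Fin s → K) → Prop} (h : QF (ι ⊕ Fin s) Φ) :
      Bdd ι (fun y => ∃ c : Fin s → ℂ, Φ (Sum.elim y fun j => cst (c j)))
  | alg {ι : Type} (G : Polynomial (MvPolynomial ι K)) {Φ : (Option ι → K) → Prop}
      (h : Bdd (Option ι) Φ) :
      Bdd ι (fun y => ∃ w : K, G.map (MvPolynomial.eval y) ≠ 0 ∧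
        (G.map (MvPolynomial.eval y)).eval w = 0 ∧ Φ (ext y w))
  | and {ι : Type} {Φ Ψ : (ι → K) → Prop} (h : Bdd ι Φ) (h' : Bdd ι Ψ) :
      Bdd ι (fun y => Φ y ∧ Ψ y)
  | or {ι : Type} {Φ Ψ : (ι → K) → Prop} (h : Bdd ι Φ) (h' : Bdd ι Ψ) :
      Bdd ι (fun y => Φ y ∨ Ψ y)

/-- `v² = u³ + A u + B` is an elliptic curve over `ℂ(Z)(x)` which is not isomorphic (over this
field) to an elliptic curve defined over `ℂ` -/
structure Nonconst (A B : K[X]) : Prop where
  disc : 4 * A ^ 3 + 27 * B ^ 2 ≠ 0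
  nc : ∀ (l m : K[X]) (α β : ℂ), l ≠ 0 → m ≠ 0 →
    ¬ (A * m ^ 4 = C (cst α) * l ^ 4 ∧ B * m ^ 6 = C (cst β) * l ^ 6)

/-- the sets defined by existential conditions on points of families of elliptic curves:
`x ∈ D` if and only if there are points `(u_i, v_i)` with coordinates in `ℂ(Z)` on the curves
`v² = u³ + A_i(x) u + B_i(x)` such that `x` and all `u_i`, `v_i` satisfy the condition `Φ` -/
def Ell (D : Set K) : Prop :=
  ∃ (n : ℕ) (A B : Fin n → K[X]) (Φ : (Option (Fin n ⊕ Fin n) → K) → Prop),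
    (∀ i, Nonconst (A i) (B i)) ∧ Bdd (Option (Fin n ⊕ Fin n)) Φ ∧
    ∀ x : K, x ∈ D ↔ ∃ u v : Fin n → K,
      (∀ i, v i ^ 2 = u i ^ 3 + (A i).eval x * u i + (B i).eval x) ∧
      Φ (ext (Sum.elim u v) x)

/-! ## Auxiliary definitions -/

/-- quantifier-free conditions with parameters from `F` -/
inductive QFO (F : Subfield K) (ι : Type) : ((ι → K) → Prop) → Prop
  | zero (P : MvPolynomial ι K) (hP : ∀ m, P.coeff m ∈ F) :
      QFO F ι (fun y => MvPolynomial.eval y P = 0)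
  | neg {Φ : (ι → K) → Prop} (h : QFO F ι Φ) : QFO F ι (fun y => ¬ Φ y)
  | and {Φ Ψ : (ι → K) → Prop} (h : QFO F ι Φ) (h' : QFO F ι Ψ) :
      QFO F ι (fun y => Φ y ∧ Ψ y)

/-- the conditions `Bdd` with parameters from `F` and at most `N` quantifiers over `ℂ` in a block -/
inductive BddO (F : Subfield K) (N : ℕ) : (ι : Type) → ((ι → K) → Prop) → Prop
  | free {ι : Type} {Φ : (Option ι → K) → Prop} (h : QFO F (Option ι) Φ) :
      BddO F N ι (fun y => ∃ t : K, Φ (ext y t))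
  | const {ι : Type} (s : ℕ) (hs : s ≤ N) {Φ : (ι ⊕ Fin s → K) → Prop}
      (h : QFO F (ι ⊕ Fin s) Φ) :
      BddO F N ι (fun y => ∃ c : Fin s → ℂ, Φ (Sum.elim y fun j => cst (c j)))
  | alg {ι : Type} (G : Polynomial (MvPolynomial ι K)) (hG : ∀ i m, (G.coeff i).coeff m ∈ F)
      {Φ : (Option ι → K) → Prop} (h : BddO F N (Option ι) Φ) :
      BddO F N ι (fun y => ∃ w : K, G.map (MvPolynomial.eval y) ≠ 0 ∧
        (G.map (MvPolynomial.eval y)).eval w = 0 ∧ Φ (ext y w))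
  | and {ι : Type} {Φ Ψ : (ι → K) → Prop} (h : BddO F N ι Φ) (h' : BddO F N ι Ψ) :
      BddO F N ι (fun y => Φ y ∧ Ψ y)
  | or {ι : Type} {Φ Ψ : (ι → K) → Prop} (h : BddO F N ι Φ) (h' : BddO F N ι Ψ) :
      BddO F N ι (fun y => Φ y ∨ Ψ y)

/-- `k(S)` inside `ℂ` -/
def ad (k : Subfield ℂ) (S : Set ℂ) : Subfield ℂ := Subfield.closure ((k : Set ℂ) ∪ S)

/-- `k` is algebraically closed (in `ℂ`) -/
def Clo (k : Subfield ℂ) : Prop := ∀ z : ℂ, IsAlgebraic k z → z ∈ k

/-- `k(Z)` inside `ℂ(Z)` -/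
def kZ (k : Subfield ℂ) : Subfield K :=
  Subfield.closure ((cst '' (k : Set ℂ)) ∪ {(RatFunc.X : K)})

/-- `k(Z)(f)` inside `ℂ(Z)` -/
def fld (k : Subfield ℂ) (f : ℂ[X]) : Subfield K :=
  Subfield.closure ((kZ k : Set K) ∪ {pz f})

/-- `g` is transcendental over `F` -/
def Tr (F : Subfield K) (g : K) : Prop :=
  ∀ P : K[X], (∀ n, P.coeff n ∈ F) → P.eval g = 0 → P = 0

/-- the coefficients of `P` belong to `F` -/
def Co (F : Subfield K) (P : K[X]) : Prop := ∀ n, P.coeff n ∈ F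

/-- the test polynomial `Z^M + a_0 + a_1 Z + … + a_d Z^d` -/
def tp (M d : ℕ) (a : Fin (d + 1) → ℂ) : ℂ[X] := X ^ M + ∑ i, C (a i) * X ^ (i : ℕ)

/-- `A(Z, x) ↦ A(Z, f)` for `A ∈ k[Z][x]` -/
def bev (k : Subfield ℂ) (f : ℂ[X]) : (Polynomial (Polynomial k)) →+* ℂ[X] :=
  Polynomial.eval₂RingHom (Polynomial.mapRingHom k.subtype) f

/-- no irreducible `p` has `p⁴ ∣ A` and `p⁶ ∣ B` -/
def Mnl {R : Type} [CommRing R] (A B : R) : Prop := ∀ p : R, Irreducible p → ¬ (p ^ 4 ∣ A ∧ p ^ 6 ∣ B)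

/-- `D` applied to the coefficients -/
def cd (D : Derivation ℤ ℂ ℂ) (p : ℂ[X]) : ℂ[X] := p.sum fun n c => monomial n (D c)

/-- `E` is the extension of `D` to `ℂ(Z)` with `E Z = 0` -/
structure IsExt (D : Derivation ℤ ℂ ℂ) (E : Derivation ℤ K K) : Prop where
  X : E (RatFunc.X : K) = 0
  C : ∀ c : ℂ, E (cst c) = cst (D c)

/-- order of vanishing at `c` (for `y ≠ 0`) -/
def ord (c : ℂ) (y : K) : ℤ := (y.num.rootMultiplicity c : ℤ) - (y.denom.rootMultiplicity c : ℤ)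

/-- `y` is regular at `c` -/
def Rg (c : ℂ) (y : K) : Prop := y.denom.eval c ≠ 0

/-- the value of `y` at `c` -/
def vl (c : ℂ) (y : K) : ℂ := y.eval (RingHom.id ℂ) c

/-- for all but finitely many `c ∈ k` the value `y(c)` is algebraic over `k(f(c))` -/
def PP (k : Subfield ℂ) (f : ℂ[X]) (y : K) : Prop :=
  {c : ℂ | c ∈ k ∧ ¬ (Rg c y ∧ IsAlgebraic (ad k {f.eval c}) (vl c y))}.Finite

end

end EVR
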