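import Pool.Agent.EVR.Api

/-!
Module EVD: values of derivatives.
-/

set_option autoImplicit false

namespace EVR

open Polynomial

namespace EVD_

theorem eval_cd (D : Derivation ℤ ℂ ℂ) (c : ℂ) (hc : D c = 0) (p : ℂ[X]) :
    (cd D p).eval c = D (p.eval c) := by
  have hpow : ∀ n : ℕ, D (c ^ n) = 0 := fun n => by
    rw [Derivation.leibniz_pow, hc]; simp
  rw [cd, Polynomial.sum_def, eval_finsetSum, eval_eq_sum, Polynomial.sum_def, map_sum]
  refine Finset.sum_congr rfl fun n _ => ?_
  rw [eval_monomial, Derivation.leibniz, hpow]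
  simp [mul_comm]

end EVD_

open EVD_ in
theorem evd_proof (_hEXT : Stmt_EXT) (hCHR : Stmt_CHR) : Stmt_EVD := by
  intro D E c y hE hc hy
  obtain ⟨hp, -⟩ := hCHR D E hE
  have hm := mul_denom y
  set p := y.num with hpdef
  set q := y.denom with hqdef
  have hq : q.eval c ≠ 0 := hy
  have h1 := congrArg E hm
  rw [Derivation.leibniz, hp, hp, smul_eq_mul, smul_eq_mul] at h1
  have h2 : E y * pz (q ^ 2) = pz (cd D p * q - p * cd D q) := by
    rw [map_pow, map_sub, map_mul, map_mul, ← hm]
    linear_combination pz q * h1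
  have h3 := rg_vl_of_eq (c := c) (y := E y) (q := q ^ 2) (p := cd D p * q - p * cd D q)
    (by rw [eval_pow]; exact pow_ne_zero 2 hq) h2
  refine ⟨h3.1, ?_⟩
  rw [h3.2, vl_def, ← hpdef, ← hqdef, Derivation.leibniz_div, eval_sub, eval_mul, eval_mul,
    eval_pow, eval_cd D c hc, eval_cd D c hc]
  simp only [smul_eq_mul]
  field_simp

end EVR
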