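import Pool.Agent.EVR.Api

/-!
# Squad EVR, module EXT: extension of derivations to `ℂ(Z)`
-/

set_option autoImplicit false

namespace EVR

open Polynomial

namespace EXT_

theorem coeff_cd (D : Derivation ℤ ℂ ℂ) (p : ℂ[X]) (n : ℕ) : (cd D p).coeff n = D (p.coeff n) := by
  unfold cd
  rw [Polynomial.sum_def, Polynomial.finsetSum_coeff]
  simp only [Polynomial.coeff_monomial]
  rw [Finset.sum_ite_eq']
  by_cases h : n ∈ p.support
  · rw [if_pos h]
  · rw [if_neg h]
    have : p.coeff n = 0 := by simpa using h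
    rw [this, map_zero]

theorem cd_add (D : Derivation ℤ ℂ ℂ) (p q : ℂ[X]) : cd D (p + q) = cd D p + cd D q := by
  ext n
  rw [coeff_add, coeff_cd, coeff_cd, coeff_cd, coeff_add, map_add]

theorem cd_mul (D : Derivation ℤ ℂ ℂ) (p q : ℂ[X]) : cd D (p * q) = cd D p * q + p * cd D q := by
  ext n
  rw [coeff_add, coeff_cd, coeff_mul, coeff_mul, coeff_mul, map_sum, ← Finset.sum_add_distrib]
  refine Finset.sum_congr rfl fun x _ => ?_
  rw [coeff_cd, coeff_cd, Derivation.leibniz, smul_eq_mul, smul_eq_mul]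
  ring

theorem cd_one (D : Derivation ℤ ℂ ℂ) : cd D 1 = 0 := by
  ext n
  rw [coeff_cd, coeff_one, coeff_zero]
  split_ifs
  · exact D.map_one_eq_zero
  · exact map_zero D

theorem cd_X (D : Derivation ℤ ℂ ℂ) : cd D X = 0 := by
  ext n
  rw [coeff_cd, coeff_X, coeff_zero]
  split_ifs
  · exact D.map_one_eq_zero
  · exact map_zero D

theorem cd_C (D : Derivation ℤ ℂ ℂ) (c : ℂ) : cd D (C c) = C (D c) := by
  ext n
  rw [coeff_cd, coeff_C, coeff_C]
  split_ifs
  · rfl
  · exact map_zero D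

/-- quotient rule -/
noncomputable def F (D : Derivation ℤ ℂ ℂ) (p q : ℂ[X]) : K :=
  (pz (cd D p) * pz q - pz p * pz (cd D q)) / (pz q) ^ 2

theorem pz_ne {q : ℂ[X]} (hq : q ≠ 0) : pz q ≠ 0 := by
  intro h
  exact hq ((map_eq_zero_iff pz (RatFunc.algebraMap_injective ℂ)).1 h)

theorem F_congr (D : Derivation ℤ ℂ ℂ) {p q p' q' : ℂ[X]} (hq : q ≠ 0) (hq' : q' ≠ 0)
    (h : pz p / pz q = pz p' / pz q') : F D p q = F D p' q' := by
  have h1 := pz_ne hq
  have h2 := pz_ne hq'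
  have h3 : pz p * pz q' = pz p' * pz q := by
    rw [div_eq_div_iff h1 h2] at h
    exact h
  have h4 : p * q' = p' * q := by
    apply RatFunc.algebraMap_injective ℂ
    rw [map_mul, map_mul]
    exact h3
  have h5 := congrArg (fun r => pz (cd D r)) h4
  simp only [cd_mul, map_add, map_mul] at h5
  unfold F
  rw [div_eq_div_iff (pow_ne_zero 2 h1) (pow_ne_zero 2 h2)]
  linear_combination (pz q * pz q') * h5 + (- pz (cd D q) * pz q' - pz q * pz (cd D q')) * h3

/-- the extension -/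
noncomputable def E (D : Derivation ℤ ℂ ℂ) (y : K) : K := F D y.num y.denom

theorem E_eq (D : Derivation ℤ ℂ ℂ) (y : K) (p q : ℂ[X]) (hq : q ≠ 0) (h : y = pz p / pz q) :
    E D y = F D p q := by
  unfold E
  refine F_congr D (RatFunc.denom_ne_zero y) hq ?_
  rw [← h]
  exact RatFunc.num_div_denom y

theorem rep (y : K) : ∃ p q : ℂ[X], q ≠ 0 ∧ y = pz p / pz q :=
  ⟨y.num, y.denom, RatFunc.denom_ne_zero y, (RatFunc.num_div_denom y).symm⟩

theorem E_add (D : Derivation ℤ ℂ ℂ) (x y : K) : E D (x + y) = E D x + E D y := by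
  obtain ⟨p, q, hq, hx⟩ := rep x
  obtain ⟨r, s, hs, hy⟩ := rep y
  have h1 := pz_ne hq
  have h2 := pz_ne hs
  rw [E_eq D x p q hq hx, E_eq D y r s hs hy,
    E_eq D (x + y) (p * s + r * q) (q * s) (mul_ne_zero hq hs) (by
      rw [hx, hy, map_add, map_mul, map_mul, map_mul]
      field_simp)]
  unfold F
  simp only [cd_add, cd_mul, map_add, map_mul]
  field_simp
  ring

theorem E_mul (D : Derivation ℤ ℂ ℂ) (x y : K) : E D (x * y) = x • E D y + y • E D x := by
  obtain ⟨p, q, hq, hx⟩ := rep x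
  obtain ⟨r, s, hs, hy⟩ := rep y
  have h1 := pz_ne hq
  have h2 := pz_ne hs
  rw [E_eq D x p q hq hx, E_eq D y r s hs hy,
    E_eq D (x * y) (p * r) (q * s) (mul_ne_zero hq hs) (by
      rw [hx, hy, map_mul, map_mul]
      field_simp), hx, hy, smul_eq_mul, smul_eq_mul]
  unfold F
  simp only [cd_mul, map_add, map_mul]
  field_simp
  ring

/-- the derivation -/
noncomputable def Ed (D : Derivation ℤ ℂ ℂ) : Derivation ℤ K K := by
  refine Derivation.mk' (@LinearMap.mk ℤ ℤ _ _ (RingHom.id ℤ) K K _ _ Algebra.toModule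
    (AddCommGroup.toIntModule K) (@AddHom.mk K K _ _ (E D) (E_add D)) (fun n y => ?_)) ?_
  · have h := map_zsmul (AddMonoidHom.mk' (E D) (E_add D)) n y
    rw [zsmul_eq_mul, zsmul_eq_mul] at h
    have e : (@HSMul.hSMul ℤ K K (@instHSMul ℤ K Algebra.toSMul) n y : K) = (n : K) * y := by
      rw [Algebra.smul_def]
      simp
    change E D (@HSMul.hSMul ℤ K K (@instHSMul ℤ K Algebra.toSMul) n y) = n • E D y
    rw [e, zsmul_eq_mul]
    exact h
  · exact fun a b => E_mul D a b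

theorem Ed_apply (D : Derivation ℤ ℂ ℂ) (y : K) : Ed D y = E D y := rfl

theorem Ed_pz (D : Derivation ℤ ℂ ℂ) (p : ℂ[X]) : Ed D (pz p) = pz (cd D p) := by
  rw [Ed_apply, E_eq D (pz p) p 1 one_ne_zero (by rw [map_one, div_one])]
  unfold F
  rw [cd_one]
  simp

end EXT_

open EXT_ in
theorem ext_proof : Stmt_EXT := by
  refine ⟨coeff_cd, fun D => ⟨Ed D, ⟨?_, ?_⟩, Ed_pz D⟩⟩
  · have h : (RatFunc.X : K) = pz X := (RatFunc.algebraMap_X).symm
    rw [h, Ed_pz, cd_X, map_zero]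
  · intro c
    have h : ∀ c : ℂ, cst c = pz (C c) := fun c => (RatFunc.algebraMap_C c).symm
    rw [h, Ed_pz, cd_C, ← h]

end EVR
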