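import Pool.Agent.EVR.Api

/-!
# Squad EVR (MP_3e5173_lc): module FIN
-/

set_option autoImplicit false

namespace EVR

open Polynomial

namespace FIN_

theorem X_ne : (RatFunc.X : K) ≠ 0 := by
  rw [← pz_X, pz_ne_zero]
  exact X_ne_zero

/-- the complement of `{x | x / X ∈ D}` is finite iff the complement of `D` is -/
theorem compl_finite_iff (D : Set K) : {x : K | x / RatFunc.X ∈ D}ᶜ.Finite ↔ Dᶜ.Finite := by
  have h1 : {x : K | x / RatFunc.X ∈ D}ᶜ = (fun x : K => x * RatFunc.X) '' Dᶜ := by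
    ext x
    constructor
    · intro hx
      refine ⟨x / RatFunc.X, hx, ?_⟩
      show x / RatFunc.X * RatFunc.X = x
      exact div_mul_cancel₀ x X_ne
    · rintro ⟨y, hy, rfl⟩
      intro h
      apply hy
      have h2 : y * RatFunc.X / RatFunc.X ∈ D := h
      rwa [mul_div_cancel_right₀ y X_ne] at h2
  rw [h1]
  exact Set.finite_image_iff (Function.Injective.injOn fun x y h => mul_right_cancel₀ X_ne h)

theorem not_mem_of_tr {F : Subfield K} {g : K} (h : Tr F g) : g ∉ F := by
  intro hg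
  exact tr_iff.1 h (isAlgebraic_of_mem' hg)

theorem tp_eval_zero {M d : ℕ} (hM : 0 < M) (a : Fin (d + 1) → ℂ) :
    (tp M d a).eval 0 = a 0 := by
  unfold tp
  rw [eval_add, eval_pow, eval_X, zero_pow hM.ne', zero_add, eval_finsetSum]
  rw [Finset.sum_eq_single 0]
  · simp
  · intro i _ hi
    rw [eval_mul, eval_pow, eval_X, zero_pow, mul_zero]
    intro h
    apply hi
    exact Fin.ext h
  · intro h
    exact absurd (Finset.mem_univ _) h

theorem div_not_mem_O0 {f : ℂ[X]} (hf : f.eval 0 ≠ 0) : pz f / RatFunc.X ∉ O0 := by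
  rintro ⟨p, q, hq, h⟩
  have h1 : pz (f * q) = pz (X * p) := by
    rw [map_mul, map_mul, pz_X, ← h]
    field_simp [X_ne]
  rw [pz_inj] at h1
  have h2 := congrArg (fun g : ℂ[X] => g.eval 0) h1
  simp only [eval_mul, eval_X, zero_mul] at h2
  rcases mul_eq_zero.1 h2 with h3 | h3
  · exact hf h3
  · exact hq h3

end FIN_

open FIN_

theorem fin_proof (hMAI : Stmt_MAI) (hFLD : Stmt_FLD) (hSUB : Stmt_SUB) (hCOL : Stmt_COL)
    (hTRC : Stmt_TRC) : Stmt_FIN := by
  classical
  refine ⟨?_, ?_⟩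
  · intro D hD hp
    obtain ⟨S, hS⟩ := hMAI D hD
    obtain ⟨k, hk, hku, hSk, ha⟩ := hFLD S
    obtain ⟨N, hN⟩ := hS k hk hku hSk
    obtain ⟨a, ha⟩ := ha (N + 1)
    exact hN (N + 6 * N + 1) N a le_rfl (by omega) ha (hp _)
  · intro r D b hD hO
    have hE : ∀ i, Ell {x : K | x / RatFunc.X ∈ D i} := fun i => hSUB _ (hD i)
    choose S hS using fun i => hMAI (D i) (hD i)
    choose T hT using fun i => hMAI _ (hE i)
    -- the finite complements
    have hU : ∀ i, ∃ U : Finset K, (Dᶜ) i = (U : Set K) ∨ ¬ (D i)ᶜ.Finite := by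
      intro i
      by_cases h : (D i)ᶜ.Finite
      · exact ⟨h.toFinset, Or.inl (by rw [Set.Finite.coe_toFinset]; rfl)⟩
      · exact ⟨∅, Or.inr h⟩
    have hV : ∀ i, ∃ V : Finset K, {x : K | x / RatFunc.X ∈ D i}ᶜ = (V : Set K) ∨
        ¬ ({x : K | x / RatFunc.X ∈ D i}ᶜ).Finite := by
      intro i
      by_cases h : ({x : K | x / RatFunc.X ∈ D i}ᶜ).Finite
      · exact ⟨h.toFinset, Or.inl (by rw [Set.Finite.coe_toFinset])⟩
      · exact ⟨∅, Or.inr h⟩
    choose U hU using hU
    choose V hV using hV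
    obtain ⟨S', hS'⟩ := hCOL.2 (Finset.univ.biUnion U ∪ Finset.univ.biUnion V)
    obtain ⟨k, hk, hku, hSk, ha⟩ :=
      hFLD (Finset.univ.biUnion S ∪ Finset.univ.biUnion T ∪ S')
    have hSi : ∀ i, ((S i : Finset ℂ) : Set ℂ) ⊆ k := by
      intro i x hx
      refine hSk ?_
      rw [Finset.mem_coe, Finset.mem_union, Finset.mem_union]
      exact Or.inl (Or.inl (Finset.mem_biUnion.2 ⟨i, Finset.mem_univ i, hx⟩))
    have hTi : ∀ i, ((T i : Finset ℂ) : Set ℂ) ⊆ k := by
      intro i x hx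
      refine hSk ?_
      rw [Finset.mem_coe, Finset.mem_union, Finset.mem_union]
      exact Or.inl (Or.inr (Finset.mem_biUnion.2 ⟨i, Finset.mem_univ i, hx⟩))
    have hS'k : ((S' : Finset ℂ) : Set ℂ) ⊆ k := by
      intro x hx
      refine hSk ?_
      rw [Finset.mem_coe, Finset.mem_union]
      exact Or.inr hx
    have hUV := hS' k hS'k
    choose N hN using fun i => hS i k hk hku (hSi i)
    choose N' hN' using fun i => hT i k hk hku (hTi i)
    set d : ℕ := Finset.univ.sup N + Finset.univ.sup N' with hd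
    have hNd : ∀ i, N i ≤ d := fun i =>
      (Finset.le_sup (f := N) (Finset.mem_univ i)).trans (Nat.le_add_right _ _)
    have hNd' : ∀ i, N' i ≤ d := fun i =>
      (Finset.le_sup (f := N') (Finset.mem_univ i)).trans (Nat.le_add_left _ _)
    obtain ⟨a, ha⟩ := ha (d + 1)
    set M : ℕ := d + 6 * d + 1 with hM
    obtain ⟨F, hF1, -, hF2⟩ := hTRC k M d 0 a (fun j => j.elim0) hk (by omega) ha (Nat.zero_le _)
    have hfF : pz (tp M d a) ∉ kZ k := fun h => not_mem_of_tr hF2 (hF1 h)
    -- membership in `D i`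
    have h1 : ∀ i, pz (tp M d a) ∈ D i ↔ (D i)ᶜ.Finite := by
      intro i
      refine ⟨fun h => hN i M d a (hNd i) (by have := hNd i; omega) ha h, fun h => ?_⟩
      by_contra hn
      rcases hU i with h2 | h2
      · apply hfF
        refine hUV ?_
        rw [Finset.mem_coe, Finset.mem_union]
        refine Or.inl (Finset.mem_biUnion.2 ⟨i, Finset.mem_univ i, ?_⟩)
        have h3 : pz (tp M d a) ∈ (Dᶜ) i := hn
        rw [h2] at h3
        exact h3
      · exact h2 h
    have h2 : ∀ i, pz (tp M d a) / RatFunc.X ∈ D i ↔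
        ({x : K | x / RatFunc.X ∈ D i}ᶜ).Finite := by
      intro i
      refine ⟨fun h => hN' i M d a (hNd' i) (by have := hNd' i; omega) ha h, fun h => ?_⟩
      by_contra hn
      rcases hV i with h2 | h2
      · apply hfF
        refine hUV ?_
        rw [Finset.mem_coe, Finset.mem_union]
        refine Or.inr (Finset.mem_biUnion.2 ⟨i, Finset.mem_univ i, ?_⟩)
        have h3 : pz (tp M d a) ∈ {x : K | x / RatFunc.X ∈ D i}ᶜ := hn
        rw [h2] at h3
        exact h3
      · exact h2 h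
    have h3 : (fun i => pz (tp M d a) ∈ D i) = fun i => pz (tp M d a) / RatFunc.X ∈ D i := by
      funext i
      exact propext ((h1 i).trans ((compl_finite_iff (D i)).symm.trans (h2 i).symm))
    have h4 : pz (tp M d a) ∈ O0 := ⟨tp M d a, 1, by simp, by simp⟩
    have h5 : pz (tp M d a) / RatFunc.X ∉ O0 := by
      refine div_not_mem_O0 ?_
      rw [tp_eval_zero (by omega)]
      exact ha.ne_zero 0
    rw [← hO] at h4 h5
    apply h5
    have h6 : b (fun i => pz (tp M d a) ∈ D i) := h4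
    rw [h3] at h6
    exact h6

end EVR
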