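import Pool.Agent.EVR.Api

set_option autoImplicit false

namespace EVR

open Polynomial Cardinal

namespace FLD_

theorem card_closure (S : Finset ℂ) : #(Subfield.closure (S : Set ℂ)) ≤ ℵ₀ := by
  refine (Subfield.cardinalMk_closure_le_max _).trans ?_
  rw [max_le_iff]
  exact ⟨(Cardinal.mk_le_aleph0_iff.2 S.finite_toSet.countable.to_subtype), le_rfl⟩

theorem unc {F0 : Subfield ℂ} (hF : #F0 ≤ ℵ₀) (B : Set ℂ)
    (hB : IsTranscendenceBasis F0 ((↑) : B → ℂ)) : ¬ B.Countable := by
  intro hc
  have h1 := IsAlgClosed.cardinal_le_max_transcendence_basis' (R := F0) (K' := ℂ)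
    ((↑) : B → ℂ) hB
  have h2 : #B ≤ ℵ₀ := Cardinal.mk_le_aleph0_iff.2 hc.to_subtype
  have h3 : #ℂ ≤ ℵ₀ := h1.trans (max_le (max_le hF h2) le_rfl)
  rw [Cardinal.mk_complex] at h3
  exact absurd Cardinal.aleph0_lt_continuum (not_lt.2 h3)

end FLD_

open FLD_ in
theorem fld_proof : Stmt_FLD := by
  intro S
  set F0 : Subfield ℂ := Subfield.closure (S : Set ℂ) with hF0
  have hF : #F0 ≤ ℵ₀ := card_closure S
  obtain ⟨B, hB⟩ := exists_isTranscendenceBasis F0 ℂ
  have hBu : ¬ B.Countable := unc hF B hB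
  have hBi : B.Infinite := fun h => hBu h.countable
  let e : ℕ ↪ B := hBi.natEmbedding B
  let s : Set B := (Set.range e)ᶜ
  have h1 : AlgebraicIndependent (Algebra.adjoin F0 (((↑) : B → ℂ) '' s))
      (fun i : ((Set.range e : Set B)) => ((i : B) : ℂ)) :=
    hB.1.adjoin_of_disjoint disjoint_compl_left
  have h2 : AlgebraicIndependent (IntermediateField.adjoin F0 (((↑) : B → ℂ) '' s))
      (fun i : ((Set.range e : Set B)) => ((i : B) : ℂ)) :=
    IntermediateField.algebraicIndependent_adjoin_iff.2 h1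
  have h3 := h2.algebraicClosure
  set L := IntermediateField.adjoin F0 (((↑) : B → ℂ) '' s) with hL
  refine ⟨(algebraicClosure L ℂ).toSubfield, ?_, ?_, ?_, ?_⟩
  · intro z hz
    show z ∈ algebraicClosure L ℂ
    rw [mem_algebraicClosure_iff]
    have hz' : IsAlgebraic (algebraicClosure L ℂ) z := hz
    exact hz'.restrictScalars L
  · intro hc
    apply hBu
    have h4 : ((↑) : B → ℂ) '' s ⊆ ((algebraicClosure L ℂ).toSubfield : Set ℂ) := by
      intro z hz
      show z ∈ algebraicClosure L ℂ
      have h5 : z ∈ L := IntermediateField.subset_adjoin F0 _ hz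
      exact (algebraicClosure L ℂ).algebraMap_mem ⟨z, h5⟩
    have h5 : (((↑) : B → ℂ) '' s).Countable := hc.mono h4
    have h6 : (((↑) : B → ℂ) '' (Set.range e)).Countable := (Set.countable_range e).image _
    have h7 : B ⊆ ((↑) : B → ℂ) '' s ∪ ((↑) : B → ℂ) '' (Set.range e) := by
      intro z hz
      rw [← Set.image_union, Set.compl_union_self, Set.image_univ, Subtype.range_coe]
      exact hz
    exact (h5.union h6).mono h7
  · intro z hz
    show z ∈ algebraicClosure L ℂ
    have h5 : z ∈ L := L.algebraMap_mem ⟨z, Subfield.subset_closure hz⟩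
    exact (algebraicClosure L ℂ).algebraMap_mem ⟨z, h5⟩
  · intro n
    refine ⟨fun i => (e i : ℂ), ?_⟩
    have h4 := h3.comp (fun i : Fin n => (⟨e i, Set.mem_range_self _⟩ : (Set.range e : Set B)))
      (by
        intro i j hij
        have h5 : e i = e j := congrArg Subtype.val hij
        exact Fin.ext (e.injective h5))
    exact h4

end EVR
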