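import Pool.Agent.EVR.Api

/-!
# Squad EVR, module GAL: the key theorem on values
-/

set_option autoImplicit false

namespace EVR

open Polynomial

namespace GAL_

theorem pigeon {k : Set ℂ} (hk : ¬ k.Countable) (R : ℂ → ℕ → Prop)
    (hR : {c | c ∈ k ∧ ¬ ∃ N, R c N}.Finite) : ∃ N, {c | c ∈ k ∧ R c N}.Infinite := by
  by_contra h
  push Not at h
  apply hk
  have h1 : k ⊆ {c | c ∈ k ∧ ¬ ∃ N, R c N} ∪ ⋃ N, {c | c ∈ k ∧ R c N} := by
    intro c hc
    by_cases h2 : ∃ N, R c N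
    · obtain ⟨N, hN⟩ := h2
      exact Or.inr (Set.mem_iUnion.2 ⟨N, hc, hN⟩)
    · exact Or.inl ⟨hc, h2⟩
  refine Set.Countable.mono h1 (hR.countable.union (Set.countable_iUnion fun N => ?_))
  have h3 := h N
  first
    | exact (Set.not_infinite.1 h3).countable
    | exact h3.countable

theorem co_sum {F : Subfield K} {n : ℕ} (b : Fin n → K) (hb : ∀ i, b i ∈ F) (m : ℕ) :
    (∑ i, C (b i) * X ^ (i : ℕ) : K[X]).coeff m ∈ F := by
  rw [finsetSum_coeff]
  refine Subfield.sum_mem _ fun i _ => ?_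
  rw [coeff_C_mul_X_pow]
  split_ifs
  · exact hb i
  · exact zero_mem F

theorem eq_zero_of_sum {n : ℕ} (b : Fin n → K)
    (h : (∑ i, C (b i) * X ^ (i : ℕ) : K[X]) = 0) (i : Fin n) : b i = 0 := by
  have h1 := congrArg (fun p => Polynomial.coeff p (i : ℕ)) h
  simp only [finsetSum_coeff, coeff_C_mul_X_pow, coeff_zero] at h1
  rw [Finset.sum_eq_single i] at h1
  · simpa using h1
  · intro j _ hj
    rw [if_neg]
    intro h2
    exact hj (Fin.ext h2.symm)
  · intro h2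
    exact absurd (Finset.mem_univ i) h2

theorem eval_sum' {n : ℕ} (b : Fin n → K) (g : K) :
    (∑ i, C (b i) * X ^ (i : ℕ) : K[X]).eval g = ∑ i, b i * g ^ (i : ℕ) := by
  rw [eval_finsetSum]
  simp only [eval_mul, eval_C, eval_pow, eval_X]

theorem mem_sum {F : Subfield K} {n : ℕ} (b : Fin n → K) (hb : ∀ i, b i ∈ F) {g : K}
    (hg : g ∈ F) : ∑ i, b i * g ^ (i : ℕ) ∈ F :=
  Subfield.sum_mem _ fun i _ => mul_mem (hb i) (pow_mem hg _)

theorem eval_fin {N : ℕ} {P : ℂ[X]} (hP : P.natDegree ≤ N) (s : ℂ) :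
    P.eval s = ∑ i : Fin (N + 1), P.coeff i * s ^ (i : ℕ) := by
  rw [eval_eq_sum_range' (Nat.lt_succ_of_le hP), Finset.sum_range]

end GAL_

open GAL_ in
theorem gal_proof (hLIN : Stmt_LIN) (hTRC : Stmt_TRC) (hGAO : Stmt_GAO) : Stmt_GAL := by
  intro k M d a y hk hkc hd hdM ha hy
  obtain ⟨f, hf⟩ : ∃ f, f = tp M d a := ⟨_, rfl⟩
  have hG := hGAO k M d a y hk hd hdM ha hy
  obtain ⟨F, hF1, -, hF2⟩ := hTRC k M d 0 a (fun i => i.elim0) hk hdM ha (Nat.zero_le _)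
  rw [← hf] at hG hF2 ⊢
  have hTr : ∀ P : K[X], (∀ n, P.coeff n ∈ kZ k) → P.eval (pz f) = 0 → P = 0 :=
    fun P hP h => hF2 P (fun n => hF1 (hP n)) h
  -- bounded degrees
  obtain ⟨N, hN⟩ := pigeon hkc (fun c N => Rg c y ∧ ∃ P Q : ℂ[X], (∀ n, P.coeff n ∈ k) ∧
    (∀ n, Q.coeff n ∈ k) ∧ P.natDegree ≤ N ∧ Q.natDegree ≤ N ∧ Q.eval (f.eval c) ≠ 0 ∧
    vl c y = P.eval (f.eval c) / Q.eval (f.eval c)) (by
      refine hG.subset ?_
      rintro c ⟨hc, h⟩
      refine ⟨hc, ?_⟩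
      rintro ⟨h1, h2⟩
      obtain ⟨P, Q, hP, hQ, hQ0, hv⟩ := exists_of_mem_ad h2
      exact h ⟨max P.natDegree Q.natDegree, h1, P, Q, hP, hQ, le_max_left _ _, le_max_right _ _,
        hQ0, hv⟩)
  obtain ⟨g, hg⟩ : ∃ g : Fin (N + 1 + (N + 1)) → K, g = Fin.append
    (fun j : Fin (N + 1) => pz (f ^ (j : ℕ))) (fun j : Fin (N + 1) => y * pz (f ^ (j : ℕ))) :=
    ⟨_, rfl⟩
  have hgl : ∀ j : Fin (N + 1), g (Fin.castAdd (N + 1) j) = pz (f ^ (j : ℕ)) := fun j => by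
    rw [hg, Fin.append_left]
  have hgr : ∀ j : Fin (N + 1), g (Fin.natAdd (N + 1) j) = y * pz (f ^ (j : ℕ)) := fun j => by
    rw [hg, Fin.append_right]
  obtain ⟨β, hβ1, hβ0, hβ⟩ := hLIN k (N + 1 + (N + 1)) g
    {c | c ∈ (k : Set ℂ) ∧ (Rg c y ∧ ∃ P Q : ℂ[X], (∀ n, P.coeff n ∈ k) ∧
    (∀ n, Q.coeff n ∈ k) ∧ P.natDegree ≤ N ∧ Q.natDegree ≤ N ∧ Q.eval (f.eval c) ≠ 0 ∧
    vl c y = P.eval (f.eval c) / Q.eval (f.eval c))} hN (fun c hc => hc.1) (by
      rintro c ⟨-, hr, P, Q, hP, hQ, hPN, hQN, hQ0, hv⟩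
      refine ⟨?_, ?_⟩
      · intro i
        refine Fin.addCases (fun j => ?_) (fun j => ?_) i
        · rw [hgl]
          exact rg_pz c _
        · rw [hgr]
          exact (rg_vl_mul hr (rg_pz c _)).1
      · refine ⟨Fin.append (fun j : Fin (N + 1) => P.coeff j)
          (fun j : Fin (N + 1) => -Q.coeff j), ?_, ?_, ?_⟩
        · intro i
          refine Fin.addCases (fun j => ?_) (fun j => ?_) i
          · rw [Fin.append_left]
            exact hP _
          · rw [Fin.append_right]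
            exact neg_mem (hQ _)
        · intro h0
          have hQ' : Q ≠ 0 := by
            rintro rfl
            simp at hQ0
          apply hQ'
          rw [← leadingCoeff_eq_zero, leadingCoeff]
          have h1 := congrFun h0 (Fin.natAdd (N + 1) ⟨Q.natDegree, Nat.lt_succ_of_le hQN⟩)
          rw [Fin.append_right] at h1
          simpa using h1
        · rw [Fin.sum_univ_add]
          simp only [Fin.append_left, Fin.append_right, hgl, hgr]
          have h1 : ∀ j : Fin (N + 1), vl c (pz (f ^ (j : ℕ))) = (f.eval c) ^ (j : ℕ) := fun j => by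
            rw [vl_pz, eval_pow]
          have h2 : ∀ j : Fin (N + 1), vl c (y * pz (f ^ (j : ℕ))) =
              vl c y * (f.eval c) ^ (j : ℕ) := fun j => by
            rw [(rg_vl_mul hr (rg_pz c _)).2, vl_pz, eval_pow]
          simp only [h1, h2]
          have h3 : ∑ j : Fin (N + 1), -Q.coeff j * (vl c y * (f.eval c) ^ (j : ℕ)) =
              -(vl c y * Q.eval (f.eval c)) := by
            rw [eval_fin hQN, Finset.mul_sum, ← Finset.sum_neg_distrib]
            refine Finset.sum_congr rfl fun j _ => ?_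
            ring
          rw [h3, ← eval_fin hPN, hv, div_mul_cancel₀ _ hQ0]
          ring)
  rw [Fin.sum_univ_add] at hβ
  simp only [hgl, hgr, map_pow] at hβ
  obtain ⟨b1, hb1⟩ : ∃ b1 : Fin (N + 1) → K, b1 = fun j => β (Fin.castAdd (N + 1) j) := ⟨_, rfl⟩
  obtain ⟨b2, hb2⟩ : ∃ b2 : Fin (N + 1) → K, b2 = fun j => β (Fin.natAdd (N + 1) j) := ⟨_, rfl⟩
  have hm1 : ∀ i, b1 i ∈ kZ k := fun i => by rw [hb1]; exact hβ1 _
  have hm2 : ∀ i, b2 i ∈ kZ k := fun i => by rw [hb2]; exact hβ1 _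
  have hrel : ∑ i, b1 i * (pz f) ^ (i : ℕ) + y * ∑ i, b2 i * (pz f) ^ (i : ℕ) = 0 := by
    rw [← hβ, hb1, hb2, Finset.mul_sum]
    congr 1
    refine Finset.sum_congr rfl fun j _ => ?_
    ring
  have hz2 : ∑ i, b2 i * (pz f) ^ (i : ℕ) ≠ 0 := by
    intro h0
    rw [h0, mul_zero, add_zero] at hrel
    have e1 := eq_zero_of_sum b1 (hTr _ (co_sum b1 hm1) (by rw [eval_sum', hrel]))
    have e2 := eq_zero_of_sum b2 (hTr _ (co_sum b2 hm2) (by rw [eval_sum', h0]))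
    apply hβ0
    funext i
    refine Fin.addCases (fun j => ?_) (fun j => ?_) i
    · have := e1 j
      rw [hb1] at this
      exact this
    · have := e2 j
      rw [hb2] at this
      exact this
  have hyq : y = -(∑ i, b1 i * (pz f) ^ (i : ℕ)) / ∑ i, b2 i * (pz f) ^ (i : ℕ) := by
    rw [eq_div_iff hz2]
    linear_combination hrel
  rw [hyq]
  exact div_mem (neg_mem (mem_sum b1 (fun i => kZ_le_fld k f (hm1 i)) (pz_mem_fld k f)))
    (mem_sum b2 (fun i => kZ_le_fld k f (hm2 i)) (pz_mem_fld k f))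

end EVR
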