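import Pool.Agent.EVR.Api

/-!
# Squad EVR (MP_3e5173_lc), module GAO: for almost all `c ∈ k` the value belongs to `k(f(c))`
-/

set_option autoImplicit false

namespace EVR

open Polynomial

noncomputable section

namespace GAO_

/-- finitely many intermediate fields below a finite extension -/
theorem finite_below {F : Type} {E : Type} [Field F] [Field E] [Algebra F E] [CharZero F]
    (L : IntermediateField F E) [FiniteDimensional F L] : {K' : IntermediateField F E | K' ≤ L}.Finite := by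
  haveI : Algebra.IsAlgebraic F L := Algebra.IsAlgebraic.of_finite F L
  haveI : Algebra.IsSeparable F L := inferInstance
  haveI : Finite (IntermediateField F L) :=
    Field.finite_intermediateField_of_exists_primitive_element F L (Field.exists_primitive_element F L)
  refine (Set.finite_range (fun E' : IntermediateField F L => IntermediateField.lift E')).subset ?_
  intro K' hK'
  exact ⟨IntermediateField.restrict hK', IntermediateField.lift_restrict hK'⟩

/-- pigeonhole: outside a finite set every fibre has two elements -/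
theorem finite_single {α β : Type} (s : Set α) (g : α → β) (t : Set β) (ht : t.Finite)
    (hg : ∀ c ∈ s, g c ∈ t) : {c : α | c ∈ s ∧ ∀ c' ∈ s, g c' = g c → c' = c}.Finite := by
  refine Set.Finite.of_finite_image (f := g) ?_ ?_
  · refine ht.subset ?_
    rintro _ ⟨c, hc, rfl⟩
    exact hg c hc.1
  · intro c hc c' hc' h
    exact (hc'.2 c hc.1 h)

end GAO_

open GAO_ in
theorem gao_proof (hINT : Stmt_INT) (hRCL : Stmt_RCL) (hTPL : Stmt_TPL) : Stmt_GAO := by
  intro k M d a y hk hd hdM ha hPP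
  have hTP := hTPL k M d a ha
  obtain ⟨-, -, h3⟩ := hTP
  have h3 := h3 hd
  set f := tp M d a with hf
  -- the field `L0`
  set L0 : Subfield ℂ := ad k (Set.range a) with hL0
  have hkL0 : k ≤ L0 := le_ad k _
  have haL0 : ∀ i, a i ∈ L0 := fun i => mem_ad k ⟨i, rfl⟩
  have hfL0 : ∀ c ∈ k, f.eval c ∈ L0 := by
    intro c hc
    rw [hf, tp_eval]
    refine add_mem (pow_mem (hkL0 hc) _) (Subfield.sum_mem _ fun i _ => ?_)
    exact mul_mem (haL0 i) (pow_mem (hkL0 hc) _)
  have hadL0 : ∀ c ∈ k, ad k {f.eval c} ≤ L0 := by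
    intro c hc
    exact ad_le hkL0 (by simpa using hfL0 c hc)
  obtain ⟨F1, hL0F1, hF1clo, hF1⟩ := exists_acl L0
  -- `y ∈ k(Z)` over `F1`
  have hyF1 : y ∈ kZ F1 := by
    apply hINT
    have hinf : ((k : Set ℂ) \ {c : ℂ | c ∈ k ∧ ¬ (Rg c y ∧ IsAlgebraic (ad k {f.eval c}) (vl c y))}).Infinite :=
      hk.infinite.sdiff hPP
    refine hinf.mono ?_
    rintro c ⟨hc, hc'⟩
    have h4 : Rg c y ∧ IsAlgebraic (ad k {f.eval c}) (vl c y) := by
      by_contra h5
      exact hc' ⟨hc, h5⟩
    exact ⟨hL0F1 (hkL0 hc), h4.1, (hF1 _).mpr (isAlgebraic_mono (hadL0 c hc) h4.2)⟩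
  obtain ⟨P, Q, hQ, hy⟩ := mem_kZ_iff.mp hyF1
  -- the finite extension `L`
  set T : Finset ℂ := ((P.map F1.subtype).coeffs ∪ (Q.map F1.subtype).coeffs) with hT
  have hTalg : ∀ x ∈ (T : Set ℂ), IsIntegral L0 x := by
    intro x hx
    rw [Finset.mem_coe, hT, Finset.mem_union] at hx
    have hxF1 : x ∈ F1 := by
      rcases hx with hx | hx
      · obtain ⟨n, -, rfl⟩ := Polynomial.mem_coeffs_iff.mp hx
        exact coeff_map_mem P n
      · obtain ⟨n, -, rfl⟩ := Polynomial.mem_coeffs_iff.mp hx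
        exact coeff_map_mem Q n
    exact ((hF1 x).mp hxF1).isIntegral
  set L : IntermediateField L0 ℂ := IntermediateField.adjoin L0 (T : Set ℂ) with hL
  haveI : FiniteDimensional L0 L := IntermediateField.finiteDimensional_adjoin hTalg
  have hTL : ∀ x ∈ T, x ∈ L := fun x hx => IntermediateField.subset_adjoin L0 _ hx
  have hL0L : ∀ x ∈ L0, x ∈ L := fun x hx => L.algebraMap_mem ⟨x, hx⟩
  have hcoefL : ∀ (R : ℂ[X]), R.coeffs ⊆ T → ∀ c ∈ k, R.eval c ∈ L := by
    intro R hR c hc
    rw [eval_eq_sum_range]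
    refine sum_mem fun i _ => ?_
    refine mul_mem ?_ (pow_mem (hL0L c (hkL0 hc)) _)
    by_cases h0 : R.coeff i = 0
    · rw [h0]
      exact zero_mem L
    · exact hTL _ (hR (Polynomial.coeff_mem_coeffs h0))
  have hQ0 : pz (Q.map F1.subtype) ≠ 0 := by
    rw [pz_ne_zero, Ne, Polynomial.map_eq_zero]
    exact hQ
  -- the good points
  set Good : Set ℂ := {c : ℂ | c ∈ k ∧ Rg c y ∧ vl c y ∈ L ∧ IsAlgebraic (ad k {f.eval c}) (vl c y)} with hGood
  have hbad : {c : ℂ | c ∈ k ∧ c ∉ Good}.Finite := by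
    refine (hPP.union (finite_vl_eq_zero hQ0)).subset ?_
    rintro c ⟨hc, hcG⟩
    by_contra hcon
    rw [Set.mem_union, not_or] at hcon
    have h4 : Rg c y ∧ IsAlgebraic (ad k {f.eval c}) (vl c y) := by
      by_contra h5
      exact hcon.1 ⟨hc, h5⟩
    have h5 : Rg c (pz (Q.map F1.subtype)) ∧ vl c (pz (Q.map F1.subtype)) ≠ 0 := by
      by_contra h6
      exact hcon.2 h6
    apply hcG
    refine ⟨hc, h4.1, ?_, h4.2⟩
    have h6 := rg_vl_div (rg_pz c (P.map F1.subtype)) h5.1 h5.2
    rw [hy, h6.2, vl_pz, vl_pz]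
    exact div_mem (hcoefL _ Finset.subset_union_left c hc) (hcoefL _ Finset.subset_union_right c hc)
  -- pigeonhole
  have hsingle := finite_single Good (fun c => IntermediateField.adjoin L0 {vl c y})
    {K' : IntermediateField L0 ℂ | K' ≤ L} (finite_below L) (by
      intro c hc
      rw [Set.mem_ofPred_eq, IntermediateField.adjoin_le_iff]
      intro z hz
      rw [Set.mem_singleton_iff] at hz
      rw [hz]
      exact hc.2.2.1)
  refine (hbad.union hsingle).subset ?_
  rintro c ⟨hc, hcn⟩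
  by_contra hcon
  rw [Set.mem_union, not_or] at hcon
  have hcG : c ∈ Good := by
    by_contra h5
    exact hcon.1 ⟨hc, h5⟩
  obtain ⟨c', hc'G, hfib, hne⟩ : ∃ c' ∈ Good, IntermediateField.adjoin L0 {vl c' y} =
      IntermediateField.adjoin L0 {vl c y} ∧ c' ≠ c := by
    by_contra h5
    push Not at h5
    exact hcon.2 ⟨hcG, fun c' hc' h6 => h5 c' hc' h6⟩
  apply hcn
  refine ⟨hcG.2.1, ?_⟩
  obtain ⟨S, hS1, hS2⟩ := h3 c hc c' hc'G.1 hne.symm
  obtain ⟨B, hadB, hBclo, hB⟩ := exists_acl (ad k (S ∪ {f.eval c'}))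
  have hkB : k ≤ B := (le_ad k _).trans hadB
  have hsB : ¬ IsAlgebraic B (f.eval c) := fun h => hS1 ((hB _).mp (hBclo _ h))
  have haB : ∀ i, a i ∈ ad B {f.eval c} := by
    intro i
    have h5 : ad k (S ∪ {f.eval c', f.eval c}) ≤ ad B {f.eval c} := by
      refine ad_le (hkB.trans (le_ad B _)) ?_
      rintro z (hz | hz | hz)
      · exact le_ad B _ (hadB (mem_ad k (Or.inl hz)))
      · rw [hz]
        exact le_ad B _ (hadB (mem_ad k (Or.inr rfl)))
      · rw [Set.mem_singleton_iff] at hz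
        rw [hz]
        exact mem_ad B rfl
    exact h5 (hS2 i)
  have hL0B : L0 ≤ ad B {f.eval c} := ad_le (hkB.trans (le_ad B _)) (by
    rintro _ ⟨i, rfl⟩
    exact haB i)
  have hy'B : vl c' y ∈ B := by
    rw [hB]
    refine isAlgebraic_mono ?_ hc'G.2.2.2
    exact ad_mono Set.subset_union_right
  have hyB : vl c y ∈ ad B {f.eval c} := by
    have h5 : IntermediateField.adjoin L0 {vl c' y} ≤
        (ad B {f.eval c}).toIntermediateField (fun x => hL0B x.2) := by
      rw [IntermediateField.adjoin_le_iff]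
      intro z hz
      rw [Set.mem_singleton_iff] at hz
      rw [hz]
      exact le_ad B _ hy'B
    have h6 : vl c y ∈ IntermediateField.adjoin L0 {vl c' y} := by
      rw [hfib]
      exact IntermediateField.subset_adjoin L0 _ rfl
    exact h5 h6
  exact hRCL k B (f.eval c) (vl c y) hk hkB hsB hyB hcG.2.2.2

end

end EVR
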