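import Pool.Agent.EVR.Api

set_option autoImplicit false

namespace EVR

open Polynomial

noncomputable section

theorem idr_proof : Stmt_IDR := by
  intro E l hE y hy
  have hy0 : y ≠ 0 := by
    rintro rfl
    exact hy (map_zero E)
  obtain ⟨p', hp', hdp⟩ := hE y.num
  obtain ⟨q', hq', hdq⟩ := hE y.denom
  have hd0 : y.denom ≠ 0 := RatFunc.denom_ne_zero y
  have hpd0 : pz y.denom ≠ 0 := pz_ne_zero.2 hd0
  have h1 : y * pz y.denom = pz y.num := mul_denom y
  have h2 : y * E (pz y.denom) + pz y.denom * E y = E (pz y.num) := by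
    have := congrArg E h1
    rw [E.leibniz] at this
    simpa [smul_eq_mul] using this
  rw [hp', hq'] at h2
  have h3 : E y * (pz y.denom * pz y.denom) = pz (p' * y.denom - y.num * q') := by
    rw [map_sub, map_mul, map_mul, ← h1, ← h2]
    ring
  have hN : p' * y.denom - y.num * q' ≠ 0 := by
    intro h
    rw [h, map_zero] at h3
    exact (mul_ne_zero hy (mul_ne_zero hpd0 hpd0)) h3
  have h4 := congrArg RatFunc.intDegree h3
  rw [RatFunc.intDegree_mul hy (mul_ne_zero hpd0 hpd0), RatFunc.intDegree_mul hpd0 hpd0,
    RatFunc.intDegree_polynomial, RatFunc.intDegree_polynomial] at h4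
  have h5 : (p' * y.denom - y.num * q').natDegree ≤ y.num.natDegree + y.denom.natDegree + l := by
    refine (natDegree_sub_le _ _).trans (max_le ?_ ?_)
    · refine natDegree_mul_le.trans ?_
      omega
    · refine natDegree_mul_le.trans ?_
      omega
  have h6 : y.intDegree = (y.num.natDegree : ℤ) - y.denom.natDegree := rfl
  rw [h6]
  omega

end

end EVR
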