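import Pool.Agent.EVR.Api

set_option autoImplicit false

namespace EVR

open Polynomial

theorem int_proof (hLIN : Stmt_LIN) : Stmt_INT := by
  intro F y hinf
  have hone : ∀ c : ℂ, vl c (1 : K) = 1 := by
    intro c
    have := vl_pz c 1
    simpa using this
  obtain ⟨β, hβ, hβ0, hsum⟩ := hLIN F 2 ![1, y] _ hinf (fun c hc => hc.1) (by
    rintro c ⟨hcF, hreg, hval⟩
    refine ⟨?_, ![-(vl c y), 1], ?_, ?_, ?_⟩
    · intro i
      fin_cases i
      · exact rg_one c
      · exact hreg
    · intro i
      fin_cases i
      · exact neg_mem hval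
      · exact one_mem F
    · intro h
      have := congrFun h 1
      simp at this
    · rw [Fin.sum_univ_two]
      show -(vl c y) * vl c (1 : K) + 1 * vl c y = 0
      rw [hone c]
      ring)
  rw [Fin.sum_univ_two] at hsum
  have hsum' : β 0 * 1 + β 1 * y = 0 := hsum
  have h1 : β 1 ≠ 0 := by
    intro h
    rw [h] at hsum'
    apply hβ0
    funext i
    fin_cases i
    · simpa using hsum'
    · exact h
  have h2 : y = -(β 0) / β 1 := by
    rw [eq_div_iff h1]
    linear_combination hsum'
  rw [h2]
  exact div_mem (neg_mem (hβ 0)) (hβ 1)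

end EVR
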