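import Pool.Agent.EVR.Api

/-!
# Squad EVR (MP_3e5173_lc), module LIN: linear dependence of values
-/

set_option autoImplicit false

namespace EVR

open Polynomial

noncomputable section

namespace LIN_

/-- coordinates on a finite dimensional subspace -/
theorem coords (F : Subfield ℂ) (s : Set ℂ) (hs : s.Finite) :
    ∃ (d : ℕ) (e : Fin d → ℂ) (l : Fin d → (ℂ →ₗ[F] F)), LinearIndependent F e ∧
      ∀ x ∈ s, x = ∑ j, e j * ((l j x : F) : ℂ) := by
  set W : Submodule F ℂ := Submodule.span F s with hW
  have : FiniteDimensional F W := FiniteDimensional.span_of_finite F hs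
  let b := Module.finBasis F W
  have h1 : ∀ j, ∃ g : ℂ →ₗ[F] F, g ∘ₗ W.subtype = b.coord j := fun j =>
    LinearMap.exists_extend (b.coord j)
  choose l hl using h1
  refine ⟨Module.finrank F W, fun j => ((b j : W) : ℂ), l, ?_, ?_⟩
  · exact b.linearIndependent.map' W.subtype (Submodule.ker_subtype W)
  · intro x hx
    have hxW : x ∈ W := Submodule.subset_span hx
    have h2 := b.sum_repr ⟨x, hxW⟩
    have h3 := congrArg (fun w : W => (w : ℂ)) h2
    simp only [Submodule.coe_sum, Submodule.coe_smul] at h3
    rw [← h3]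
    refine Finset.sum_congr rfl (fun j _ => ?_)
    have h4 : l j x = b.repr ⟨x, hxW⟩ j := by
      have := congrArg (fun g : W →ₗ[F] F => g ⟨x, hxW⟩) (hl j)
      simpa using this
    rw [h3, h4, mul_comm]
    rfl

/-- a common denominator -/
theorem common (n : ℕ) (g : Fin n → K) : ∃ (q : ℂ[X]) (p : Fin n → ℂ[X]), q ≠ 0 ∧
    (∀ i, g i * pz q = pz (p i)) ∧ ∀ c : ℂ, (∀ i, Rg c (g i)) → q.eval c ≠ 0 := by
  classical
  refine ⟨∏ i, (g i).denom, fun i => (g i).num * ∏ k ∈ Finset.univ.erase i, (g k).denom,
    ?_, ?_, ?_⟩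
  · exact Finset.prod_ne_zero_iff.2 (fun i _ => RatFunc.denom_ne_zero (g i))
  · intro i
    rw [← Finset.mul_prod_erase Finset.univ (fun k => (g k).denom) (Finset.mem_univ i),
      map_mul, map_mul, ← mul_assoc, mul_denom]
  · intro c hc
    rw [eval_prod]
    exact Finset.prod_ne_zero_iff.2 (fun i _ => hc i)

/-- the polynomial of the images of the coefficients -/
def co {F : Subfield ℂ} (l : ℂ →ₗ[F] F) (p : ℂ[X]) : Polynomial F :=
  ∑ m ∈ p.support, monomial m (l (p.coeff m))

theorem co_coeff {F : Subfield ℂ} (l : ℂ →ₗ[F] F) (p : ℂ[X]) (m : ℕ) :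
    (co l p).coeff m = l (p.coeff m) := by
  classical
  unfold co
  rw [finsetSum_coeff]
  simp only [coeff_monomial]
  rw [Finset.sum_ite_eq']
  split_ifs with h
  · rfl
  · rw [notMem_support_iff] at h
    rw [h, map_zero]

/-- right inverses up to a scalar -/
theorem right_inv {F : Subfield ℂ} {n d : ℕ} (v : Fin n → Fin d → Polynomial F)
    (h : LinearIndependent (Polynomial F) v) :
    ∃ (D : Polynomial F) (G : Fin d → Fin n → Polynomial F), D ≠ 0 ∧
      ∀ i k, ∑ j, v i j * G j k = if i = k then D else 0 := by
  classical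
  let R := Polynomial F
  let L := FractionRing R
  let φ : (Fin d → R) →ₗ[R] (Fin d → L) := (Algebra.linearMap R L).compLeft (Fin d)
  have hφ : LinearMap.ker φ = ⊥ := by
    rw [LinearMap.ker_eq_bot]
    intro x y hxy
    funext j
    have := congrFun hxy j
    exact IsFractionRing.injective R L this
  have h1 : LinearIndependent R (fun i => φ (v i)) := h.map' φ hφ
  have h2 : LinearIndependent L (fun i => φ (v i)) :=
    (LinearIndependent.iff_fractionRing R L).1 h1
  rw [linearIndependent_iff_injective_fintypeLinearCombination] at h2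
  obtain ⟨g, hg⟩ := LinearMap.exists_leftInverse_of_injective
    (Fintype.linearCombination L (fun i => φ (v i))) (LinearMap.ker_eq_bot.2 h2)
  have hgi : ∀ i k, g (φ (v i)) k = if i = k then 1 else 0 := by
    intro i k
    have h3 : Fintype.linearCombination L (fun i => φ (v i)) (Pi.single i 1) = φ (v i) := by
      rw [Fintype.linearCombination_apply_single]
      rw [one_smul]
    rw [← h3]
    have h4 := congrArg (fun f : (Fin n → L) →ₗ[L] (Fin n → L) => f (Pi.single i 1) k) hg
    simp only [LinearMap.comp_apply, LinearMap.id_apply] at h4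
    rw [h4, Pi.single_apply]
    by_cases hik : i = k
    · simp [hik]
    · rw [if_neg hik, if_neg (fun h => hik h.symm)]
  obtain ⟨b, hb⟩ := IsLocalization.exist_integer_multiples_of_finite (nonZeroDivisors R)
    (fun p : Fin d × Fin n => (g (fun j' => if p.1 = j' then (1 : L) else 0) p.2 : L))
  choose G hG using hb
  refine ⟨(b : R), fun j k => G (j, k), nonZeroDivisors.coe_ne_zero b, ?_⟩
  intro i k
  apply IsFractionRing.injective R L
  rw [map_sum]
  have h5 := LinearMap.pi_apply_eq_sum_univ g (φ (v i))
  have h6 := congrFun h5 k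
  rw [hgi, Finset.sum_apply] at h6
  have h7 : ∀ j, algebraMap R L (v i j * G (j, k)) = algebraMap R L (b : R) *
      ((φ (v i)) j • g (fun j' => if j = j' then (1 : L) else 0)) k := by
    intro j
    have h8 := hG (j, k)
    rw [map_mul, h8, Pi.smul_apply, smul_eq_mul, Algebra.smul_def]
    have h9 : (φ (v i)) j = algebraMap R L (v i j) := rfl
    rw [h9]
    ring
  rw [Finset.sum_congr rfl (fun j _ => h7 j), ← Finset.mul_sum, ← h6]
  split_ifs
  · rw [mul_one]
  · rw [mul_zero, map_zero]

end LIN_

open LIN_ in
theorem lin_proof : Stmt_LIN := by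
  classical
  intro F n g S hS hSF h
  obtain ⟨q, p, hq0, hp, hqc⟩ := common n g
  obtain ⟨d, e, l, he, hl⟩ := coords F
    ((Finset.univ.biUnion fun i : Fin n => (p i).support.image (p i).coeff : Finset ℂ) : Set ℂ)
    (Finset.finite_toSet _)
  set P : Fin n → Fin d → Polynomial F := fun i j => co (l j) (p i) with hP
  have hid : ∀ i, p i = ∑ j, C (e j) * (P i j).map F.subtype := by
    intro i
    ext m
    rw [finsetSum_coeff]
    simp only [coeff_C_mul, coeff_map, hP, co_coeff]
    by_cases hm : m ∈ (p i).support
    · refine hl ((p i).coeff m) ?_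
      rw [Finset.mem_coe, Finset.mem_biUnion]
      exact ⟨i, Finset.mem_univ i, Finset.mem_image_of_mem _ hm⟩
    · rw [notMem_support_iff] at hm
      rw [hm]
      simp
  by_cases hLI : LinearIndependent (Polynomial F) P
  · exfalso
    obtain ⟨D, G, hD, hDG⟩ := right_inv P hLI
    apply hS
    refine ((D.roots.toFinset.finite_toSet).image (fun c : F => (c : ℂ))).subset ?_
    intro c hc
    have hcF : c ∈ F := hSF hc
    obtain ⟨hrg, α, hαF, hα0, hα⟩ := h c hc
    have hqc' := hqc c hrg
    refine ⟨⟨c, hcF⟩, ?_, rfl⟩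
    rw [Finset.mem_coe, Multiset.mem_toFinset, mem_roots hD, IsRoot]
    set c' : F := ⟨c, hcF⟩ with hc'
    have hev : ∀ Q : Polynomial F, (Q.map F.subtype).eval c = ((Q.eval c' : F) : ℂ) := by
      intro Q
      have : c = F.subtype c' := rfl
      rw [this, eval_map, eval₂_at_apply]
      rfl
    have h1 : ∑ i, α i * (p i).eval c = 0 := by
      have h2 : ∀ i, α i * vl c (g i) * q.eval c = α i * (p i).eval c := by
        intro i
        rw [(rg_vl_of_eq hqc' (hp i)).2]
        field_simp
      rw [← Finset.sum_congr rfl (fun i _ => h2 i), ← Finset.sum_mul, hα, zero_mul]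
    have h3 : ∑ j, (∑ i, (⟨α i, hαF i⟩ : F) * (P i j).eval c') • e j = 0 := by
      rw [← h1]
      have h4 : ∀ i, α i * (p i).eval c =
          ∑ j, α i * ((((P i j).eval c' : F) : ℂ) * e j) := by
        intro i
        rw [← Finset.mul_sum]
        congr 1
        conv_lhs => rw [hid i]
        rw [eval_finsetSum]
        refine Finset.sum_congr rfl (fun j _ => ?_)
        rw [eval_mul, eval_C, hev, mul_comm]
      rw [Finset.sum_congr rfl (fun i _ => h4 i), Finset.sum_comm]
      refine Finset.sum_congr rfl (fun j _ => ?_)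
      rw [Finset.sum_smul]
      refine Finset.sum_congr rfl (fun i _ => ?_)
      rw [Subfield.smul_def]
      push_cast
      rw [smul_eq_mul, mul_assoc]
    have h5 := Fintype.linearIndependent_iff.1 he _ h3
    obtain ⟨k, hk⟩ : ∃ k, α k ≠ 0 := by
      by_contra hcon
      push Not at hcon
      exact hα0 (funext hcon)
    have h6 : ∑ j, (∑ i, (⟨α i, hαF i⟩ : F) * (P i j).eval c') * (G j k).eval c' =
        (⟨α k, hαF k⟩ : F) * D.eval c' := by
      simp only [Finset.sum_mul]
      rw [Finset.sum_comm]
      have h7 : ∀ i, ∑ j, (⟨α i, hαF i⟩ : F) * (P i j).eval c' * (G j k).eval c' =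
          (⟨α i, hαF i⟩ : F) * (if i = k then D else 0 : Polynomial F).eval c' := by
        intro i
        rw [← hDG i k, eval_finsetSum, Finset.mul_sum]
        refine Finset.sum_congr rfl (fun j _ => ?_)
        rw [eval_mul]
        ring
      rw [Finset.sum_congr rfl (fun i _ => h7 i), Finset.sum_eq_single k]
      · rw [if_pos rfl]
      · intro i _ hik
        rw [if_neg hik, eval_zero, mul_zero]
      · intro hk'
        exact absurd (Finset.mem_univ k) hk'
    rw [Finset.sum_eq_zero (fun j _ => by rw [h5 j, zero_mul])] at h6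
    rcases mul_eq_zero.1 h6.symm with h8 | h8
    · exfalso
      apply hk
      exact congrArg (fun x : F => (x : ℂ)) h8
    · exact h8
  · rw [Fintype.not_linearIndependent_iff] at hLI
    obtain ⟨a, ha, i0, hi0⟩ := hLI
    refine ⟨fun i => pz ((a i).map F.subtype), fun i => pz_mem_kZ (coeff_map_mem (a i)), ?_, ?_⟩
    · intro h0
      have h1 := congrFun h0 i0
      simp only [Pi.zero_apply] at h1
      have h2 : (a i0).map F.subtype = 0 := by
        rw [← pz_inj, h1, map_zero]
      rw [Polynomial.map_eq_zero] at h2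
      exact hi0 h2
    · have hqz : pz q ≠ 0 := pz_ne_zero.2 hq0
      have h1 : (∑ i, pz ((a i).map F.subtype) * g i) * pz q = 0 := by
        rw [Finset.sum_mul]
        have h2 : ∀ i, pz ((a i).map F.subtype) * g i * pz q =
            pz (∑ j, C (e j) * (a i * P i j).map F.subtype) := by
          intro i
          rw [mul_assoc, hp i, ← map_mul]
          congr 1
          conv_lhs => rw [hid i]
          rw [Finset.mul_sum]
          refine Finset.sum_congr rfl (fun j _ => ?_)
          rw [Polynomial.map_mul]
          ring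
        rw [Finset.sum_congr rfl (fun i _ => h2 i), ← map_sum, Finset.sum_comm]
        have h3 : ∀ j, ∑ i, C (e j) * (a i * P i j).map F.subtype = 0 := by
          intro j
          rw [← Finset.mul_sum, ← Polynomial.map_sum]
          have h4 := congrFun ha j
          simp only [Finset.sum_apply, Pi.smul_apply, smul_eq_mul, Pi.zero_apply] at h4
          rw [h4, Polynomial.map_zero, mul_zero]
        rw [Finset.sum_eq_zero (fun j _ => h3 j), map_zero]
      rcases mul_eq_zero.1 h1 with h2 | h2
      · exact h2
      · exact absurd h2 hqz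

end

end EVR
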