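import Pool.Agent.EVR.Api

/-!
# Squad EVR (MP_3e5173_lc): module LOC, the local lemma
-/

set_option autoImplicit false

namespace EVR

open Polynomial

namespace LOC_

variable {w : K → ℤ} (hm : ∀ x y : K, x ≠ 0 → y ≠ 0 → w (x * y) = w x + w y)
  (ha : ∀ x y : K, x ≠ 0 → y ≠ 0 → x + y ≠ 0 → min (w x) (w y) ≤ w (x + y))

include hm

lemma w_one : w 1 = 0 := by
  have := hm 1 1 one_ne_zero one_ne_zero
  rw [one_mul] at this
  omega

lemma w_neg_one : w (-1) = 0 := by
  have h := hm (-1) (-1) (by simp) (by simp)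
  rw [neg_mul_neg, one_mul, w_one hm] at h
  omega

lemma w_neg {x : K} (hx : x ≠ 0) : w (-x) = w x := by
  have h := hm (-1) x (by simp) hx
  rw [neg_one_mul, w_neg_one hm] at h
  omega

lemma w_sq {x : K} (hx : x ≠ 0) : w (x ^ 2) = 2 * w x := by
  rw [sq, hm x x hx hx]; ring

lemma w_cube {x : K} (hx : x ≠ 0) : w (x ^ 3) = 3 * w x := by
  rw [pow_succ, hm _ _ (pow_ne_zero 2 hx) hx, w_sq hm hx]; ring

include ha

/-- the ultrametric inequality for a bound -/
lemma w_add {x y : K} {c : ℤ} (hx : x ≠ 0 → c ≤ w x) (hy : y ≠ 0 → c ≤ w y)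
    (hxy : x + y ≠ 0) : c ≤ w (x + y) := by
  by_cases h1 : x = 0
  · subst h1
    rw [zero_add] at hxy ⊢
    exact hy hxy
  by_cases h2 : y = 0
  · subst h2
    rw [add_zero] at hxy ⊢
    exact hx hxy
  exact (le_min (hx h1) (hy h2)).trans (ha x y h1 h2 hxy)

end LOC_

open LOC_ in
theorem loc_proof : Stmt_LOC := by
  intro w E a b u v hm ha h2 h3 hE hEa hEb heq hv hEu
  have hu : u ≠ 0 := by
    rintro rfl
    exact hEu (map_zero E)
  have e2 : (2 : K) ≠ 0 := two_ne_zero
  have e3 : (3 : K) ≠ 0 := three_ne_zero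
  have w6 : w 6 = 0 := by
    have h := hm 2 3 e2 e3
    have e6 : (2 : K) * 3 = 6 := by norm_num
    rw [e6, h2, h3] at h
    omega
  have e6 : (6 : K) ≠ 0 := by norm_num
  -- the derivative of the equation
  have hD : 2 * v * E v = (3 * u ^ 2 + a) * E u := by
    have h := congrArg E heq
    have h' : E (v ^ 2) = 2 * v * E v := by
      rw [sq, Derivation.leibniz, smul_eq_mul]; ring
    have h'' : E (u ^ 3 + a * u + b) = (3 * u ^ 2 + a) * E u := by
      rw [map_add, map_add, hEb, Derivation.leibniz, hEa]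
      have : E (u ^ 3) = 3 * u ^ 2 * E u := by
        rw [pow_succ, Derivation.leibniz, sq, Derivation.leibniz]
        simp only [smul_eq_mul]
        ring
      rw [this]
      simp only [smul_eq_mul]
      ring
    rw [h', h''] at h
    exact h
  set G : K := 3 * u ^ 2 + a with hG
  have hEG : E G = 6 * u * E u := by
    rw [hG, map_add, hEa, add_zero, Derivation.leibniz, sq, Derivation.leibniz]
    have : E (3 : K) = 0 := by
      have := E.map_natCast 3
      simpa using this
    rw [this]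
    simp only [smul_eq_mul]
    ring
  have hEG0 : E G ≠ 0 := by
    rw [hEG]
    exact mul_ne_zero (mul_ne_zero e6 hu) hEu
  have hG0 : G ≠ 0 := by
    intro h
    rw [h, map_zero] at hEG0
    exact hEG0 rfl
  have hEv : E v ≠ 0 := by
    intro h
    rw [h, mul_zero] at hD
    exact mul_ne_zero hG0 hEu hD.symm
  -- the values
  have k1 : w v + w (E v) = w G + w (E u) := by
    have h := congrArg w hD
    rw [hm _ _ (mul_ne_zero e2 hv) hEv, hm _ _ e2 hv, h2, hm _ _ hG0 hEu] at h
    omega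
  have k2 := hE v hEv
  have k3 := hE G hEG0
  rw [hEG, hm _ _ (mul_ne_zero e6 hu) hEu, hm _ _ e6 hu, w6] at k3
  have k4 := hE u hEu
  have hu2 : 2 * (w v - w (E u)) ≤ w u := by omega
  have hv3 : 3 * (w v - w (E u)) ≤ w v := by omega
  have hGS : 4 * (w v - w (E u)) ≤ w G := by omega
  have wa : a ≠ 0 → 4 * (w v - w (E u)) ≤ w a := by
    intro h
    have e : a = G + -(3 * u ^ 2) := by rw [hG]; ring
    rw [e] at h ⊢
    refine w_add hm ha (fun _ => hGS) (fun _ => ?_) h
    have hu2' : (3 : K) * u ^ 2 ≠ 0 := mul_ne_zero e3 (pow_ne_zero 2 hu)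
    rw [w_neg hm hu2', hm _ _ e3 (pow_ne_zero 2 hu), h3, w_sq hm hu]
    omega
  refine ⟨wa, fun h => ?_⟩
  have e : b = v ^ 2 + (-(u ^ 3) + -(a * u)) := by rw [heq]; ring
  rw [e] at h ⊢
  refine w_add hm ha (fun _ => ?_) (fun h4 => w_add hm ha (fun _ => ?_) (fun h5 => ?_) h4) h
  · rw [w_sq hm hv]; omega
  · rw [w_neg hm (pow_ne_zero 3 hu), w_cube hm hu]; omega
  · have h6 : a * u ≠ 0 := by simpa using h5
    have h7 : a ≠ 0 := left_ne_zero_of_mul h6
    rw [w_neg hm h6, hm _ _ h7 hu]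
    have := wa h7
    omega

end EVR
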