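import Pool.Agent.EVR.Api

/-!
# Squad EVR: module MAI (the dichotomy)
-/

set_option autoImplicit false

namespace EVR

open Polynomial

namespace MAI_

theorem co_iff {F : Subfield K} {P : K[X]} :
    Co F P ↔ P ∈ (Polynomial.mapRingHom F.subtype).range := by
  constructor
  · intro h
    have h1 : P ∈ Polynomial.lifts F.subtype := by
      rw [Polynomial.lifts_iff_coeff_lifts]
      intro n
      exact ⟨⟨_, h n⟩, rfl⟩
    obtain ⟨Q, hQ⟩ := (Polynomial.mem_lifts P).1 h1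
    exact ⟨Q, hQ⟩
  · rintro ⟨Q, rfl⟩ n
    rw [Polynomial.coe_mapRingHom, coeff_map]
    exact (Q.coeff n).2

theorem co_of_coeffs {F : Subfield K} {P : K[X]} (h : (P.coeffs : Set K) ⊆ F) : Co F P := by
  intro n
  by_cases h0 : P.coeff n = 0
  · rw [h0]
    exact F.zero_mem
  · exact h (Polynomial.coeff_mem_coeffs h0)

theorem eqn {F : Subfield K} {g h : K} (hg : Tr F g) {A B Pu Qu Pv Qv : K[X]} (hA : Co F A)
    (hB : Co F B) (hPu : Co F Pu) (hQu : Co F Qu) (hPv : Co F Pv) (hQv : Co F Qv)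
    (hu0 : Qu.eval g ≠ 0) (hv0 : Qv.eval g ≠ 0)
    (he : (Pv.eval g / Qv.eval g) ^ 2 = (Pu.eval g / Qu.eval g) ^ 3 +
      A.eval g * (Pu.eval g / Qu.eval g) + B.eval g)
    (hu : Qu.eval h ≠ 0) (hv : Qv.eval h ≠ 0) :
    (Pv.eval h / Qv.eval h) ^ 2 = (Pu.eval h / Qu.eval h) ^ 3 +
      A.eval h * (Pu.eval h / Qu.eval h) + B.eval h := by
  have h1 : Co F (Pv ^ 2 * Qu ^ 3 - Qv ^ 2 * (Pu ^ 3 + A * Pu * Qu ^ 2 + B * Qu ^ 3)) := by
    rw [co_iff] at *
    exact sub_mem (mul_mem (pow_mem hPv 2) (pow_mem hQu 3)) (mul_mem (pow_mem hQv 2)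
      (add_mem (add_mem (pow_mem hPu 3) (mul_mem (mul_mem hA hPu) (pow_mem hQu 2)))
        (mul_mem hB (pow_mem hQu 3))))
  have h2 : (Pv ^ 2 * Qu ^ 3 - Qv ^ 2 * (Pu ^ 3 + A * Pu * Qu ^ 2 + B * Qu ^ 3)).eval g = 0 := by
    simp only [eval_sub, eval_mul, eval_pow, eval_add]
    field_simp at he
    linear_combination he
  have h3 := hg _ h1 h2
  have h4 : (Pv ^ 2 * Qu ^ 3 - Qv ^ 2 * (Pu ^ 3 + A * Pu * Qu ^ 2 + B * Qu ^ 3)).eval h = 0 := by
    rw [h3]
    simp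
  simp only [eval_sub, eval_mul, eval_pow, eval_add] at h4
  field_simp
  linear_combination h4

end MAI_

open MAI_ in
theorem mai_proof (hPNT : Stmt_PNT) (hTRC : Stmt_TRC) (hREP : Stmt_REP) (_hQFL : Stmt_QFL)
    (hSPC : Stmt_SPC) (hCOL : Stmt_COL) : Stmt_MAI := by
  classical
  rintro D ⟨n, A, B, Φ, hnc, hBdd, hD⟩
  obtain ⟨S0, N0, hS0⟩ := hCOL.1 _ Φ hBdd
  obtain ⟨S, hS⟩ := hCOL.2 (S0 ∪ Finset.univ.biUnion fun i : Fin n => (A i).coeffs ∪ (B i).coeffs)
  refine ⟨S, fun k hk hkc hSk => ?_⟩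
  have hS1 := hS k hSk
  have hS0k : (S0 : Set K) ⊆ kZ k := fun x hx =>
    hS1 (Finset.mem_coe.2 (Finset.mem_union_left _ hx))
  have hcoA : ∀ i, Co (kZ k) (A i) := fun i => co_of_coeffs fun x hx =>
    hS1 (Finset.mem_coe.2 (Finset.mem_union_right _ (Finset.mem_biUnion.2
      ⟨i, Finset.mem_univ i, Finset.mem_union_left _ hx⟩)))
  have hcoB : ∀ i, Co (kZ k) (B i) := fun i => co_of_coeffs fun x hx =>
    hS1 (Finset.mem_coe.2 (Finset.mem_union_right _ (Finset.mem_biUnion.2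
      ⟨i, Finset.mem_univ i, Finset.mem_union_right _ hx⟩)))
  choose N hN using fun i => hPNT k (A i) (B i) hk hkc (hcoA i) (hcoB i) (hnc i)
  refine ⟨max (max 1 N0) (Finset.univ.sup N), fun M d a hd hM ha hf => ?_⟩
  have hd1 : 1 ≤ d := ((le_max_left _ _).trans (le_max_left _ _)).trans hd
  have hdN : N0 ≤ d := ((le_max_right _ _).trans (le_max_left _ _)).trans hd
  have hNi : ∀ i, N i + 6 * d < M := fun i => by
    have h1 : N i ≤ Finset.univ.sup N := Finset.le_sup (Finset.mem_univ i)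
    have h2 : Finset.univ.sup N ≤ max (max 1 N0) (Finset.univ.sup N) := le_max_right _ _
    omega
  have hdM : d < M := by omega
  set f := tp M d a with hfdef
  set g : K := pz f with hgdef
  obtain ⟨u, v, he, hΦ⟩ := (hD g).1 hf
  have huv : ∀ i, u i ∈ fld k f ∧ v i ∈ fld k f := fun i =>
    hN i M d a (u i) (v i) hd1 (hNi i) ha (he i)
  choose Pu Qu hPu hQu hu0 hueq using fun i => hREP (kZ k) g (u i) (huv i).1
  choose Pv Qv hPv hQv hv0 hveq using fun i => hREP (kZ k) g (v i) (huv i).2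
  obtain ⟨F, hF, -, hTr⟩ := hTRC k M d 0 a Fin.elim0 hk hdM ha (Nat.zero_le _)
  have hTr' : Tr (kZ k) g := hTr.mono hF
  have hco1 : Co (kZ k) (1 : K[X]) := by
    rw [co_iff]
    exact one_mem _
  have hcoX : Co (kZ k) (X : K[X]) := by
    intro m
    rw [coeff_X]
    split_ifs
    · exact (kZ k).one_mem
    · exact (kZ k).zero_mem
  let P : Option (Fin n ⊕ Fin n) → K[X] := fun o => o.elim X (Sum.elim Pu Pv)
  let Q : Option (Fin n ⊕ Fin n) → K[X] := fun o => o.elim 1 (Sum.elim Qu Qv)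
  have hPQ : ∀ i, Co (kZ k) (P i) ∧ Co (kZ k) (Q i) ∧ (Q i).eval (pz (tp M d a)) ≠ 0 := by
    rintro (_ | (i | i))
    · exact ⟨hcoX, hco1, by simp [Q]⟩
    · exact ⟨hPu i, hQu i, hu0 i⟩
    · exact ⟨hPv i, hQv i, hv0 i⟩
  have hval : (fun i => (P i).eval (pz (tp M d a)) / (Q i).eval (pz (tp M d a))) =
      ext (Sum.elim u v) g := by
    funext o
    rcases o with (_ | (i | i))
    · simp [P, Q, ext, hgdef, hfdef]
    · exact (hueq i).symm
    · exact (hveq i).symm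
  obtain ⟨T, hT, hT2⟩ := hSPC k M d a hk hkc hd1 hdM ha _ Φ (hS0 (kZ k) d hS0k hdN) inferInstance
    P Q hPQ (by rw [hval]; exact hΦ)
  refine hT.subset fun h hh => ?_
  by_contra hhT
  apply hh
  obtain ⟨hQ, hΦh⟩ := hT2 h hhT
  refine (hD h).2 ⟨fun i => (Pu i).eval h / (Qu i).eval h, fun i => (Pv i).eval h / (Qv i).eval h,
    fun i => ?_, ?_⟩
  · have he' := he i
    rw [hueq i, hveq i] at he'
    exact eqn hTr' (hcoA i) (hcoB i) (hPu i) (hQu i) (hPv i) (hQv i) (hu0 i) (hv0 i) he'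
      (hQ (some (Sum.inl i))) (hQ (some (Sum.inr i)))
  · have hval2 : (fun i => (P i).eval h / (Q i).eval h) =
        ext (Sum.elim (fun i => (Pu i).eval h / (Qu i).eval h)
          fun i => (Pv i).eval h / (Qv i).eval h) h := by
      funext o
      rcases o with (_ | (i | i))
      · simp [P, Q, ext]
      · rfl
      · rfl
    rw [hval2] at hΦh
    exact hΦh

end EVR
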