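import Pool.Agent.EVR.Api

/-!
Module MML: minimal models in factorial rings.
-/

set_option autoImplicit false

namespace EVR

open Polynomial

namespace MML_

variable {R : Type} [CommRing R]

theorem step (A B : R) (h : ¬ Mnl A B) : ∃ p A1 B1 : R, Irreducible p ∧ A = A1 * p ^ 4 ∧
    B = B1 * p ^ 6 := by
  simp only [Mnl, not_forall, not_not] at h
  obtain ⟨p, hp, ⟨A1, hA⟩, ⟨B1, hB⟩⟩ := h
  exact ⟨p, A1, B1, hp, by rw [hA, mul_comm], by rw [hB, mul_comm]⟩

theorem dnu {x y p : R} (m : ℕ) (hm : m ≠ 0) (hp : Irreducible p) (hy : y ≠ 0)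
    (h : y = x * p ^ m) : DvdNotUnit x y := by
  refine ⟨?_, p ^ m, ?_, h⟩
  · rintro rfl
    exact hy (by rw [h, zero_mul])
  · rw [isUnit_pow_iff hm]
    exact hp.not_isUnit

theorem comb {A B p A1 B1 L A' B' : R} (hA : A = A1 * p ^ 4) (hB : B = B1 * p ^ 6)
    (h1 : A1 = L ^ 4 * A') (h2 : B1 = L ^ 6 * B') :
    A = (p * L) ^ 4 * A' ∧ B = (p * L) ^ 6 * B' := by
  constructor
  · rw [hA, h1]; ring
  · rw [hB, h2]; ring

theorem caseA [IsDomain R] [UniqueFactorizationMonoid R] (A : R) : A ≠ 0 → ∀ B : R,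
    ∃ L A' B' : R, L ≠ 0 ∧ A = L ^ 4 * A' ∧ B = L ^ 6 * B' ∧ Mnl A' B' := by
  induction A using (wellFounded_dvdNotUnit (α := R)).induction with
  | _ A ih =>
    intro hA0 B
    by_cases h : Mnl A B
    · exact ⟨1, A, B, one_ne_zero, by simp, by simp, h⟩
    · obtain ⟨p, A1, B1, hp, hA, hB⟩ := step A B h
      have hd := dnu 4 (by norm_num) hp hA0 hA
      obtain ⟨L, A', B', hL, h1, h2, h3⟩ := ih A1 hd hd.1 B1
      obtain ⟨h4, h5⟩ := comb hA hB h1 h2
      exact ⟨p * L, A', B', mul_ne_zero hp.ne_zero hL, h4, h5, h3⟩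

theorem caseB [IsDomain R] [UniqueFactorizationMonoid R] (B : R) : B ≠ 0 → ∀ A : R,
    ∃ L A' B' : R, L ≠ 0 ∧ A = L ^ 4 * A' ∧ B = L ^ 6 * B' ∧ Mnl A' B' := by
  induction B using (wellFounded_dvdNotUnit (α := R)).induction with
  | _ B ih =>
    intro hB0 A
    by_cases h : Mnl A B
    · exact ⟨1, A, B, one_ne_zero, by simp, by simp, h⟩
    · obtain ⟨p, A1, B1, hp, hA, hB⟩ := step A B h
      have hd := dnu 6 (by norm_num) hp hB0 hB
      obtain ⟨L, A', B', hL, h1, h2, h3⟩ := ih B1 hd hd.1 A1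
      obtain ⟨h4, h5⟩ := comb hA hB h1 h2
      exact ⟨p * L, A', B', mul_ne_zero hp.ne_zero hL, h4, h5, h3⟩

end MML_

open MML_ in
theorem mml_proof : Stmt_MML := by
  intro R _ _ _ A B h
  rcases h with h | h
  · exact caseA A h B
  · exact caseB B h A

end EVR
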