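import Pool.Agent.EVR.Api

/-!
Squad EVR, module MTH: solutions of a Weierstrass equation with coefficients killed by `E`.
-/

set_option autoImplicit false

namespace EVR

open Polynomial

namespace MTH_

theorem der (E : Derivation ℤ K K) {a b u v : K} (ha : E a = 0) (hb : E b = 0)
    (h : v ^ 2 = u ^ 3 + a * u + b) : (3 * u ^ 2 + a) * E u = 2 * v * E v := by
  have h1 := congrArg E h
  have e1 : E (v ^ 2) = 2 * v * E v := by
    rw [pow_two, E.leibniz, smul_eq_mul]; ring
  have e2 : E (u ^ 3) = 3 * u ^ 2 * E u := by
    have : u ^ 3 = u * (u * u) := by ring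
    rw [this, E.leibniz, E.leibniz]; simp only [smul_eq_mul]; ring
  have e3 : E (a * u) = a * E u := by
    rw [E.leibniz, ha, smul_zero, add_zero, smul_eq_mul]
  rw [map_add, map_add, e1, e2, e3, hb] at h1
  linear_combination -h1

theorem ord_nonneg_iff {c : ℂ} {y : K} : 0 ≤ ord c y ↔ Rg c y := by
  unfold ord Rg
  constructor
  · intro h h0
    have hd : 0 < y.denom.rootMultiplicity c := by
      rw [rootMultiplicity_pos (RatFunc.denom_ne_zero y)]
      exact h0
    have hn : y.num.rootMultiplicity c = 0 := by
      rw [rootMultiplicity_eq_zero_iff]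
      intro h1
      exfalso
      have hco := RatFunc.isCoprime_num_denom y
      obtain ⟨r, s, hrs⟩ := hco
      have h2 := congrArg (Polynomial.eval c) hrs
      rw [eval_add, eval_mul, eval_mul, h0, h1.eq_zero, mul_zero, mul_zero, add_zero, eval_one] at h2
      exact zero_ne_one h2
    rw [hn] at h
    have : (0 : ℤ) < (y.denom.rootMultiplicity c : ℤ) := by exact_mod_cast hd
    simp only [Nat.cast_zero, zero_sub] at h
    linarith
  · intro h
    have hd : y.denom.rootMultiplicity c = 0 := by
      rw [rootMultiplicity_eq_zero_iff]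
      intro h1
      exact absurd h1 h
    rw [hd]
    simp

end MTH_

open MTH_ in
theorem mth_proof (hORD : Stmt_ORD) (hODR : Stmt_ODR) (hIDR : Stmt_IDR) (hLOC : Stmt_LOC) :
    Stmt_MTH := by
  intro E l a b u v hE ha hb hdisc hmin hdeg heq
  obtain ⟨omul, oadd, opz, opoly⟩ := hORD
  have hE' : ∀ p : ℂ[X], ∃ q : ℂ[X], E (pz p) = pz q := fun p => by
    obtain ⟨q, hq, _⟩ := hE p
    exact ⟨q, hq⟩
  have hd := der E ha hb heq
  have hdisc' : 4 * (pz a) ^ 3 + 27 * (pz b) ^ 2 ≠ 0 := by
    have h1 : pz (4 * a ^ 3 + 27 * b ^ 2) ≠ 0 := pz_ne_zero.2 hdisc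
    rw [map_add, map_mul, map_mul, map_pow, map_pow, map_ofNat, map_ofNat] at h1
    exact h1
  by_cases hv : v = 0
  · subst hv
    refine ⟨?_, map_zero E⟩
    rw [mul_zero, zero_mul] at hd
    rcases mul_eq_zero.1 hd with h | h
    · exfalso
      apply hdisc'
      have hA : pz a = -(3 * u ^ 2) := by linear_combination h
      have hB : pz b = 2 * u ^ 3 := by
        have h0 : (0 : K) = u ^ 3 + pz a * u + pz b := by
          rw [← heq]; ring
        rw [hA] at h0
        linear_combination -h0
      rw [hA, hB]
      ring
    · exact h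
  suffices hu : E u = 0 by
    refine ⟨hu, ?_⟩
    rw [hu, mul_zero] at hd
    rcases mul_eq_zero.1 hd.symm with h | h
    · rcases mul_eq_zero.1 h with h | h
      · exact absurd h two_ne_zero
      · exact absurd h hv
    · exact h
  by_contra hu
  have hu0 : u ≠ 0 := by
    rintro rfl
    exact hu (map_zero E)
  have hth0 : E u / v ≠ 0 := div_ne_zero hu hv
  have hthv : (E u / v) * v = E u := div_mul_cancel₀ _ hv
  -- orders of th
  have hordth : ∀ c : ℂ, ord c (E u) = ord c (E u / v) + ord c v := by
    intro c
    rw [← omul c _ _ hth0 hv, hthv]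
  have hreg : ∀ c : ℂ, 0 ≤ ord c (E u / v) := by
    intro c
    by_cases hp : ∃ p : ℂ[X], p ≠ 0 ∧ p.eval c = 0 ∧ E (pz p) = 0
    · have w2 : ord c 2 = 0 := by
        have : (2 : K) = pz 2 := by rw [map_ofNat]
        rw [this, opz c 2 two_ne_zero, rootMultiplicity_eq_zero_iff.2]
        · simp
        · intro h
          exfalso
          have : (2 : ℂ[X]).eval c = 0 := h
          simp at this
      have w3 : ord c 3 = 0 := by
        have : (3 : K) = pz 3 := by rw [map_ofNat]
        rw [this, opz c 3 (by
          intro h
          have := congrArg (Polynomial.eval (0 : ℂ)) h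
          simp at this), rootMultiplicity_eq_zero_iff.2]
        · simp
        · intro h
          exfalso
          have : (3 : ℂ[X]).eval c = 0 := h
          simp at this
      have hL := hLOC (ord c) E (pz a) (pz b) u v (omul c) (oadd c) w2 w3
        (fun y hy => (hODR E hE' c y hy).2.2 hp) ha hb heq hv hu
      by_contra hneg
      push Not at hneg
      rw [hordth c] at hL
      apply hmin c
      constructor
      · by_cases ha0 : a = 0
        · rw [ha0]; exact dvd_zero _
        · have h1 := hL.1 (pz_ne_zero.2 ha0)
          rw [opz c a ha0] at h1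
          rw [← le_rootMultiplicity_iff ha0]
          have : (4 : ℤ) ≤ (a.rootMultiplicity c : ℤ) := by linarith
          exact_mod_cast this
      · by_cases hb0 : b = 0
        · rw [hb0]; exact dvd_zero _
        · have h1 := hL.2 (pz_ne_zero.2 hb0)
          rw [opz c b hb0] at h1
          rw [← le_rootMultiplicity_iff hb0]
          have : (6 : ℤ) ≤ (b.rootMultiplicity c : ℤ) := by linarith
          exact_mod_cast this
    · push Not at hp
      have hEd : E (pz (4 * a ^ 3 + 27 * b ^ 2)) = 0 := by
        rw [map_add, map_mul, map_mul, map_pow, map_pow, map_ofNat, map_ofNat, map_add, E.leibniz,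
          E.leibniz, E.leibniz_pow, E.leibniz_pow, ha, hb]
        have e4 : E (4 : K) = 0 := by
          have := E.map_natCast 4
          exact_mod_cast this
        have e27 : E (27 : K) = 0 := by
          have := E.map_natCast 27
          exact_mod_cast this
        rw [e4, e27]
        simp
      have hdc : (4 * a ^ 3 + 27 * b ^ 2).eval c ≠ 0 := fun h0 => hp _ hdisc h0 hEd
      by_cases hou : ord c u < 0
      · -- pole of u
        have hsum : ord c v + ord c v = ord c u + ord c u + ord c u := by
          have e1 : ord c (v ^ 2) = ord c v + ord c v := by rw [pow_two, omul c v v hv hv]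
          have e2 : ord c (u ^ 3) = ord c u + ord c u + ord c u := by
            have : u ^ 3 = u * u * u := by ring
            rw [this, omul c _ _ (mul_ne_zero hu0 hu0) hu0, omul c _ _ hu0 hu0]
          have hu3 : u ^ 3 ≠ 0 := pow_ne_zero 3 hu0
          have hv2 : v ^ 2 ≠ 0 := pow_ne_zero 2 hv
          -- the rest r = a u + b
          by_cases hr : pz a * u + pz b = 0
          · have : v ^ 2 = u ^ 3 := by
              rw [heq, add_assoc, hr, add_zero]
            rw [← e1, this, e2]
          · have hro : ord c u ≤ ord c (pz a * u + pz b) := by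
              by_cases ha0 : a = 0
              · subst ha0
                rw [map_zero, zero_mul, zero_add] at hr ⊢
                have hb0 : b ≠ 0 := pz_ne_zero.1 hr
                rw [opz c b hb0]
                have : (0 : ℤ) ≤ (b.rootMultiplicity c : ℤ) := by positivity
                linarith
              · have haK : pz a ≠ 0 := pz_ne_zero.2 ha0
                have h1 : ord c (pz a * u) = (a.rootMultiplicity c : ℤ) + ord c u := by
                  rw [omul c _ _ haK hu0, opz c a ha0]
                have h2 : (0 : ℤ) ≤ (a.rootMultiplicity c : ℤ) := by positivity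
                by_cases hb0 : b = 0
                · subst hb0
                  rw [map_zero, add_zero, h1]
                  linarith
                · have hbK : pz b ≠ 0 := pz_ne_zero.2 hb0
                  have h3 := oadd c (pz a * u) (pz b) (mul_ne_zero haK hu0) hbK hr
                  rw [h1, opz c b hb0] at h3
                  have h4 : (0 : ℤ) ≤ (b.rootMultiplicity c : ℤ) := by positivity
                  refine le_trans ?_ h3
                  refine le_min ?_ ?_
                  · linarith
                  · linarith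
            have hge : ord c u + ord c u + ord c u ≤ ord c (v ^ 2) := by
              have h3 := oadd c (u ^ 3) (pz a * u + pz b) hu3 hr (by
                rw [← add_assoc, ← heq]; exact hv2)
              rw [← add_assoc, ← heq, e2] at h3
              refine le_trans ?_ h3
              refine le_min le_rfl ?_
              linarith
            have hle : ord c (v ^ 2) ≤ ord c u + ord c u + ord c u := by
              have hneg : u ^ 3 = v ^ 2 + -(pz a * u + pz b) := by rw [heq]; ring
              have hm1 : ord c (-(pz a * u + pz b)) = ord c (pz a * u + pz b) := by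
                have e : -(pz a * u + pz b) = pz (C (-1)) * (pz a * u + pz b) := by
                  rw [pz_C]; simp
                have h0 : (C (-1) : ℂ[X]) ≠ 0 := by simp
                rw [e, omul c _ _ (pz_ne_zero.2 h0) hr, opz c _ h0, rootMultiplicity_C]
                simp
              have h3 := oadd c (v ^ 2) (-(pz a * u + pz b)) hv2 (neg_ne_zero.2 hr) (by
                rw [← hneg]; exact hu3)
              rw [← hneg, hm1, e2] at h3
              rcases min_le_iff.1 h3 with h4 | h4
              · exact h4
              · linarith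
            rw [← e1]
            linarith
        have h1 := (hODR E hE' c u hu).2.1
        rw [hordth c] at h1
        omega
      · push Not at hou
        have ru : Rg c u := ord_nonneg_iff.1 hou
        have rv2 : Rg c (v ^ 2) := by
          rw [heq]
          exact (rg_vl_add (rg_vl_add (rg_vl_pow ru 3).1 (rg_vl_mul (rg_pz c a) ru).1).1
            (rg_pz c b)).1
        have rv : Rg c v := by
          rw [← ord_nonneg_iff] at rv2 ⊢
          rw [pow_two, omul c v v hv hv] at rv2
          linarith
        have rEu : Rg c (E u) := ord_nonneg_iff.1 ((hODR E hE' c u hu).1 hou)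
        have rEv : Rg c (E v) := by
          by_cases h0 : E v = 0
          · rw [h0]; exact rg_zero c
          · exact ord_nonneg_iff.1 ((hODR E hE' c v h0).1 (ord_nonneg_iff.2 rv))
        have key : (E u / v) ^ 2 = ((3 * u ^ 2 + 4 * pz a) * (2 * E v) ^ 2 -
            27 * (u ^ 3 + pz a * u - pz b) * (E u) ^ 2) / pz (4 * a ^ 3 + 27 * b ^ 2) := by
          rw [eq_div_iff (pz_ne_zero.2 hdisc), map_add, map_mul, map_mul, map_pow, map_pow,
            map_ofNat, map_ofNat]
          have hid : (4 * (pz a) ^ 3 + 27 * (pz b) ^ 2) =
              (3 * u ^ 2 + 4 * pz a) * (3 * u ^ 2 + pz a) ^ 2 -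
              27 * (u ^ 3 + pz a * u - pz b) * v ^ 2 := by
            rw [heq]; ring
          rw [hid]
          have h5 : (E u / v) * (3 * u ^ 2 + pz a) = 2 * E v := by
            rw [div_mul_eq_mul_div, div_eq_iff hv]
            linear_combination hd
          calc (E u / v) ^ 2 * ((3 * u ^ 2 + 4 * pz a) * (3 * u ^ 2 + pz a) ^ 2 -
              27 * (u ^ 3 + pz a * u - pz b) * v ^ 2)
              = (3 * u ^ 2 + 4 * pz a) * ((E u / v) * (3 * u ^ 2 + pz a)) ^ 2 -
                27 * (u ^ 3 + pz a * u - pz b) * ((E u / v) * v) ^ 2 := by ring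
            _ = _ := by rw [h5, hthv]
        have r2 : Rg c (2 : K) := by
          have := rg_pz c 2
          rwa [map_ofNat] at this
        have r3 : Rg c (3 : K) := by
          have := rg_pz c 3
          rwa [map_ofNat] at this
        have r4 : Rg c (4 : K) := by
          have := rg_pz c 4
          rwa [map_ofNat] at this
        have r27 : Rg c (27 : K) := by
          have := rg_pz c 27
          rwa [map_ofNat] at this
        have ra := rg_pz c a
        have rb := rg_pz c b
        have rnum : Rg c ((3 * u ^ 2 + 4 * pz a) * (2 * E v) ^ 2 -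
            27 * (u ^ 3 + pz a * u - pz b) * (E u) ^ 2) := by
          refine (rg_vl_sub ?_ ?_).1
          · exact (rg_vl_mul (rg_vl_add (rg_vl_mul r3 (rg_vl_pow ru 2).1).1
              (rg_vl_mul r4 ra).1).1 (rg_vl_pow (rg_vl_mul r2 rEv).1 2).1).1
          · exact (rg_vl_mul (rg_vl_mul r27 (rg_vl_sub (rg_vl_add (rg_vl_pow ru 3).1
              (rg_vl_mul ra ru).1).1 rb).1).1 (rg_vl_pow rEu 2).1).1
        have rth2 : Rg c ((E u / v) ^ 2) := by
          rw [key]
          exact (rg_vl_div rnum (rg_pz c _) (by rw [vl_pz]; exact hdc)).1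
        rw [← ord_nonneg_iff, pow_two, omul c _ _ hth0 hth0] at rth2
        linarith
  obtain ⟨t, ht⟩ := opoly (E u / v) hth0 hreg
  have ht0 : t ≠ 0 := by
    rintro rfl
    rw [map_zero] at ht
    exact hth0 ht
  -- at infinity
  have hX : (RatFunc.X : K) ≠ 0 := RatFunc.X_ne_zero
  have hXl : ((RatFunc.X : K) ^ l)⁻¹ ≠ 0 := inv_ne_zero (pow_ne_zero l hX)
  have hXdeg : (((RatFunc.X : K) ^ l)⁻¹).intDegree = -(l : ℤ) := by
    have e : (RatFunc.X : K) ^ l = pz (X ^ l) := by rw [map_pow, pz_X]
    rw [RatFunc.intDegree_inv, e, RatFunc.intDegree_polynomial, natDegree_X_pow]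
  have wE : ∀ y : K, (((RatFunc.X : K) ^ l)⁻¹ • E) y = ((RatFunc.X : K) ^ l)⁻¹ * E y := fun y => rfl
  have hL := hLOC (fun y => -(y.intDegree)) (((RatFunc.X : K) ^ l)⁻¹ • E) (pz a) (pz b) u v
    (fun x y hx hy => by
      show -(x * y).intDegree = -x.intDegree + -y.intDegree
      rw [RatFunc.intDegree_mul hx hy]; ring)
    (fun x y hx hy hxy => by
      show min (-x.intDegree) (-y.intDegree) ≤ -(x + y).intDegree
      have := RatFunc.intDegree_add_le hy hxy
      rw [min_neg_neg]
      linarith)
    (by
      show -(2 : K).intDegree = 0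
      have : (2 : K) = pz 2 := by rw [map_ofNat]
      rw [this, RatFunc.intDegree_polynomial]
      have h2 : (2 : ℂ[X]) = C 2 := by rw [map_ofNat]
      rw [h2, natDegree_C]
      simp)
    (by
      show -(3 : K).intDegree = 0
      have : (3 : K) = pz 3 := by rw [map_ofNat]
      rw [this, RatFunc.intDegree_polynomial]
      have h2 : (3 : ℂ[X]) = C 3 := by rw [map_ofNat]
      rw [h2, natDegree_C]
      simp)
    (fun y hy => by
      rw [wE] at hy
      show -y.intDegree ≤ -((((RatFunc.X : K) ^ l)⁻¹ • E) y).intDegree
      have hy' : E y ≠ 0 := right_ne_zero_of_mul hy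
      rw [wE, RatFunc.intDegree_mul hXl hy', hXdeg]
      have := hIDR E l hE y hy'
      linarith)
    (by rw [wE, ha, mul_zero]) (by rw [wE, hb, mul_zero]) heq hv
    (by rw [wE]; exact mul_ne_zero hXl hu)
  have hdegt : (E u).intDegree = (t.natDegree : ℤ) + v.intDegree := by
    rw [← hthv, ht, RatFunc.intDegree_mul (pz_ne_zero.2 ht0) hv, RatFunc.intDegree_polynomial]
  rw [wE, RatFunc.intDegree_mul hXl hu, hXdeg, hdegt, RatFunc.intDegree_polynomial,
    RatFunc.intDegree_polynomial] at hL
  have ht1 : (0 : ℤ) ≤ (t.natDegree : ℤ) := by positivity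
  rcases hdeg with h | h
  · have ha0 : a ≠ 0 := by
      rintro rfl
      simp at h
    have h1 := hL.1 (pz_ne_zero.2 ha0)
    have h2 : (4 * l : ℤ) < (a.natDegree : ℤ) := by exact_mod_cast h
    linarith
  · have hb0 : b ≠ 0 := by
      rintro rfl
      simp at h
    have h1 := hL.2 (pz_ne_zero.2 hb0)
    have h2 : (6 * l : ℤ) < (b.natDegree : ℤ) := by exact_mod_cast h
    linarith

end EVR
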