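import Pool.Agent.EVR.Api

/-!
# Squad EVR: module ODR (orders of derivatives)
-/

set_option autoImplicit false

namespace EVR

open Polynomial

noncomputable section

namespace ODR_

theorem e_pow (E : Derivation ℤ K K) (d : ℂ[X] → ℂ[X]) (hd : ∀ p, E (pz p) = pz (d p))
    (u g : ℂ[X]) (n : ℕ) :
    d (u ^ (n + 1) * g) = u ^ n * (C ((n : ℂ) + 1) * d u * g + u * d g) := by
  rw [← pz_inj, ← hd, map_mul, Derivation.leibniz, map_pow, Derivation.leibniz_pow, hd, hd]
  simp only [smul_eq_mul, nsmul_eq_mul, Nat.add_sub_cancel, map_mul, map_add, map_pow]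
  have h : (pz (C (n : ℂ)) : K) = (n : K) := by
    rw [show (C (n : ℂ) : ℂ[X]) = (n : ℂ[X]) by simp, map_natCast]
  rw [h, C_1, map_one]
  push_cast
  ring

theorem dvd_a (E : Derivation ℤ K K) (d : ℂ[X] → ℂ[X]) (hd : ∀ p, E (pz p) = pz (d p))
    (u p : ℂ[X]) (n : ℕ) (h : u ^ n ∣ p) : u ^ (n - 1) ∣ d p := by
  rcases n with _ | n
  · simp
  · obtain ⟨g, rfl⟩ := h
    rw [e_pow E d hd]
    exact dvd_mul_right _ _

theorem dvd_b (E : Derivation ℤ K K) (d : ℂ[X] → ℂ[X]) (hd : ∀ p, E (pz p) = pz (d p))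
    (u p : ℂ[X]) (hu : u ∣ d u) (n : ℕ) (h : u ^ n ∣ p) : u ^ n ∣ d p := by
  rcases n with _ | n
  · simp
  · obtain ⟨g, rfl⟩ := h
    rw [e_pow E d hd, pow_succ]
    refine mul_dvd_mul dvd_rfl (dvd_add ?_ (dvd_mul_right _ _))
    exact ((hu.mul_left _).mul_right _)

theorem du (E : Derivation ℤ K K) (d : ℂ[X] → ℂ[X]) (hd : ∀ p, E (pz p) = pz (d p))
    (c : ℂ) (P : ℂ[X]) (hP : P ≠ 0) (hc : P.eval c = 0) (hE : E (pz P) = 0) :
    (X - C c) ∣ d (X - C c) := by
  obtain ⟨g, hg, hg2⟩ := exists_eq_pow_rootMultiplicity_mul_and_not_dvd P hP c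
  have hm : 0 < P.rootMultiplicity c := (rootMultiplicity_pos hP).2 hc
  obtain ⟨m, hm'⟩ := Nat.exists_eq_succ_of_ne_zero hm.ne'
  rw [hm', Nat.succ_eq_add_one] at hg
  have h0 : d P = 0 := by
    rw [hd] at hE
    exact pz_inj.1 (by rw [hE, map_zero])
  rw [hg, e_pow E d hd] at h0
  have hu : (X - C c : ℂ[X]) ≠ 0 := X_sub_C_ne_zero c
  rcases mul_eq_zero.1 h0 with h | h
  · exact absurd h (pow_ne_zero m hu)
  · have h1 : (X - C c) ∣ C ((m : ℂ) + 1) * d (X - C c) * g := by
      rw [eq_neg_of_add_eq_zero_left h]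
      exact (dvd_mul_right _ _).neg_right
    have hpr : Prime (X - C c : ℂ[X]) := prime_X_sub_C c
    rcases hpr.dvd_or_dvd h1 with h2 | h2
    · rcases hpr.dvd_or_dvd h2 with h3 | h3
      · exfalso
        rw [dvd_iff_isRoot] at h3
        simp only [IsRoot.def, eval_C] at h3
        exact (Nat.cast_add_one_ne_zero m) h3
      · exact h3
    · exact absurd h2 hg2

end ODR_

open ODR_ in
theorem odr_proof (hORD : Stmt_ORD) : Stmt_ODR := by
  intro E hE c y hEy
  obtain ⟨hmul, -, hpz, -⟩ := hORD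
  choose d hd using hE
  have hy : y ≠ 0 := by
    rintro rfl
    exact hEy (map_zero E)
  set p := y.num with hp
  set q := y.denom with hq
  have hp0 : p ≠ 0 := RatFunc.num_ne_zero hy
  have hq0 : q ≠ 0 := RatFunc.denom_ne_zero y
  have hyq : y * pz q = pz p := mul_denom y
  set N := q * d p - p * d q with hN
  have key : E y * pz (q ^ 2) = pz N := by
    have h1 := congrArg E hyq
    rw [Derivation.leibniz, hd, hd, smul_eq_mul, smul_eq_mul] at h1
    have h2 : pz N = pz q * pz (d p) - pz p * pz (d q) := by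
      rw [hN, map_sub, map_mul, map_mul]
    rw [h2, ← h1, ← hyq, map_pow]
    ring
  have hN0 : N ≠ 0 := by
    rw [← pz_ne_zero, ← key]
    exact mul_ne_zero hEy (pz_ne_zero.2 (pow_ne_zero 2 hq0))
  have hord : ord c (E y) = (N.rootMultiplicity c : ℤ) - 2 * (q.rootMultiplicity c : ℤ) := by
    have h1 := hmul c (E y) (pz (q ^ 2)) hEy (pz_ne_zero.2 (pow_ne_zero 2 hq0))
    rw [key, hpz c N hN0, hpz c (q ^ 2) (pow_ne_zero 2 hq0)] at h1
    have h2 : (q ^ 2).rootMultiplicity c = 2 * q.rootMultiplicity c := by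
      rw [pow_two, rootMultiplicity_mul (mul_ne_zero hq0 hq0)]
      ring
    rw [h2] at h1
    push_cast at h1
    linarith
  have hordy : ord c y = (p.rootMultiplicity c : ℤ) - (q.rootMultiplicity c : ℤ) := rfl
  have ha : (X - C c) ^ (p.rootMultiplicity c) ∣ p := pow_rootMultiplicity_dvd p c
  have hb : (X - C c) ^ (q.rootMultiplicity c) ∣ q := pow_rootMultiplicity_dvd q c
  set a := p.rootMultiplicity c with ha'
  set b := q.rootMultiplicity c with hb'
  refine ⟨?_, ?_, ?_⟩
  · intro h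
    rw [hordy] at h
    have hb0 : b = 0 := by
      by_contra hb1
      have hbpos : 0 < b := Nat.pos_of_ne_zero hb1
      have hapos : 0 < a := by omega
      have r1 : p.eval c = 0 := (rootMultiplicity_pos hp0).1 hapos
      have r2 : q.eval c = 0 := (rootMultiplicity_pos hq0).1 hbpos
      obtain ⟨s, t, hst⟩ := RatFunc.isCoprime_num_denom y
      have := congrArg (Polynomial.eval c) hst
      rw [eval_add, eval_mul, eval_mul, eval_one] at this
      change _ * p.eval c + _ * q.eval c = 1 at this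
      rw [r1, r2] at this
      simp at this
    rw [hord, hb0]
    simp
  · rw [hord, hordy]
    have h1 : (X - C c) ^ (a + b - 1) ∣ N := by
      have e1 := dvd_a E d hd (X - C c) p a ha
      have e2 := dvd_a E d hd (X - C c) q b hb
      rw [hN]
      refine dvd_sub ?_ ?_
      · refine dvd_trans ?_ (mul_dvd_mul hb e1)
        rw [← pow_add]
        exact pow_dvd_pow _ (by omega)
      · refine dvd_trans ?_ (mul_dvd_mul ha e2)
        rw [← pow_add]
        exact pow_dvd_pow _ (by omega)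
    have h2 := (le_rootMultiplicity_iff hN0).2 h1
    omega
  · rintro ⟨P, hP, hPc, hPE⟩
    have hu := du E d hd c P hP hPc hPE
    rw [hord, hordy]
    have h1 : (X - C c) ^ (a + b) ∣ N := by
      have e1 := dvd_b E d hd (X - C c) p hu a ha
      have e2 := dvd_b E d hd (X - C c) q hu b hb
      rw [hN]
      refine dvd_sub ?_ ?_
      · refine dvd_trans ?_ (mul_dvd_mul hb e1)
        rw [← pow_add]
        exact pow_dvd_pow _ (by omega)
      · refine dvd_trans ?_ (mul_dvd_mul ha e2)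
        rw [← pow_add]
    have h2 := (le_rootMultiplicity_iff hN0).2 h1
    omega

end

end EVR
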