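import Pool.Agent.EVR.Api

/-!
ORD: properties of `ord`.
-/

set_option autoImplicit false

namespace EVR

open Polynomial

noncomputable section

namespace ORD_

theorem pz_inj {p q : ℂ[X]} (h : pz p = pz q) : p = q := RatFunc.algebraMap_injective ℂ h

theorem pz_ne {p : ℂ[X]} (h : p ≠ 0) : pz p ≠ 0 := fun h' => h (pz_inj (by rw [h', map_zero]))

/-- the order from any representation -/
theorem ord_eq {c : ℂ} {y : K} {p q : ℂ[X]} (hp : p ≠ 0) (hq : q ≠ 0) (h : y * pz q = pz p) :
    ord c y = (p.rootMultiplicity c : ℤ) - (q.rootMultiplicity c : ℤ) := by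
  have hd : y.denom ≠ 0 := RatFunc.denom_ne_zero y
  have hy : y ≠ 0 := by
    rintro rfl
    rw [zero_mul] at h
    exact pz_ne hp h.symm
  have hn : y.num ≠ 0 := RatFunc.num_ne_zero hy
  have h1 : y * pz y.denom = pz y.num := by
    have h2 := RatFunc.num_div_denom y
    rw [div_eq_iff (pz_ne hd)] at h2
    exact h2.symm
  have h3 : y.num * q = p * y.denom := by
    apply pz_inj
    rw [map_mul, map_mul, ← h1, ← h]
    ring
  have h4 := congrArg (Polynomial.rootMultiplicity c) h3
  rw [Polynomial.rootMultiplicity_mul (mul_ne_zero hn hq),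
    Polynomial.rootMultiplicity_mul (mul_ne_zero hp hd)] at h4
  unfold ord
  omega

theorem rep (y : K) : y * pz y.denom = pz y.num := by
  have h2 := RatFunc.num_div_denom y
  rw [div_eq_iff (pz_ne (RatFunc.denom_ne_zero y))] at h2
  exact h2.symm

end ORD_

open ORD_ in
theorem ord_proof : Stmt_ORD := by
  refine ⟨?_, ?_, ?_, ?_⟩
  · intro c x y hx hy
    have h1 := rep x
    have h2 := rep y
    have e : x * y * pz (x.denom * y.denom) = pz (x.num * y.num) := by
      rw [map_mul, map_mul, ← h1, ← h2]
      ring
    have nx := RatFunc.num_ne_zero hx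
    have ny := RatFunc.num_ne_zero hy
    have dx := RatFunc.denom_ne_zero x
    have dy := RatFunc.denom_ne_zero y
    rw [ord_eq (mul_ne_zero nx ny) (mul_ne_zero dx dy) e,
      Polynomial.rootMultiplicity_mul (mul_ne_zero nx ny),
      Polynomial.rootMultiplicity_mul (mul_ne_zero dx dy)]
    unfold ord
    push_cast
    ring
  · intro c x y hx hy hxy
    have h1 := rep x
    have h2 := rep y
    have nx := RatFunc.num_ne_zero hx
    have ny := RatFunc.num_ne_zero hy
    have dx := RatFunc.denom_ne_zero x
    have dy := RatFunc.denom_ne_zero y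
    have e : (x + y) * pz (x.denom * y.denom) = pz (x.num * y.denom + y.num * x.denom) := by
      rw [map_mul, map_add, map_mul, map_mul, ← h1, ← h2]
      ring
    have hs : x.num * y.denom + y.num * x.denom ≠ 0 := by
      intro h
      rw [h, map_zero] at e
      rcases mul_eq_zero.1 e with h' | h'
      · exact hxy h'
      · exact pz_ne (mul_ne_zero dx dy) h'
    rw [ord_eq hs (mul_ne_zero dx dy) e, Polynomial.rootMultiplicity_mul (mul_ne_zero dx dy)]
    have h3 := Polynomial.rootMultiplicity_add (a := c) hs
    rw [Polynomial.rootMultiplicity_mul (mul_ne_zero nx dy),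
      Polynomial.rootMultiplicity_mul (mul_ne_zero ny dx)] at h3
    unfold ord
    push_cast
    omega
  · intro c p hp
    have e : pz p * pz 1 = pz p := by rw [map_one, mul_one]
    rw [ord_eq hp one_ne_zero e]
    have : (1 : ℂ[X]).rootMultiplicity c = 0 := by
      rw [show (1 : ℂ[X]) = C 1 from rfl]
      exact Polynomial.rootMultiplicity_C 1 c
    rw [this]
    simp
  · intro y hy h
    refine ⟨y.num, ?_⟩
    have h1 := rep y
    have hm : y.denom.Monic := RatFunc.monic_denom y
    have hd : y.denom = 1 := by
      by_contra hne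
      have hdeg : y.denom.degree ≠ 0 := by
        intro h0
        exact hne (hm.natDegree_eq_zero.1 (Polynomial.natDegree_eq_zero_iff_degree_le_zero.2 h0.le))
      obtain ⟨c, hc⟩ := IsAlgClosed.exists_root y.denom hdeg
      have hcop : IsCoprime y.num y.denom := RatFunc.isCoprime_num_denom y
      have hn : ¬ y.num.IsRoot c := by
        intro hn
        obtain ⟨a, b, hab⟩ := hcop
        have := congrArg (Polynomial.eval c) hab
        rw [Polynomial.eval_add, Polynomial.eval_mul, Polynomial.eval_mul, hn.eq_zero, hc.eq_zero,
          mul_zero, mul_zero, add_zero, Polynomial.eval_one] at this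
        exact zero_ne_one this
      have h2 := h c
      unfold ord at h2
      have h3 : y.num.rootMultiplicity c = 0 := Polynomial.rootMultiplicity_eq_zero hn
      have h4 : 0 < y.denom.rootMultiplicity c :=
        (Polynomial.rootMultiplicity_pos (RatFunc.denom_ne_zero y)).2 hc
      rw [h3] at h2
      omega
    rw [hd, map_one, mul_one] at h1
    exact h1

end

end EVR
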