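import Pool.Agent.EVR.Api

/-!
# Squad EVR, module PFD: the elements with `PP` form a relatively algebraically closed subfield
-/

set_option autoImplicit false

namespace EVR

open Polynomial

noncomputable section

namespace PFD_

/-- the good values of `c` -/
def Good (k : Subfield ℂ) (f : ℂ[X]) (y : K) (c : ℂ) : Prop :=
  Rg c y ∧ IsAlgebraic (ad k {f.eval c}) (vl c y)

theorem pp_of {k : Subfield ℂ} {f : ℂ[X]} {y : K} {E : Set ℂ} (hE : E.Finite)
    (h : ∀ c ∈ k, c ∉ E → Good k f y c) : PP k f y := by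
  refine hE.subset ?_
  rintro c ⟨hc, h'⟩
  by_contra hcE
  exact h' (h c hc hcE)

theorem good_of_notMem {k : Subfield ℂ} {f : ℂ[X]} {y : K} {c : ℂ} (hc : c ∈ k)
    (h : c ∉ {c : ℂ | c ∈ k ∧ ¬ (Rg c y ∧ IsAlgebraic (ad k {f.eval c}) (vl c y))}) :
    Good k f y c := by
  by_contra h'
  exact h ⟨hc, h'⟩

theorem pp_add {k : Subfield ℂ} {f : ℂ[X]} {x y : K} (hx : PP k f x) (hy : PP k f y) :
    PP k f (x + y) := by
  refine pp_of (hx.union hy) fun c hc h => ?_
  have h1 := good_of_notMem hc fun h' => h (Or.inl h')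
  have h2 := good_of_notMem hc fun h' => h (Or.inr h')
  have h3 := rg_vl_add h1.1 h2.1
  refine ⟨h3.1, ?_⟩
  rw [h3.2]
  exact h1.2.add h2.2

theorem pp_mul {k : Subfield ℂ} {f : ℂ[X]} {x y : K} (hx : PP k f x) (hy : PP k f y) :
    PP k f (x * y) := by
  refine pp_of (hx.union hy) fun c hc h => ?_
  have h1 := good_of_notMem hc fun h' => h (Or.inl h')
  have h2 := good_of_notMem hc fun h' => h (Or.inr h')
  have h3 := rg_vl_mul h1.1 h2.1
  refine ⟨h3.1, ?_⟩
  rw [h3.2]
  exact h1.2.mul h2.2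

theorem pp_neg {k : Subfield ℂ} {f : ℂ[X]} {x : K} (hx : PP k f x) : PP k f (-x) := by
  refine pp_of hx fun c hc h => ?_
  have h1 := good_of_notMem hc h
  have h3 := rg_vl_neg h1.1
  refine ⟨h3.1, ?_⟩
  rw [h3.2]
  exact h1.2.neg

theorem pp_zero (k : Subfield ℂ) (f : ℂ[X]) : PP k f 0 := by
  refine pp_of Set.finite_empty fun c _ _ => ⟨rg_zero c, ?_⟩
  rw [vl_zero]
  exact isAlgebraic_of_mem (zero_mem _)

theorem pp_one (k : Subfield ℂ) (f : ℂ[X]) : PP k f 1 := by
  refine pp_of Set.finite_empty fun c _ _ => ⟨rg_one c, ?_⟩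
  rw [vl_one]
  exact isAlgebraic_of_mem (one_mem _)

theorem pp_inv {k : Subfield ℂ} {f : ℂ[X]} {x : K} (hx : PP k f x) : PP k f x⁻¹ := by
  by_cases h0 : x = 0
  · subst h0
    rw [inv_zero]
    exact pp_zero k f
  · refine pp_of (hx.union (finite_vl_eq_zero h0)) fun c hc h => ?_
    have h1 := good_of_notMem hc fun h' => h (Or.inl h')
    have h2 : Rg c x ∧ vl c x ≠ 0 := by
      by_contra h'
      exact h (Or.inr h')
    have h3 := rg_vl_inv h2.1 h2.2
    refine ⟨h3.1, ?_⟩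
    rw [h3.2]
    exact h1.2.inv

/-- the subfield of the elements with `PP` -/
def QQ (k : Subfield ℂ) (f : ℂ[X]) : Subfield K where
  carrier := {y | PP k f y}
  mul_mem' := fun hx hy => pp_mul hx hy
  one_mem' := pp_one k f
  add_mem' := fun hx hy => pp_add hx hy
  zero_mem' := pp_zero k f
  neg_mem' := fun hx => pp_neg hx
  inv_mem' := fun _ hx => pp_inv hx

theorem mem_QQ {k : Subfield ℂ} {f : ℂ[X]} {y : K} : y ∈ QQ k f ↔ PP k f y := Iff.rfl

theorem pp_alg {k : Subfield ℂ} {f : ℂ[X]} {w : K} (hw : IsAlgebraic (QQ k f) w) :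
    PP k f w := by
  obtain ⟨P, hP, hP0, hPw⟩ := isAlgebraic_iff'.1 hw
  have hlc : P.leadingCoeff ≠ 0 := leadingCoeff_ne_zero.2 hP0
  have hfin : (⋃ n ∈ Finset.range (P.natDegree + 1), {c : ℂ | c ∈ k ∧
      ¬ (Rg c (P.coeff n) ∧ IsAlgebraic (ad k {f.eval c}) (vl c (P.coeff n)))}).Finite :=
    Set.Finite.biUnion (Finset.finite_toSet _) fun n _ => hP n
  refine pp_of ((hfin.union (finite_vl_eq_zero hlc)).union (finite_not_rg w)) fun c hc h => ?_
  have hw' : Rg c w := by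
    by_contra h'
    exact h (Or.inr h')
  have hl : Rg c P.leadingCoeff ∧ vl c P.leadingCoeff ≠ 0 := by
    by_contra h'
    exact h (Or.inl (Or.inr h'))
  have hn : ∀ n ∈ Finset.range (P.natDegree + 1), Good k f (P.coeff n) c := by
    intro n hn
    refine good_of_notMem hc fun h' => h (Or.inl (Or.inl ?_))
    exact Set.mem_biUnion (x := n) hn h'
  refine ⟨hw', ?_⟩
  obtain ⟨L, _, hLc, hLa⟩ := exists_acl (ad k {f.eval c})
  rw [← hLa]
  apply hLc
  rw [isAlgebraic_iff]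
  refine ⟨∑ i ∈ Finset.range (P.natDegree + 1), C (vl c (P.coeff i)) * X ^ i, ?_, ?_, ?_⟩
  · intro n
    rw [finsetSum_coeff]
    refine Subfield.sum_mem _ fun i hi => ?_
    rw [coeff_C_mul, coeff_X_pow]
    refine mul_mem ((hLa _).2 (hn i hi).2) ?_
    split_ifs
    · exact one_mem L
    · exact zero_mem L
  · intro h0
    have h1 := congrArg (fun p : ℂ[X] => p.coeff P.natDegree) h0
    simp only [finsetSum_coeff, coeff_C_mul, coeff_X_pow, coeff_zero] at h1
    rw [Finset.sum_eq_single P.natDegree] at h1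
    · rw [if_pos rfl, mul_one] at h1
      exact hl.2 h1
    · intro j _ hj
      rw [if_neg (fun h2 => hj h2.symm), mul_zero]
    · intro h2
      exact absurd (Finset.mem_range.2 (Nat.lt_succ_self _)) h2
  · rw [eval_finsetSum]
    have h1 := rg_vl_sum (c := c) (x := fun i => P.coeff i * w ^ i)
      (Finset.range (P.natDegree + 1))
      fun i hi => (rg_vl_mul (hn i hi).1 (rg_vl_pow hw' i).1).1
    rw [← eval_eq_sum_range, hPw, vl_zero] at h1
    rw [h1.2]
    refine Finset.sum_congr rfl fun i hi => ?_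
    rw [(rg_vl_mul (hn i hi).1 (rg_vl_pow hw' i).1).2, (rg_vl_pow hw' i).2, eval_mul, eval_C,
      eval_pow, eval_X]

end PFD_

open PFD_ in
theorem pfd_proof : Stmt_PFD := by
  intro k f _
  refine ⟨QQ k f, fun y => Iff.rfl, ?_, ?_, fun w hw => pp_alg hw⟩
  · intro y hy
    rw [mem_QQ]
    refine pp_of (vl_mem_of_kZ hy) fun c hc h => ?_
    have h1 : Rg c y ∧ vl c y ∈ k := by
      by_contra h'
      exact h ⟨hc, h'⟩
    exact ⟨h1.1, isAlgebraic_of_mem (le_ad k _ h1.2)⟩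
  · rw [mem_QQ]
    refine pp_of Set.finite_empty fun c _ _ => ⟨rg_pz c f, ?_⟩
    rw [vl_pz]
    exact isAlgebraic_of_mem (mem_ad k rfl)

end

end EVR
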