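import Pool.Agent.EVR.Api

set_option autoImplicit false

namespace EVR

open Polynomial

theorem ppd_proof (hDER : Stmt_DER) (hEXT : Stmt_EXT) (hEVD : Stmt_EVD) : Stmt_PPD := by
  intro k f y l _hk h
  refine ((finite_not_rg y).union (finite_not_rg l)).subset ?_
  rintro c ⟨hc, hn⟩
  by_contra hcon
  rw [Set.mem_union, not_or] at hcon
  have hy : Rg c y := not_not.mp hcon.1
  have hl : Rg c l := not_not.mp hcon.2
  have hna : ¬ IsAlgebraic (ad k {f.eval c}) (vl c y) := fun h' => hn ⟨hy, h'⟩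
  obtain ⟨D, hD, hD1⟩ := hDER (ad k {f.eval c}) (vl c y) hna
  obtain ⟨E, hE, _⟩ := hEXT.2 D
  have hDk : ∀ z ∈ k, D z = 0 := fun z hz => hD z (le_ad k _ hz)
  have h1 := h D E hE hDk
  have h2 := hEVD D E c y hE (hDk c hc) hy
  have h3 := hEVD D E c (pz f) hE (hDk c hc) (rg_pz c f)
  rw [vl_pz, hD _ (mem_ad k (Set.mem_singleton _))] at h3
  have h4 := (rg_vl_mul hl h3.1).2
  rw [← h1, h2.2, h3.2, mul_zero, hD1] at h4
  exact one_ne_zero h4

end EVR

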