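import Pool.Agent.EVR.Api

/-!
# Squad EVR (MP_3e5173_lc): quantifier-free conditions and specialisation
-/

set_option autoImplicit false

namespace EVR

open Polynomial

noncomputable section

namespace QFL_

theorem lift_poly (F : Subfield K) (P : K[X]) (h : Co F P) : ∃ P' : F[X], P'.map F.subtype = P := by
  have h1 : P ∈ Polynomial.lifts F.subtype := by
    rw [Polynomial.lifts_iff_coeff_lifts]
    intro n
    exact ⟨⟨P.coeff n, h n⟩, rfl⟩
  exact (Polynomial.mem_lifts P).1 h1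

theorem co_map (F : Subfield K) (P : F[X]) : Co F (P.map F.subtype) := by
  intro n
  rw [coeff_map]
  exact (P.coeff n).2

theorem lift_mv (F : Subfield K) (ι : Type) (p : MvPolynomial ι K) (h : ∀ m, p.coeff m ∈ F) :
    ∃ p' : MvPolynomial ι F, MvPolynomial.map F.subtype p' = p := by
  have h1 : p ∈ Set.range (MvPolynomial.map (σ := ι) F.subtype) := by
    rw [MvPolynomial.mem_range_map_iff_coeffs_subset]
    intro c hc
    rw [Finset.mem_coe, MvPolynomial.mem_coeffs_iff] at hc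
    obtain ⟨m, _, rfl⟩ := hc
    exact ⟨⟨p.coeff m, h m⟩, rfl⟩
  exact h1

/-- clearing the denominators -/
theorem clear (F : Subfield K) (ι : Type) [Fintype ι] [DecidableEq ι] (P Q : ι → F[X])
    (p : MvPolynomial ι F) :
    ∃ (R : F[X]) (m : ℕ), ∀ h : K, (∀ i, ((Q i).map F.subtype).eval h ≠ 0) →
      (R.map F.subtype).eval h = (∏ i, ((Q i).map F.subtype).eval h) ^ m *
        MvPolynomial.eval (fun i => ((P i).map F.subtype).eval h / ((Q i).map F.subtype).eval h)
          (MvPolynomial.map F.subtype p) := by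
  induction p using MvPolynomial.induction_on with
  | C a =>
    refine ⟨C a, 0, fun h _ => ?_⟩
    simp
  | add p q hp hq =>
    obtain ⟨R1, m1, h1⟩ := hp
    obtain ⟨R2, m2, h2⟩ := hq
    refine ⟨R1 * (∏ i, Q i) ^ m2 + R2 * (∏ i, Q i) ^ m1, m1 + m2, fun h hh => ?_⟩
    simp only [Polynomial.map_add, Polynomial.map_mul, Polynomial.map_pow, Polynomial.map_prod,
      eval_add, eval_mul, eval_pow, eval_prod, h1 h hh, h2 h hh, map_add]
    ring
  | mul_X p i hp =>
    obtain ⟨R, m, h1⟩ := hp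
    refine ⟨R * (P i * ∏ j ∈ Finset.univ.erase i, Q j), m + 1, fun h hh => ?_⟩
    have h2 : ∏ j, ((Q j).map F.subtype).eval h =
        ((Q i).map F.subtype).eval h * ∏ j ∈ Finset.univ.erase i, ((Q j).map F.subtype).eval h :=
      (Finset.mul_prod_erase _ _ (Finset.mem_univ i)).symm
    simp only [Polynomial.map_mul, Polynomial.map_prod, eval_mul, eval_prod, h1 h hh, map_mul,
      MvPolynomial.map_X, MvPolynomial.eval_X]
    rw [pow_succ]
    generalize MvPolynomial.eval (fun i => ((P i).map F.subtype).eval h /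
      ((Q i).map F.subtype).eval h) (MvPolynomial.map F.subtype p) = E
    generalize (∏ j, ((Q j).map F.subtype).eval h) ^ m = W
    rw [h2]
    have h3 := hh i
    field_simp

theorem finite_roots {P : K[X]} (h : P ≠ 0) : {x : K | P.eval x = 0}.Finite := by
  classical
  refine (P.roots.toFinset.finite_toSet).subset fun x hx => ?_
  rw [Finset.mem_coe, Multiset.mem_toFinset, mem_roots h]
  exact hx

theorem atom (F : Subfield K) (g : K) (ι : Type) [Fintype ι] (hg : Tr F g)
    (p : MvPolynomial ι K) (hp : ∀ m, p.coeff m ∈ F) (P Q : ι → K[X])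
    (hPQ : ∀ i, Co F (P i) ∧ Co F (Q i) ∧ (Q i).eval g ≠ 0) :
    ∃ T : Set K, T.Finite ∧ ∀ h : K, h ∉ T → (∀ i, (Q i).eval h ≠ 0) →
      (MvPolynomial.eval (fun i => (P i).eval h / (Q i).eval h) p = 0 ↔
        MvPolynomial.eval (fun i => (P i).eval g / (Q i).eval g) p = 0) := by
  classical
  choose P' hP' using fun i => lift_poly F (P i) (hPQ i).1
  choose Q' hQ' using fun i => lift_poly F (Q i) (hPQ i).2.1
  obtain ⟨p', hp'⟩ := lift_mv F ι p hp
  obtain ⟨R, m, hR⟩ := clear F ι P' Q' p'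
  simp only [hP', hQ', hp'] at hR
  have hg0 := hR g fun i => (hPQ i).2.2
  have key : ∀ h : K, (∀ i, (Q i).eval h ≠ 0) → ((R.map F.subtype).eval h = 0 ↔
      MvPolynomial.eval (fun i => (P i).eval h / (Q i).eval h) p = 0) := by
    intro h hh
    rw [hR h hh, mul_eq_zero, or_iff_right]
    exact pow_ne_zero _ (Finset.prod_ne_zero_iff.mpr fun i _ => hh i)
  by_cases h0 : (R.map F.subtype).eval g = 0
  · have hz := hg _ (co_map F R) h0
    refine ⟨∅, Set.finite_empty, fun h _ hh => ?_⟩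
    rw [← key h hh, ← key g fun i => (hPQ i).2.2, hz]
    simp
  · have hz : R.map F.subtype ≠ 0 := by
      intro hz
      rw [hz, eval_zero] at h0
      exact h0 rfl
    refine ⟨{x | (R.map F.subtype).eval x = 0}, finite_roots hz, fun h hh1 hh => ?_⟩
    rw [← key h hh, ← key g fun i => (hPQ i).2.2]
    exact iff_of_false hh1 h0

theorem main (F : Subfield K) (g : K) (ι : Type) [Fintype ι] (hg : Tr F g)
    (Φ : (ι → K) → Prop) (hΦ : QFO F ι Φ) (P Q : ι → K[X])
    (hPQ : ∀ i, Co F (P i) ∧ Co F (Q i) ∧ (Q i).eval g ≠ 0) :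
    ∃ T : Set K, T.Finite ∧ ∀ h : K, h ∉ T → (∀ i, (Q i).eval h ≠ 0) →
      (Φ (fun i => (P i).eval h / (Q i).eval h) ↔ Φ (fun i => (P i).eval g / (Q i).eval g)) := by
  induction hΦ with
  | zero p hp => exact atom F g ι hg p hp P Q hPQ
  | neg _ ih =>
    obtain ⟨T, hT, h1⟩ := ih
    exact ⟨T, hT, fun h hh hq => not_congr (h1 h hh hq)⟩
  | and _ _ ih ih' =>
    obtain ⟨T, hT, h1⟩ := ih
    obtain ⟨T', hT', h1'⟩ := ih'
    exact ⟨T ∪ T', hT.union hT', fun h hh hq =>
      and_congr (h1 h (fun h2 => hh (Or.inl h2)) hq) (h1' h (fun h2 => hh (Or.inr h2)) hq)⟩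

end QFL_

open QFL_ in
theorem qfl_proof : Stmt_QFL := by
  intro F g ι hι Φ hΦ hg P Q hPQ
  have := Fintype.ofFinite ι
  obtain ⟨T, hT, h1⟩ := main F g ι hg Φ hΦ P Q hPQ
  have hQ : ∀ i, {x : K | (Q i).eval x = 0}.Finite := fun i => finite_roots (by
    intro h
    have h2 := (hPQ i).2.2
    rw [h, eval_zero] at h2
    exact h2 rfl)
  refine ⟨T ∪ ⋃ i, {x : K | (Q i).eval x = 0}, hT.union (Set.finite_iUnion hQ), fun h hh => ?_⟩
  have h2 : ∀ i, (Q i).eval h ≠ 0 := fun i h3 => hh (Or.inr (Set.mem_iUnion.mpr ⟨i, h3⟩))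
  exact ⟨h2, h1 h (fun h3 => hh (Or.inl h3)) h2⟩

end

end EVR
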