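import Pool.Agent.EVR.Api

set_option autoImplicit false

namespace EVR

open Polynomial
open scoped Classical

noncomputable section

namespace QFT_

theorem lift (L : Subfield K) {ι : Type} (P : MvPolynomial ι K) (hP : ∀ m, P.coeff m ∈ L) :
    ∃ P' : MvPolynomial ι L, MvPolynomial.map L.subtype P' = P := by
  have h : P ∈ Set.range (MvPolynomial.map (σ := ι) L.subtype) := by
    rw [MvPolynomial.mem_range_map_iff_coeffs_subset]
    intro c hc
    rw [Finset.mem_coe, MvPolynomial.mem_coeffs_iff] at hc
    obtain ⟨n, _, rfl⟩ := hc
    exact ⟨⟨_, hP n⟩, rfl⟩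
  exact h

end QFT_

theorem qft_proof : Stmt_QFT := by
  intro L ι Φ hΦ y t hy ht
  induction hΦ with
  | zero P hP =>
    obtain ⟨P', rfl⟩ := QFT_.lift L P hP
    let q : Polynomial L := MvPolynomial.eval₂ (Polynomial.C : L →+* Polynomial L)
      (fun o : Option ι => o.elim (Polynomial.X : Polynomial L) (fun i => Polynomial.C ⟨y i, hy i⟩)) P'
    have hq : ∀ s : K, Polynomial.aeval s q
        = MvPolynomial.eval (ext y s) (MvPolynomial.map L.subtype P') := by
      intro s
      rw [MvPolynomial.eval_map]
      show (Polynomial.aeval s : Polynomial L →ₐ[L] K).toRingHom _ = _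
      rw [MvPolynomial.hom_eval₂]
      congr 1
      · ext a
        simp
        rfl
      · funext o
        cases o with
        | none => simp [ext]
        | some i =>
          simp [ext]
          rfl
    by_cases h0 : q = 0
    · have hall : ∀ s : K, MvPolynomial.eval (ext y s) (MvPolynomial.map L.subtype P') = 0 := by
        intro s
        rw [← hq, h0, map_zero]
      have : {t' : K | ¬ (MvPolynomial.eval (ext y t') (MvPolynomial.map L.subtype P') = 0 ↔
          MvPolynomial.eval (ext y t) (MvPolynomial.map L.subtype P') = 0)} = ∅ := by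
        ext t'
        simp [hall]
      rw [this]
      exact Set.finite_empty
    · have ht' : MvPolynomial.eval (ext y t) (MvPolynomial.map L.subtype P') ≠ 0 := by
        rw [← hq]
        intro h
        exact ht ⟨q, h0, h⟩
      have hmap : q.map (algebraMap L K) ≠ 0 := by
        rw [Ne, Polynomial.map_eq_zero]
        exact h0
      apply Set.Finite.subset (q.map (algebraMap L K)).roots.toFinset.finite_toSet
      intro t' h
      simp only [Set.mem_ofPred_eq, ht', iff_false, not_not] at h
      rw [← hq] at h
      simp only [Finset.mem_coe, Multiset.mem_toFinset]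
      rw [Polynomial.mem_roots hmap, Polynomial.IsRoot.def, Polynomial.eval_map_algebraMap]
      exact h
  | neg h ih =>
    apply Set.Finite.subset ih
    intro t' h'
    simp only [Set.mem_ofPred_eq] at h' ⊢
    intro hh
    exact h' (not_congr hh)
  | and h h' ih ih' =>
    apply Set.Finite.subset (ih.union ih')
    intro t' h''
    simp only [Set.mem_ofPred_eq, Set.mem_union] at h'' ⊢
    by_contra hcon
    have h1 : _ := not_or.mp hcon
    exact h'' (and_congr (not_not.mp h1.1) (not_not.mp h1.2))

end

end EVR
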