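import Pool.Agent.EVR.Api

set_option autoImplicit false

namespace EVR

open Polynomial

theorem rac_proof (hPFD : Stmt_PFD) (hGAL : Stmt_GAL) : Stmt_RAC := by
  intro k M d a w hk hunc hd hM ha hw
  obtain ⟨Q, hQ, hkQ, hfQ, hcl⟩ := hPFD k (tp M d a) hk
  have hle : fld k (tp M d a) ≤ Q := by
    refine Subfield.closure_le.2 (Set.union_subset hkQ ?_)
    rintro x rfl
    exact hfQ
  exact hGAL k M d a w hk hunc hd hM ha ((hQ w).1 (hcl w (isAlgebraic_mono' hle hw)))

end EVR
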