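import Pool.Agent.EVR.Api

/-!
# Squad EVR, module RCL: relative algebraic closedness of `k(s)`
-/

set_option autoImplicit false

namespace EVR

open Polynomial

namespace RCL_

theorem eval_vl (P : K[X]) (y : K) (c : ℂ) (hP : ∀ i, Rg c (P.coeff i)) (hy : Rg c y) :
    Rg c (P.eval y) ∧ vl c (P.eval y) =
      ∑ i ∈ Finset.range (P.natDegree + 1), vl c (P.coeff i) * (vl c y) ^ i := by
  rw [eval_eq_sum_range]
  have h1 : ∀ i ∈ Finset.range (P.natDegree + 1), Rg c (P.coeff i * y ^ i) := fun i _ =>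
    (rg_vl_mul (hP i) (rg_vl_pow hy i).1).1
  have h := rg_vl_sum (Finset.range (P.natDegree + 1)) h1
  refine ⟨h.1, ?_⟩
  rw [h.2]
  refine Finset.sum_congr rfl fun i _ => ?_
  rw [(rg_vl_mul (hP i) (rg_vl_pow hy i).1).2, (rg_vl_pow hy i).2]

theorem finite_alg (k : Subfield ℂ) (P : K[X]) (y : K) (hP : ∀ n, P.coeff n ∈ kZ k)
    (hP0 : P ≠ 0) (h0 : P.eval y = 0) :
    {c : ℂ | c ∈ k ∧ ¬ (Rg c y ∧ IsAlgebraic k (vl c y))}.Finite := by
  have hlead : P.coeff P.natDegree ≠ 0 := by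
    rw [Ne, ← leadingCoeff, leadingCoeff_eq_zero]
    exact hP0
  have hfin : ((⋃ i ∈ Finset.range (P.natDegree + 1),
      {c : ℂ | c ∈ k ∧ ¬ (Rg c (P.coeff i) ∧ vl c (P.coeff i) ∈ k)}) ∪
      ({c : ℂ | ¬ Rg c y} ∪ {c : ℂ | ¬ (Rg c (P.coeff P.natDegree) ∧
        vl c (P.coeff P.natDegree) ≠ 0)})).Finite := by
    refine Set.Finite.union ?_ (Set.Finite.union (finite_not_rg y) (finite_vl_eq_zero hlead))
    exact Set.Finite.biUnion (Finset.finite_toSet _) fun i _ => vl_mem_of_kZ (hP i)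
  refine hfin.subset ?_
  rintro c ⟨hc, hcy⟩
  by_contra hcon
  simp only [Set.mem_union, Set.mem_iUnion, not_or, not_exists] at hcon
  obtain ⟨h1, h2, h3⟩ := hcon
  have h2' : Rg c y := by
    by_contra h
    exact h2 h
  have h3' : Rg c (P.coeff P.natDegree) ∧ vl c (P.coeff P.natDegree) ≠ 0 := by
    by_contra h
    exact h3 h
  have h1' : ∀ i, Rg c (P.coeff i) ∧ vl c (P.coeff i) ∈ k := by
    intro i
    by_cases hi : i ∈ Finset.range (P.natDegree + 1)
    · by_contra h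
      exact h1 i hi ⟨hc, h⟩
    · rw [coeff_eq_zero_of_natDegree_lt (by simpa using hi)]
      refine ⟨rg_zero c, ?_⟩
      rw [vl_zero]
      exact zero_mem k
  apply hcy
  refine ⟨h2', ?_⟩
  rw [isAlgebraic_iff]
  refine ⟨∑ i ∈ Finset.range (P.natDegree + 1), C (vl c (P.coeff i)) * X ^ i, ?_, ?_, ?_⟩
  · intro n
    rw [finsetSum_coeff]
    refine Subfield.sum_mem _ fun i _ => ?_
    rw [coeff_C_mul, coeff_X_pow]
    split_ifs
    · rw [mul_one]
      exact (h1' i).2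
    · rw [mul_zero]
      exact zero_mem k
  · intro h
    have := congrArg (fun p => coeff p P.natDegree) h
    simp only [finsetSum_coeff, coeff_C_mul, coeff_X_pow, coeff_zero] at this
    rw [Finset.sum_eq_single P.natDegree] at this
    · simp only [if_true, mul_one] at this
      exact h3'.2 this
    · intro j _ hj
      rw [if_neg (Ne.symm hj), mul_zero]
    · intro hj
      exact absurd (Finset.mem_range.2 (Nat.lt_succ_self _)) hj
  · have h4 := (eval_vl P y c (fun i => (h1' i).1) h2').2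
    rw [h0, vl_zero] at h4
    rw [eval_finsetSum]
    simp only [eval_mul, eval_C, eval_pow, eval_X]
    exact h4.symm

/-- an element of `B(Z)` regular at `s` transcendental over `B`, and its value -/
theorem rg_of_tr (B : Subfield ℂ) (s : ℂ) (hs : ¬ IsAlgebraic B s) (P Q : ℂ[X])
    (hQ : ∀ n, Q.coeff n ∈ B) (hQ0 : Q ≠ 0) :
    Rg s (pz P / pz Q) ∧ vl s (pz P / pz Q) = P.eval s / Q.eval s := by
  have h1 : Q.eval s ≠ 0 := by
    intro h
    exact hs (isAlgebraic_iff.2 ⟨Q, hQ, hQ0, h⟩)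
  exact rg_vl_of_eq h1 (div_mul_cancel₀ _ (pz_ne_zero.2 hQ0))

theorem rg_kZ (B : Subfield ℂ) (s : ℂ) (hs : ¬ IsAlgebraic B s) (y : K) (hy : y ∈ kZ B) :
    Rg s y ∧ (vl s y = 0 → y = 0) := by
  obtain ⟨P, Q, hQ, rfl⟩ := mem_kZ_iff.1 hy
  have hQ' : Q.map B.subtype ≠ 0 := by
    rw [Ne, Polynomial.map_eq_zero]
    exact hQ
  have h := rg_of_tr B s hs (P.map B.subtype) (Q.map B.subtype) (coeff_map_mem Q) hQ'
  refine ⟨h.1, fun h0 => ?_⟩
  rw [h.2, div_eq_zero_iff] at h0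
  rcases h0 with h0 | h0
  · by_cases hP : P.map B.subtype = 0
    · rw [hP, map_zero, zero_div]
    · exact absurd (isAlgebraic_iff.2 ⟨_, coeff_map_mem P, hP, h0⟩) hs
  · exact absurd (isAlgebraic_iff.2 ⟨_, coeff_map_mem Q, hQ', h0⟩) hs

end RCL_

open RCL_ in
theorem rcl_proof (hI : Stmt_INT) : Stmt_RCL := by
  intro k B s z hk hkB hs hz hal
  have hsk : ¬ IsAlgebraic k s := fun h => hs (isAlgebraic_mono hkB h)
  -- the function `y` with value `z` at `s`
  obtain ⟨P, Q, hP, hQ, hQs, hzPQ⟩ := exists_of_mem_ad hz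
  have hQ0 : Q ≠ 0 := by
    rintro rfl
    simp at hQs
  have hy := rg_of_tr B s hs P Q hQ hQ0
  have hyB : pz P / pz Q ∈ kZ B := div_mem (pz_mem_kZ hP) (pz_mem_kZ hQ)
  have hyz : vl s (pz P / pz Q) = z := by rw [hy.2, hzPQ]
  -- the equation
  obtain ⟨H, hH, hH0, hHz⟩ := isAlgebraic_iff.1 hal
  choose A D hA hD hDs hAD using fun i => exists_of_mem_ad (hH i)
  have hD0 : ∀ i, D i ≠ 0 := by
    intro i h
    have := hDs i
    rw [h] at this
    simp at this
  let G : K[X] := ∑ i ∈ Finset.range (H.natDegree + 1), C (pz (A i) / pz (D i)) * X ^ i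
  have hGc : ∀ n, G.coeff n = if n ∈ Finset.range (H.natDegree + 1) then pz (A n) / pz (D n)
      else 0 := by
    intro n
    simp only [G, finsetSum_coeff, coeff_C_mul, coeff_X_pow]
    by_cases hn : n ∈ Finset.range (H.natDegree + 1)
    · rw [if_pos hn, Finset.sum_eq_single n]
      · rw [if_pos rfl, mul_one]
      · intro j _ hj
        rw [if_neg (Ne.symm hj), mul_zero]
      · intro h
        exact absurd hn h
    · rw [if_neg hn]
      refine Finset.sum_eq_zero fun j hj => ?_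
      rw [if_neg, mul_zero]
      rintro rfl
      exact hn hj
  have hGk : ∀ n, G.coeff n ∈ kZ k := by
    intro n
    rw [hGc]
    split_ifs
    · exact div_mem (pz_mem_kZ (hA n)) (pz_mem_kZ (hD n))
    · exact zero_mem _
  have hAD' : ∀ i, Rg s (pz (A i) / pz (D i)) ∧ vl s (pz (A i) / pz (D i)) = H.coeff i := by
    intro i
    have h := rg_of_tr k s hsk (A i) (D i) (hD i) (hD0 i)
    exact ⟨h.1, h.2.trans (hAD i).symm⟩
  have hG0 : G ≠ 0 := by
    intro h
    have h1 := hGc H.natDegree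
    rw [h, coeff_zero, if_pos (Finset.mem_range.2 (Nat.lt_succ_self _))] at h1
    have h2 := (hAD' H.natDegree).2
    rw [← h1, vl_zero] at h2
    apply hH0
    rw [← leadingCoeff_eq_zero, leadingCoeff]
    exact h2.symm
  have hGy : G.eval (pz P / pz Q) = 0 := by
    have h1 : G.eval (pz P / pz Q) = ∑ i ∈ Finset.range (H.natDegree + 1),
        pz (A i) / pz (D i) * (pz P / pz Q) ^ i := by
      simp only [G, eval_finsetSum, eval_mul, eval_C, eval_pow, eval_X]
    have h2 : G.eval (pz P / pz Q) ∈ kZ B := by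
      rw [h1]
      refine Subfield.sum_mem _ fun i _ => mul_mem ?_ (pow_mem hyB i)
      exact kZ_mono hkB (div_mem (pz_mem_kZ (hA i)) (pz_mem_kZ (hD i)))
    refine (rg_kZ B s hs _ h2).2 ?_
    rw [h1]
    have h3 := rg_vl_sum (c := s) (x := fun i => pz (A i) / pz (D i) * (pz P / pz Q) ^ i)
      (Finset.range (H.natDegree + 1))
      (fun i _ => (rg_vl_mul (hAD' i).1 (rg_vl_pow hy.1 i).1).1)
    rw [h3.2]
    rw [eval_eq_sum_range] at hHz
    rw [← hHz]
    refine Finset.sum_congr rfl fun i _ => ?_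
    rw [(rg_vl_mul (hAD' i).1 (rg_vl_pow hy.1 i).1).2, (rg_vl_pow hy.1 i).2, (hAD' i).2, hyz]
  have hfin := finite_alg k G _ hGk hG0 hGy
  have hinf : {c : ℂ | c ∈ k ∧ Rg c (pz P / pz Q) ∧ vl c (pz P / pz Q) ∈ k}.Infinite := by
    have h1 := (hk.infinite).sdiff hfin
    refine h1.mono ?_
    rintro c ⟨hc, hc'⟩
    have h2 : Rg c (pz P / pz Q) ∧ IsAlgebraic k (vl c (pz P / pz Q)) := by
      by_contra h
      exact hc' ⟨hc, h⟩
    exact ⟨hc, h2.1, hk _ h2.2⟩
  have hmem := hI k _ hinf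
  obtain ⟨P', Q', hQ', he⟩ := mem_kZ_iff.1 hmem
  have hQ'' : Q'.map k.subtype ≠ 0 := by
    rw [Ne, Polynomial.map_eq_zero]
    exact hQ'
  have h5 := rg_of_tr k s hsk (P'.map k.subtype) (Q'.map k.subtype) (coeff_map_mem Q') hQ''
  rw [← hyz, he, h5.2]
  have h6 : ∀ R : ℂ[X], (∀ n, R.coeff n ∈ k) → R.eval s ∈ ad k {s} := by
    intro R hR
    rw [eval_eq_sum_range]
    exact Subfield.sum_mem _ fun i _ => mul_mem (le_ad k _ (hR i))
      (pow_mem (mem_ad k (Set.mem_singleton s)) i)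
  exact div_mem (h6 _ (coeff_map_mem P')) (h6 _ (coeff_map_mem Q'))

end EVR
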