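import Pool.Agent.EVR.Api

set_option autoImplicit false

namespace EVR

open Polynomial

theorem rep_proof : Stmt_REP := fun F g y h => by
  obtain ⟨P, Q, h1, h2, h3, h4⟩ := exists_rep F g y h
  exact ⟨P, Q, h1, h2, h3, h4⟩

end EVR
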