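import Pool.Agent.EVR.Api

/-!
# Squad EVR (MP_3e5173_lc), module SPC: specialisation of bounded conditions
-/

set_option autoImplicit false

namespace EVR

open Polynomial

noncomputable section

namespace SPC_

theorem co_C {F : Subfield K} {c : K} (hc : c ∈ F) : Co F (C c) := fun n => by
  rw [coeff_C]
  split_ifs
  · exact hc
  · exact zero_mem F

theorem co_one (F : Subfield K) : Co F (1 : K[X]) := by
  have h := co_C (F := F) (c := 1) (one_mem F)
  rwa [C_1] at h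

theorem co_mono {F F' : Subfield K} (h : F ≤ F') {P : K[X]} (hP : Co F P) : Co F' P :=
  fun n => h (hP n)

theorem eval_mem {F L : Subfield K} (h : F ≤ L) {P : K[X]} (hP : Co F P) {g : K} (hg : g ∈ L) :
    P.eval g ∈ L := by
  rw [eval_eq_sum_range]
  exact Subfield.sum_mem _ fun i _ => mul_mem (h (hP i)) (pow_mem hg i)

/-- the values of polynomials -/
theorem mv_eval_mem {F L : Subfield K} (h : F ≤ L) {ι : Type} {P : MvPolynomial ι K}
    (hP : ∀ m, P.coeff m ∈ F) {y : ι → K} (hy : ∀ i, y i ∈ L) : MvPolynomial.eval y P ∈ L := by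
  rw [MvPolynomial.eval_eq]
  exact Subfield.sum_mem _ fun m _ => mul_mem (h (hP m))
    (prod_mem fun i _ => pow_mem (hy i) _)

/-- lifting polynomials in several variables -/
theorem mv_lift {F : Subfield K} {ι : Type} {P : MvPolynomial ι K} (hP : ∀ m, P.coeff m ∈ F) :
    ∃ P' : MvPolynomial ι F, MvPolynomial.map F.subtype P' = P := by
  refine ⟨∑ m ∈ P.support, MvPolynomial.monomial m (⟨P.coeff m, hP m⟩ : F), ?_⟩
  rw [map_sum]
  conv_rhs => rw [MvPolynomial.as_sum P]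
  refine Finset.sum_congr rfl fun m _ => ?_
  rw [MvPolynomial.map_monomial]
  rfl

/-- the polynomial `G(y)(w)` as a polynomial in all variables -/
theorem exists_H {F : Subfield K} {ι : Type} (G : Polynomial (MvPolynomial ι K))
    (hG : ∀ i m, (G.coeff i).coeff m ∈ F) :
    ∃ H : MvPolynomial (Option ι) K, (∀ m, H.coeff m ∈ F) ∧
      ∀ (y : ι → K) (w : K), MvPolynomial.eval (ext y w) H =
        (G.map (MvPolynomial.eval y)).eval w := by
  choose G' hG' using fun i => mv_lift (hG i)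
  refine ⟨MvPolynomial.map F.subtype (∑ j ∈ Finset.range (G.natDegree + 1),
    MvPolynomial.rename some (G' j) * MvPolynomial.X none ^ j), fun m => ?_, fun y w => ?_⟩
  · rw [MvPolynomial.coeff_map]
    exact SetLike.coe_mem _
  · rw [map_sum, map_sum]
    have h1 : (G.map (MvPolynomial.eval y)).natDegree < G.natDegree + 1 :=
      Nat.lt_succ_of_le natDegree_map_le
    rw [eval_eq_sum_range' h1]
    refine Finset.sum_congr rfl fun j _ => ?_
    rw [map_mul, map_mul, map_pow, map_pow, MvPolynomial.map_X, MvPolynomial.eval_X,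
      MvPolynomial.map_rename, hG' j, MvPolynomial.eval_rename, coeff_map]
    rfl

/-- the family for `ext` -/
def ex {ι : Type} (P : ι → K[X]) (P' : K[X]) : Option ι → K[X] := fun o => o.elim P' P

theorem ext_eq {ι : Type} (P Q : ι → K[X]) (P' Q' : K[X]) (h : K) :
    (fun i => (ex P P' i).eval h / (ex Q Q' i).eval h) =
      ext (fun i => (P i).eval h / (Q i).eval h) (P'.eval h / Q'.eval h) := by
  funext o
  cases o <;> rfl

theorem ex_cond {F : Subfield K} {g : K} {ι : Type} {P Q : ι → K[X]} {P' Q' : K[X]}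
    (h : ∀ i, Co F (P i) ∧ Co F (Q i) ∧ (Q i).eval g ≠ 0)
    (h' : Co F P' ∧ Co F Q' ∧ Q'.eval g ≠ 0) :
    ∀ i, Co F (ex P P' i) ∧ Co F (ex Q Q' i) ∧ (ex Q Q' i).eval g ≠ 0 := by
  intro o
  cases o with
  | none => exact h'
  | some i => exact h i

/-- the induction -/
theorem main (hREP : Stmt_REP) (hQFL : Stmt_QFL) (hQFT : Stmt_QFT) {F : Subfield K} {g : K}
    {d : ℕ} (hTr : Tr F g)
    (hRAC : ∀ w : K, IsAlgebraic (Subfield.closure ((F : Set K) ∪ {g})) w →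
      w ∈ Subfield.closure ((F : Set K) ∪ {g}))
    (hTRC : ∀ (s : ℕ) (c : Fin s → ℂ), s ≤ d →
      ∃ F' : Subfield K, F ≤ F' ∧ (∀ j, cst (c j) ∈ F') ∧ Tr F' g)
    {ι : Type} {Φ : (ι → K) → Prop} (hΦ : BddO F d ι Φ) :
    Finite ι → ∀ P Q : ι → K[X],
      (∀ i, Co F (P i) ∧ Co F (Q i) ∧ (Q i).eval g ≠ 0) →
      Φ (fun i => (P i).eval g / (Q i).eval g) →
      ∃ T : Set K, T.Finite ∧ ∀ h : K, h ∉ T → (∀ i, (Q i).eval h ≠ 0) ∧
        Φ (fun i => (P i).eval h / (Q i).eval h) := by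
  set L : Subfield K := Subfield.closure ((F : Set K) ∪ {g}) with hL
  have hFL : F ≤ L := fun x hx => Subfield.subset_closure (Or.inl hx)
  have hgL : g ∈ L := Subfield.subset_closure (Or.inr rfl)
  have hyL : ∀ {ι : Type} {P Q : ι → K[X]},
      (∀ i, Co F (P i) ∧ Co F (Q i) ∧ (Q i).eval g ≠ 0) →
      ∀ i, (P i).eval g / (Q i).eval g ∈ L := fun {ι P Q} h i =>
    div_mem (eval_mem hFL (h i).1 hgL) (eval_mem hFL (h i).2.1 hgL)
  induction hΦ with
  | @free ι Φ h =>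
    intro _ P Q hPQ ht
    obtain ⟨t, ht⟩ := ht
    -- a good `t` in `L`
    have key : ∃ P' Q' : K[X], Co F P' ∧ Co F Q' ∧ Q'.eval g ≠ 0 ∧
        Φ (ext (fun i => (P i).eval g / (Q i).eval g) (P'.eval g / Q'.eval g)) := by
      by_cases hal : IsAlgebraic L t
      · obtain ⟨P', Q', h1, h2, h3, h4⟩ := hREP F g t (hRAC t hal)
        refine ⟨P', Q', h1, h2, h3, ?_⟩
        rw [← h4]
        exact ht
      · have hfin := hQFT L ι Φ (h.mono hFL) _ t (hyL hPQ) hal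
        have hinf : (Set.range (fun n : ℕ => (n : K))).Infinite :=
          Set.infinite_range_of_injective Nat.cast_injective
        obtain ⟨x, ⟨n, rfl⟩, hx⟩ := (hinf.sdiff hfin).nonempty
        rw [Set.mem_ofPred_eq, not_not] at hx
        refine ⟨C (n : K), 1, co_C (natCast_mem F n), co_one F, by simp, ?_⟩
        rw [eval_C, eval_one, div_one]
        exact hx.2 ht
    obtain ⟨P', Q', h1, h2, h3, h4⟩ := key
    obtain ⟨T, hT, hT'⟩ := hQFL F g (Option ι) Φ h hTr (ex P P') (ex Q Q')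
      (ex_cond hPQ ⟨h1, h2, h3⟩)
    refine ⟨T, hT, fun x hx => ?_⟩
    obtain ⟨h5, h6⟩ := hT' x hx
    rw [ext_eq, ext_eq] at h6
    exact ⟨fun i => h5 (some i), P'.eval x / Q'.eval x, h6.2 h4⟩
  | @const ι s hs Φ h =>
    intro _ P Q hPQ hc
    obtain ⟨c, hc⟩ := hc
    obtain ⟨F', hF', hcF, hTr'⟩ := hTRC s c hs
    obtain ⟨T, hT, hT'⟩ := hQFL F' g (ι ⊕ Fin s) Φ (h.mono hF') hTr'
      (Sum.elim P fun j => C (cst (c j))) (Sum.elim Q fun _ => 1) (by
        rintro (i | j)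
        · exact ⟨co_mono hF' (hPQ i).1, co_mono hF' (hPQ i).2.1, (hPQ i).2.2⟩
        · exact ⟨co_C (hcF j), co_one F', by simp⟩)
    have heq : ∀ x : K, (fun i => ((Sum.elim P fun j => C (cst (c j))) i).eval x /
        ((Sum.elim Q fun _ => (1 : K[X])) i).eval x) =
        Sum.elim (fun i => (P i).eval x / (Q i).eval x) fun j => cst (c j) := by
      intro x
      funext i
      rcases i with i | j
      · rfl
      · simp
    refine ⟨T, hT, fun x hx => ?_⟩
    obtain ⟨h5, h6⟩ := hT' x hx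
    rw [heq, heq] at h6
    exact ⟨fun i => h5 (Sum.inl i), c, h6.2 hc⟩
  | @alg ι G hG Φ h ih =>
    intro _ P Q hPQ hw
    obtain ⟨w, hw0, hw1, hw2⟩ := hw
    have hwL : w ∈ L := by
      apply hRAC
      rw [isAlgebraic_iff']
      refine ⟨_, fun n => ?_, hw0, hw1⟩
      rw [coeff_map]
      exact mv_eval_mem hFL (hG n) (hyL hPQ)
    obtain ⟨P', Q', h1, h2, h3, h4⟩ := hREP F g w hwL
    have hcond := ex_cond hPQ ⟨h1, h2, h3⟩
    obtain ⟨T, hT, hT'⟩ := ih inferInstance (ex P P') (ex Q Q') hcond (by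
      rw [ext_eq, ← h4]
      exact hw2)
    -- the two algebraic conditions
    obtain ⟨n, hn⟩ : ∃ n, MvPolynomial.eval (fun i => (P i).eval g / (Q i).eval g)
        (G.coeff n) ≠ 0 := by
      by_contra hcon
      push Not at hcon
      apply hw0
      ext n
      rw [coeff_map, hcon n, coeff_zero]
    obtain ⟨T1, hT1, hT1'⟩ := hQFL F g ι _ (QFO.zero (G.coeff n) (hG n)) hTr P Q hPQ
    obtain ⟨H, hH, hH'⟩ := exists_H G hG
    obtain ⟨T2, hT2, hT2'⟩ := hQFL F g (Option ι) _ (QFO.zero H hH) hTr (ex P P') (ex Q Q') hcond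
    refine ⟨T ∪ T1 ∪ T2, (hT.union hT1).union hT2, fun x hx => ?_⟩
    have hx0 : x ∉ T := fun hh => hx (Or.inl (Or.inl hh))
    have hx1 : x ∉ T1 := fun hh => hx (Or.inl (Or.inr hh))
    have hx2 : x ∉ T2 := fun hh => hx (Or.inr hh)
    obtain ⟨h5, h6⟩ := hT' x hx0
    obtain ⟨-, h7⟩ := hT1' x hx1
    obtain ⟨-, h8⟩ := hT2' x hx2
    rw [ext_eq] at h6
    rw [ext_eq, ext_eq, hH', hH', ← h4] at h8
    refine ⟨fun i => h5 (some i), P'.eval x / Q'.eval x, ?_, h8.2 hw1, h6⟩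
    intro h0
    have h9 := congrArg (fun p => Polynomial.coeff p n) h0
    simp only [coeff_map, coeff_zero] at h9
    exact hn (h7.1 h9)
  | @and ι Φ Ψ h h' ih ih' =>
    intro hι P Q hPQ hΦ
    obtain ⟨T, hT, hT'⟩ := ih hι P Q hPQ hΦ.1
    obtain ⟨T1, hT1, hT1'⟩ := ih' hι P Q hPQ hΦ.2
    refine ⟨T ∪ T1, hT.union hT1, fun x hx => ?_⟩
    have h1 := hT' x fun hh => hx (Or.inl hh)
    have h2 := hT1' x fun hh => hx (Or.inr hh)
    exact ⟨h1.1, h1.2, h2.2⟩
  | @or ι Φ Ψ h h' ih ih' =>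
    intro hι P Q hPQ hΦ
    rcases hΦ with hΦ | hΦ
    · obtain ⟨T, hT, hT'⟩ := ih hι P Q hPQ hΦ
      exact ⟨T, hT, fun x hx => ⟨(hT' x hx).1, Or.inl (hT' x hx).2⟩⟩
    · obtain ⟨T, hT, hT'⟩ := ih' hι P Q hPQ hΦ
      exact ⟨T, hT, fun x hx => ⟨(hT' x hx).1, Or.inr (hT' x hx).2⟩⟩

end SPC_

theorem spc_proof (hREP : Stmt_REP) (hQFL : Stmt_QFL) (hQFT : Stmt_QFT) (hRAC : Stmt_RAC)
    (hTRC : Stmt_TRC) : Stmt_SPC := by
  intro k M d a hk hunc hd hdM ha ι Φ hΦ hι P Q hPQ h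
  have hT : ∀ (s : ℕ) (c : Fin s → ℂ), s ≤ d →
      ∃ F' : Subfield K, kZ k ≤ F' ∧ (∀ j, cst (c j) ∈ F') ∧ Tr F' (pz (tp M d a)) :=
    fun s c hs => hTRC k M d s a c hk hdM ha hs
  have hTr : Tr (kZ k) (pz (tp M d a)) := by
    obtain ⟨F', h1, -, h2⟩ := hT 0 (fun _ => 0) (Nat.zero_le d)
    exact h2.mono h1
  exact SPC_.main hREP hQFL hQFT hTr (fun w hw => hRAC k M d a w hk hunc hd hdM ha hw) hT hΦ hι
    P Q hPQ h

end

end EVR
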