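import Pool.Agent.EVR.Api

/-!
# Squad EVR (MP_3e5173_lc): module SUB, substitution of `x / Z`
-/

set_option autoImplicit false

namespace EVR

open Polynomial

noncomputable section

namespace SUB_

/-- the scaling substitution -/
def sb {ι : Type} (z : ι → K) : MvPolynomial ι K →ₐ[K] MvPolynomial ι K :=
  MvPolynomial.bind₁ (fun j => MvPolynomial.C (z j) * MvPolynomial.X j)

theorem eval_sb {ι : Type} (z y : ι → K) (P : MvPolynomial ι K) :
    MvPolynomial.eval y (sb z P) = MvPolynomial.eval (fun j => z j * y j) P := by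
  induction P using MvPolynomial.induction_on with
  | C a => simp [sb]
  | add p q hp hq => rw [map_add, map_add, map_add, hp, hq]
  | mul_X p i hp =>
    rw [map_mul, map_mul, map_mul, hp]
    congr 1
    simp [sb]

theorem qf_sb {ι : Type} {Φ : (ι → K) → Prop} (h : QF ι Φ) (z : ι → K) :
    QF ι (fun y => Φ (fun j => z j * y j)) := by
  induction h with
  | zero P =>
    have e : (fun y : ι → K => MvPolynomial.eval (fun j => z j * y j) P = 0) =
        fun y => MvPolynomial.eval y (sb z P) = 0 := by
      funext y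
      rw [eval_sb]
    rw [e]
    exact QF.zero _
  | neg _ ih => exact QF.neg (ih)
  | and _ _ ih ih' => exact QF.and ih ih'

theorem ext_mul {ι : Type} (z y : ι → K) (t : K) :
    ext (fun j => z j * y j) t = fun o => ext z 1 o * ext y t o := by
  funext o
  cases o with
  | none => simp [ext]
  | some j => simp [ext]

theorem elim_mul {ι : Type} {s : ℕ} (z y : ι → K) (c : Fin s → ℂ) :
    (Sum.elim (fun j => z j * y j) (fun j => cst (c j)) : ι ⊕ Fin s → K) =
      fun o => Sum.elim z (fun _ => 1) o * Sum.elim y (fun j => cst (c j)) o := by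
  funext o
  cases o with
  | inl j => simp
  | inr j => simp

theorem bdd_sb {ι : Type} {Φ : (ι → K) → Prop} (h : Bdd ι Φ) :
    ∀ z : ι → K, Bdd ι (fun y => Φ (fun j => z j * y j)) := by
  induction h with
  | @free ι Φ h =>
    intro z
    have e : (fun y : ι → K => ∃ t : K, Φ (ext (fun j => z j * y j) t)) =
        fun y => ∃ t : K, (fun y' : Option ι → K => Φ (fun o => ext z 1 o * y' o)) (ext y t) := by
      funext y
      simp only [ext_mul]
    rw [e]
    exact Bdd.free (qf_sb h _)
  | @const ι s Φ h =>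
    intro z
    have e : (fun y : ι → K => ∃ c : Fin s → ℂ,
        Φ (Sum.elim (fun j => z j * y j) fun j => cst (c j))) =
        fun y => ∃ c : Fin s → ℂ, (fun y' : ι ⊕ Fin s → K =>
          Φ (fun o => Sum.elim z (fun _ => 1) o * y' o)) (Sum.elim y fun j => cst (c j)) := by
      funext y
      simp only [elim_mul]
    rw [e]
    exact Bdd.const s (qf_sb h _)
  | @alg ι G Φ h ih =>
    intro z
    have e : (fun y : ι → K => ∃ w : K, G.map (MvPolynomial.eval (fun j => z j * y j)) ≠ 0 ∧
        (G.map (MvPolynomial.eval (fun j => z j * y j))).eval w = 0 ∧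
        Φ (ext (fun j => z j * y j) w)) =
        fun y => ∃ w : K, (G.map (sb z : MvPolynomial ι K →+* MvPolynomial ι K)).map
          (MvPolynomial.eval y) ≠ 0 ∧
        ((G.map (sb z : MvPolynomial ι K →+* MvPolynomial ι K)).map
          (MvPolynomial.eval y)).eval w = 0 ∧
        (fun y' : Option ι → K => Φ (fun o => ext z 1 o * y' o)) (ext y w) := by
      funext y
      have hm : (MvPolynomial.eval y).comp (sb z : MvPolynomial ι K →+* MvPolynomial ι K) =
          MvPolynomial.eval (fun j => z j * y j) := by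
        exact RingHom.ext fun P => eval_sb z y P
      simp only [ext_mul, Polynomial.map_map, hm]
    rw [e]
    exact Bdd.alg _ (ih _)
  | and _ _ ih ih' => exact fun z => Bdd.and (ih z) (ih' z)
  | or _ _ ih ih' => exact fun z => Bdd.or (ih z) (ih' z)

theorem comp_comp (p : K[X]) {a b : K} (h : a * b = 1) :
    (p.comp (C a * X)).comp (C b * X) = p := by
  rw [Polynomial.comp_assoc]
  have : (C a * X : K[X]).comp (C b * X) = X := by
    rw [mul_comp, C_comp, X_comp, ← mul_assoc, ← C_mul, h, C_1, one_mul]
  rw [this, comp_X]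

theorem comp_ne {p : K[X]} (hp : p ≠ 0) {a b : K} (h : a * b = 1) : p.comp (C a * X) ≠ 0 := by
  intro h0
  apply hp
  rw [← comp_comp p h, h0, zero_comp]

theorem nonconst_comp {A B : K[X]} (hN : Nonconst A B) {a b : K} (h : a * b = 1) :
    Nonconst (A.comp (C a * X)) (B.comp (C a * X)) := by
  refine ⟨?_, ?_⟩
  · have e : 4 * (A.comp (C a * X)) ^ 3 + 27 * (B.comp (C a * X)) ^ 2 =
        (4 * A ^ 3 + 27 * B ^ 2).comp (C a * X) := by
      simp [Polynomial.add_comp, Polynomial.mul_comp, Polynomial.pow_comp]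
    rw [e]
    exact comp_ne hN.disc h
  · rintro l m α β hl hm ⟨h1, h2⟩
    have hb : b * a = 1 := by rw [mul_comm]; exact h
    refine hN.nc (l.comp (C b * X)) (m.comp (C b * X)) α β (comp_ne hl hb) (comp_ne hm hb) ⟨?_, ?_⟩
    · have h3 := congrArg (fun p : K[X] => p.comp (C b * X)) h1
      simp only [mul_comp, pow_comp, C_comp] at h3
      rw [comp_comp A h] at h3
      exact h3
    · have h3 := congrArg (fun p : K[X] => p.comp (C b * X)) h2
      simp only [mul_comp, pow_comp, C_comp] at h3
      rw [comp_comp B h] at h3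
      exact h3

end SUB_

open SUB_ in
theorem sub_proof : Stmt_SUB := by
  rintro D ⟨n, A, B, Φ, hN, hΦ, hD⟩
  have hX : (RatFunc.X : K) ≠ 0 := RatFunc.X_ne_zero
  have hXi : (RatFunc.X : K)⁻¹ * RatFunc.X = 1 := inv_mul_cancel₀ hX
  let z : Option (Fin n ⊕ Fin n) → K := ext (fun _ => 1) (RatFunc.X : K)⁻¹
  refine ⟨n, fun i => (A i).comp (C (RatFunc.X : K)⁻¹ * X),
    fun i => (B i).comp (C (RatFunc.X : K)⁻¹ * X), fun y => Φ (fun j => z j * y j),
    fun i => nonconst_comp (hN i) hXi, bdd_sb hΦ z, ?_⟩
  intro x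
  have hx : x / RatFunc.X = (RatFunc.X : K)⁻¹ * x := by rw [div_eq_mul_inv, mul_comm]
  have he : ∀ u v : Fin n → K, (fun j => z j * ext (Sum.elim u v) x j) =
      ext (Sum.elim u v) (x / RatFunc.X) := by
    intro u v
    funext j
    cases j with
    | none => simp [z, ext, hx]
    | some j => simp [z, ext]
  rw [Set.mem_ofPred_eq, hD]
  refine exists_congr fun u => exists_congr fun v => ?_
  change _ ↔ _ ∧ Φ (fun j => z j * ext (Sum.elim u v) x j)
  rw [he u v]
  refine and_congr_left fun _ => forall_congr' fun i => ?_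
  rw [eval_comp, eval_comp, eval_mul, eval_C, eval_X, hx]

end

end EVR
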