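import Pool.Agent.EVR.Defs

/-!
# Squad EVR (MP_3e5173_lc): statements of the modules.  Recipes: /team-store/MP_3e5173_EVR.md
-/

set_option autoImplicit false

namespace EVR

open Polynomial

/-! ## A. Derivations -/

/-- derivations of `ℂ` over a subfield -/
def Stmt_DER : Prop :=
  ∀ (F : Subfield ℂ) (z : ℂ), ¬ IsAlgebraic F z →
    ∃ D : Derivation ℤ ℂ ℂ, (∀ w ∈ F, D w = 0) ∧ D z = 1

/-- extension of derivations to `ℂ(Z)` -/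
def Stmt_EXT : Prop :=
  (∀ (D : Derivation ℤ ℂ ℂ) (p : ℂ[X]) (n : ℕ), (cd D p).coeff n = D (p.coeff n)) ∧
  ∀ D : Derivation ℤ ℂ ℂ, ∃ E : Derivation ℤ K K, IsExt D E ∧ ∀ p : ℂ[X], E (pz p) = pz (cd D p)

/-- uniqueness and chain rule. Uses EXT -/
def Stmt_CHR : Prop :=
  ∀ (D : Derivation ℤ ℂ ℂ) (E : Derivation ℤ K K), IsExt D E →
    (∀ p : ℂ[X], E (pz p) = pz (cd D p)) ∧
    ∀ (k : Subfield ℂ) (f : ℂ[X]) (A : Polynomial (Polynomial k)), (∀ z ∈ k, D z = 0) →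
      cd D (bev k f A) = bev k f (derivative A) * cd D f

/-- values of derivatives. Uses EXT, CHR -/
def Stmt_EVD : Prop :=
  ∀ (D : Derivation ℤ ℂ ℂ) (E : Derivation ℤ K K) (c : ℂ) (y : K), IsExt D E → D c = 0 →
    Rg c y → Rg c (E y) ∧ vl c (E y) = D (vl c y)

/-! ## B. Orders and the Weierstrass equation -/

/-- properties of `ord` -/
def Stmt_ORD : Prop :=
  (∀ (c : ℂ) (x y : K), x ≠ 0 → y ≠ 0 → ord c (x * y) = ord c x + ord c y) ∧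
  (∀ (c : ℂ) (x y : K), x ≠ 0 → y ≠ 0 → x + y ≠ 0 → min (ord c x) (ord c y) ≤ ord c (x + y)) ∧
  (∀ (c : ℂ) (p : ℂ[X]), p ≠ 0 → ord c (pz p) = p.rootMultiplicity c) ∧
  (∀ y : K, y ≠ 0 → (∀ c : ℂ, 0 ≤ ord c y) → ∃ p : ℂ[X], y = pz p)

/-- orders of derivatives. Uses ORD -/
def Stmt_ODR : Prop :=
  ∀ (E : Derivation ℤ K K), (∀ p : ℂ[X], ∃ q : ℂ[X], E (pz p) = pz q) →
    ∀ (c : ℂ) (y : K), E y ≠ 0 →
      (0 ≤ ord c y → 0 ≤ ord c (E y)) ∧ ord c y - 1 ≤ ord c (E y) ∧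
      ((∃ p : ℂ[X], p ≠ 0 ∧ p.eval c = 0 ∧ E (pz p) = 0) → ord c y ≤ ord c (E y))

/-- degrees of derivatives -/
def Stmt_IDR : Prop :=
  ∀ (E : Derivation ℤ K K) (l : ℕ),
    (∀ p : ℂ[X], ∃ q : ℂ[X], E (pz p) = pz q ∧ q.natDegree ≤ p.natDegree + l) →
    ∀ y : K, E y ≠ 0 → (E y).intDegree ≤ y.intDegree + l

/-- the local lemma -/
def Stmt_LOC : Prop :=
  ∀ (w : K → ℤ) (E : Derivation ℤ K K) (a b u v : K),
    (∀ x y : K, x ≠ 0 → y ≠ 0 → w (x * y) = w x + w y) →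
    (∀ x y : K, x ≠ 0 → y ≠ 0 → x + y ≠ 0 → min (w x) (w y) ≤ w (x + y)) →
    w 2 = 0 → w 3 = 0 → (∀ y : K, E y ≠ 0 → w y ≤ w (E y)) →
    E a = 0 → E b = 0 → v ^ 2 = u ^ 3 + a * u + b → v ≠ 0 → E u ≠ 0 →
    (a ≠ 0 → 4 * (w v - w (E u)) ≤ w a) ∧ (b ≠ 0 → 6 * (w v - w (E u)) ≤ w b)

/-- the main lemma on solutions of a Weierstrass equation. Uses ORD, ODR, IDR, LOC -/
def Stmt_MTH : Prop :=
  ∀ (E : Derivation ℤ K K) (l : ℕ) (a b : ℂ[X]) (u v : K),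
    (∀ p : ℂ[X], ∃ q : ℂ[X], E (pz p) = pz q ∧ q.natDegree ≤ p.natDegree + l) →
    E (pz a) = 0 → E (pz b) = 0 → 4 * a ^ 3 + 27 * b ^ 2 ≠ 0 →
    (∀ c : ℂ, ¬ ((X - C c) ^ 4 ∣ a ∧ (X - C c) ^ 6 ∣ b)) →
    (4 * l < a.natDegree ∨ 6 * l < b.natDegree) →
    v ^ 2 = u ^ 3 + pz a * u + pz b → E u = 0 ∧ E v = 0

/-! ## C. Minimal Weierstrass equations -/

/-- minimal models in factorial rings -/
def Stmt_MML : Prop :=
  ∀ (R : Type) [CommRing R] [IsDomain R] [UniqueFactorizationMonoid R] (A B : R),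
    (A ≠ 0 ∨ B ≠ 0) → ∃ L A' B' : R, L ≠ 0 ∧ A = L ^ 4 * A' ∧ B = L ^ 6 * B' ∧ Mnl A' B'

/-- transcendence degree -/
def Stmt_TDB : Prop :=
  ∀ (k : Subfield ℂ) (n : ℕ) (a : Fin (n + 1) → ℂ) (b : Fin n → ℂ), AlgebraicIndependent k a →
    ∃ i, ¬ IsAlgebraic (ad k (Set.range b)) (a i)

/-- values of the test polynomial. Uses TDB -/
def Stmt_TPL : Prop :=
  ∀ (k : Subfield ℂ) (M d : ℕ) (a : Fin (d + 1) → ℂ), AlgebraicIndependent k a →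
    (∀ c ∈ k, ¬ IsAlgebraic k ((tp M d a).eval c)) ∧
    ¬ IsAlgebraic (ad k (a '' {i | i ≠ 0})) (a 0) ∧
    (1 ≤ d → ∀ c ∈ k, ∀ c' ∈ k, c ≠ c' → ∃ S : Set ℂ,
      ¬ IsAlgebraic (ad k (S ∪ {(tp M d a).eval c'})) ((tp M d a).eval c) ∧
      ∀ i, a i ∈ ad k (S ∪ {(tp M d a).eval c', (tp M d a).eval c}))

/-- minimality after substitution of the test polynomial. Uses DER, EXT, CHR, TPL -/
def Stmt_DVN : Prop :=
  ∀ (k : Subfield ℂ) (M d : ℕ) (a : Fin (d + 1) → ℂ) (A B : Polynomial (Polynomial k)),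
    Clo k → d < M → AlgebraicIndependent k a → Mnl A B → (A ≠ 0 ∨ B ≠ 0) →
    ∀ c : ℂ, ¬ ((X - C c) ^ 4 ∣ bev k (tp M d a) A ∧ (X - C c) ^ 6 ∣ bev k (tp M d a) B)

/-- from derivations to values. Uses DER, EXT, EVD -/
def Stmt_PPD : Prop :=
  ∀ (k : Subfield ℂ) (f : ℂ[X]) (y l : K), Clo k →
    (∀ (D : Derivation ℤ ℂ ℂ) (E : Derivation ℤ K K), IsExt D E → (∀ z ∈ k, D z = 0) →
      E y = l * E (pz f)) → PP k f y

/-- points of minimal Weierstrass equations. Uses DER, EXT, CHR, TPL, MTH, DVN, PPD -/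
def Stmt_COR : Prop :=
  ∀ (k : Subfield ℂ) (M d : ℕ) (a : Fin (d + 1) → ℂ) (A B : Polynomial (Polynomial k)) (u v : K),
    Clo k → 6 * d < M → AlgebraicIndependent k a → Mnl A B →
    4 * A ^ 3 + 27 * B ^ 2 ≠ 0 →
    (∀ n, (A.coeff n).natDegree < M ∧ (B.coeff n).natDegree < M) →
    (¬ ∃ α β : k, A = C (C α) ∧ B = C (C β)) →
    v ^ 2 = u ^ 3 + pz (bev k (tp M d a) A) * u + pz (bev k (tp M d a) B) →
    PP k (tp M d a) u ∧ PP k (tp M d a) v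

/-! ## D. Algebraic closedness -/

/-- the elements with `PP` form a relatively algebraically closed subfield -/
def Stmt_PFD : Prop :=
  ∀ (k : Subfield ℂ) (f : ℂ[X]), Clo k → ∃ Q : Subfield K, (∀ y, y ∈ Q ↔ PP k f y) ∧
    kZ k ≤ Q ∧ pz f ∈ Q ∧ ∀ w : K, IsAlgebraic Q w → w ∈ Q

/-- linear dependence of values -/
def Stmt_LIN : Prop :=
  ∀ (F : Subfield ℂ) (n : ℕ) (g : Fin n → K) (S : Set ℂ), S.Infinite → S ⊆ (F : Set ℂ) →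
    (∀ c ∈ S, (∀ i, Rg c (g i)) ∧ ∃ α : Fin n → ℂ, (∀ i, α i ∈ F) ∧ α ≠ 0 ∧
      ∑ i, α i * vl c (g i) = 0) →
    ∃ β : Fin n → K, (∀ i, β i ∈ kZ F) ∧ β ≠ 0 ∧ ∑ i, β i * g i = 0

/-- interpolation. Uses LIN -/
def Stmt_INT : Prop :=
  ∀ (F : Subfield ℂ) (y : K), {c : ℂ | c ∈ F ∧ Rg c y ∧ vl c y ∈ F}.Infinite → y ∈ kZ F

/-- relative algebraic closedness of `k(s)`. Uses INT -/
def Stmt_RCL : Prop :=
  ∀ (k B : Subfield ℂ) (s z : ℂ), Clo k → k ≤ B → ¬ IsAlgebraic B s → z ∈ ad B {s} →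
    IsAlgebraic (ad k {s}) z → z ∈ ad k {s}

/-- the test polynomial is transcendental. Uses INT, TDB -/
def Stmt_TRC : Prop :=
  ∀ (k : Subfield ℂ) (M d s : ℕ) (a : Fin (d + 1) → ℂ) (c : Fin s → ℂ), Clo k → d < M →
    AlgebraicIndependent k a → s ≤ d →
    ∃ F : Subfield K, kZ k ≤ F ∧ (∀ j, cst (c j) ∈ F) ∧ Tr F (pz (tp M d a))

/-- for almost all `c ∈ k` the value belongs to `k(f(c))`. Uses INT, RCL, TPL -/
def Stmt_GAO : Prop :=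
  ∀ (k : Subfield ℂ) (M d : ℕ) (a : Fin (d + 1) → ℂ) (y : K), Clo k → 1 ≤ d → d < M →
    AlgebraicIndependent k a → PP k (tp M d a) y →
    {c : ℂ | c ∈ k ∧ ¬ (Rg c y ∧ vl c y ∈ ad k {(tp M d a).eval c})}.Finite

/-- the key theorem on values. Uses LIN, TRC, GAO -/
def Stmt_GAL : Prop :=
  ∀ (k : Subfield ℂ) (M d : ℕ) (a : Fin (d + 1) → ℂ) (y : K), Clo k →
    ¬ (k : Set ℂ).Countable → 1 ≤ d → d < M → AlgebraicIndependent k a →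
    PP k (tp M d a) y → y ∈ fld k (tp M d a)

/-- `k(Z)(f)` is relatively algebraically closed. Uses PFD, GAL -/
def Stmt_RAC : Prop :=
  ∀ (k : Subfield ℂ) (M d : ℕ) (a : Fin (d + 1) → ℂ) (w : K), Clo k →
    ¬ (k : Set ℂ).Countable → 1 ≤ d → d < M → AlgebraicIndependent k a →
    IsAlgebraic (fld k (tp M d a)) w → w ∈ fld k (tp M d a)

/-! ## E. Formulas -/

/-- elements of `F(g)` -/
def Stmt_REP : Prop :=
  ∀ (F : Subfield K) (g y : K), y ∈ Subfield.closure ((F : Set K) ∪ {g}) →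
    ∃ P Q : K[X], Co F P ∧ Co F Q ∧ Q.eval g ≠ 0 ∧ y = P.eval g / Q.eval g

/-- quantifier-free conditions do not change for almost all specialisations -/
def Stmt_QFL : Prop :=
  ∀ (F : Subfield K) (g : K) (ι : Type) [Finite ι] (Φ : (ι → K) → Prop), QFO F ι Φ → Tr F g →
    ∀ P Q : ι → K[X], (∀ i, Co F (P i) ∧ Co F (Q i) ∧ (Q i).eval g ≠ 0) →
    ∃ T : Set K, T.Finite ∧ ∀ h : K, h ∉ T → (∀ i, (Q i).eval h ≠ 0) ∧
      (Φ (fun i => (P i).eval h / (Q i).eval h) ↔ Φ (fun i => (P i).eval g / (Q i).eval g))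

/-- a transcendental element can be replaced -/
def Stmt_QFT : Prop :=
  ∀ (L : Subfield K) (ι : Type) (Φ : (Option ι → K) → Prop), QFO L (Option ι) Φ →
    ∀ (y : ι → K) (t : K), (∀ i, y i ∈ L) → ¬ IsAlgebraic L t →
    {t' : K | ¬ (Φ (ext y t') ↔ Φ (ext y t))}.Finite

/-- specialisation of conditions. Uses REP, QFL, QFT, RAC, TRC -/
def Stmt_SPC : Prop :=
  ∀ (k : Subfield ℂ) (M d : ℕ) (a : Fin (d + 1) → ℂ), Clo k → ¬ (k : Set ℂ).Countable →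
    1 ≤ d → d < M → AlgebraicIndependent k a →
    ∀ (ι : Type) (Φ : (ι → K) → Prop), BddO (kZ k) d ι Φ → Finite ι →
    ∀ P Q : ι → K[X],
      (∀ i, Co (kZ k) (P i) ∧ Co (kZ k) (Q i) ∧ (Q i).eval (pz (tp M d a)) ≠ 0) →
      Φ (fun i => (P i).eval (pz (tp M d a)) / (Q i).eval (pz (tp M d a))) →
      ∃ T : Set K, T.Finite ∧ ∀ h : K, h ∉ T → (∀ i, (Q i).eval h ≠ 0) ∧
        Φ (fun i => (P i).eval h / (Q i).eval h)

/-- the parameters of a condition -/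
def Stmt_COL : Prop :=
  (∀ (ι : Type) (Φ : (ι → K) → Prop), Bdd ι Φ → ∃ (S : Finset K) (N : ℕ),
    ∀ (F : Subfield K) (N' : ℕ), (S : Set K) ⊆ F → N ≤ N' → BddO F N' ι Φ) ∧
  (∀ S : Finset K, ∃ S' : Finset ℂ, ∀ k : Subfield ℂ, (S' : Set ℂ) ⊆ k → (S : Set K) ⊆ kZ k)

/-- substitution of `x / Z` -/
def Stmt_SUB : Prop :=
  ∀ D : Set K, Ell D → Ell {x : K | x / RatFunc.X ∈ D}

/-! ## F. The theorem -/

/-- clearing denominators. Uses MML -/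
def Stmt_CLD : Prop :=
  ∀ (k : Subfield ℂ) (A B : K[X]), Co (kZ k) A → Co (kZ k) B → Nonconst A B →
    ∃ (A' B' : Polynomial (Polynomial k)) (l m : K[X]), Co (kZ k) l ∧ Co (kZ k) m ∧ l ≠ 0 ∧
      m ≠ 0 ∧ Mnl A' B' ∧ 4 * A' ^ 3 + 27 * B' ^ 2 ≠ 0 ∧
      (¬ ∃ α β : k, A' = C (C α) ∧ B' = C (C β)) ∧
      ∀ f : ℂ[X], A.eval (pz f) * (m.eval (pz f)) ^ 4 = (l.eval (pz f)) ^ 4 * pz (bev k f A') ∧
        B.eval (pz f) * (m.eval (pz f)) ^ 6 = (l.eval (pz f)) ^ 6 * pz (bev k f B')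

/-- good constant fields -/
def Stmt_FLD : Prop :=
  ∀ S : Finset ℂ, ∃ k : Subfield ℂ, Clo k ∧ ¬ (k : Set ℂ).Countable ∧ (S : Set ℂ) ⊆ k ∧
    ∀ n : ℕ, ∃ a : Fin n → ℂ, AlgebraicIndependent k a

/-- points over `ℂ(Z)` of families of elliptic curves. Uses COR, TRC, GAL, CLD -/
def Stmt_PNT : Prop :=
  ∀ (k : Subfield ℂ) (A B : K[X]), Clo k → ¬ (k : Set ℂ).Countable → Co (kZ k) A →
    Co (kZ k) B → Nonconst A B → ∃ N : ℕ, ∀ (M d : ℕ) (a : Fin (d + 1) → ℂ) (u v : K),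
      1 ≤ d → N + 6 * d < M → AlgebraicIndependent k a →
      v ^ 2 = u ^ 3 + A.eval (pz (tp M d a)) * u + B.eval (pz (tp M d a)) →
      u ∈ fld k (tp M d a) ∧ v ∈ fld k (tp M d a)

/-- the dichotomy. Uses PNT, TRC, REP, QFL, SPC, COL -/
def Stmt_MAI : Prop :=
  ∀ D : Set K, Ell D → ∃ S : Finset ℂ, ∀ k : Subfield ℂ, Clo k → ¬ (k : Set ℂ).Countable →
    (S : Set ℂ) ⊆ k → ∃ N : ℕ, ∀ (M d : ℕ) (a : Fin (d + 1) → ℂ), N ≤ d → N + 6 * d < M →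
      AlgebraicIndependent k a → pz (tp M d a) ∈ D → Dᶜ.Finite

/-- the theorem. Uses MAI, FLD, SUB, COL, TRC -/
def Stmt_FIN : Prop :=
  (∀ D : Set K, Ell D → (∀ p : ℂ[X], pz p ∈ D) → Dᶜ.Finite) ∧
  ∀ (r : ℕ) (D : Fin r → Set K) (b : (Fin r → Prop) → Prop), (∀ i, Ell (D i)) →
    {x : K | b (fun i => x ∈ D i)} ≠ O0

end EVR
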