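import Pool.Agent.EVR.Api

/-!
Module TDB: transcendence degree.
-/

set_option autoImplicit false

namespace EVR

open Polynomial

namespace TDB_

open IntermediateField.algebraAdjoinAdjoin in
theorem alg_adjoin {k : Subfield ℂ} {S : Set ℂ} {z : ℂ} (h : IsAlgebraic (ad k S) z) :
    IsAlgebraic (Algebra.adjoin k S) z := by
  have h1 : IsAlgebraic (IntermediateField.adjoin k S) z := by
    obtain ⟨P, h1, h2, h3⟩ := isAlgebraic_iff.1 h
    have hle : (ad k S) ≤ (IntermediateField.adjoin k S).toSubfield := by
      refine ad_le ?_ ?_
      · intro x hx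
        exact (IntermediateField.adjoin k S).algebraMap_mem ⟨x, hx⟩
      · exact IntermediateField.subset_adjoin k S
    exact (isAlgebraic_iff (F := (IntermediateField.adjoin k S).toSubfield)).2
      ⟨P, fun n => hle (h1 n), h2, h3⟩
  exact (IsFractionRing.isAlgebraic_iff (Algebra.adjoin k S) (IntermediateField.adjoin k S) ℂ).2 h1

end TDB_

open TDB_ in
theorem tdb_proof : Stmt_TDB := by
  intro k n a b ha
  by_contra hcon
  push Not at hcon
  have hinj : Function.Injective a := ha.injective
  have hind : (AlgebraicIndependent.matroid k ℂ).Indep (Set.range a) := by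
    rw [AlgebraicIndependent.matroid_indep_iff]
    exact ha.coe_range
  have hsub : Set.range a ⊆ (AlgebraicIndependent.matroid k ℂ).closure (Set.range b) := by
    rintro _ ⟨i, rfl⟩
    rw [AlgebraicIndependent.matroid_closure_eq, SetLike.mem_coe, Subalgebra.mem_algebraicClosure]
    exact alg_adjoin (hcon i)
  have h1 := hind.encard_le_eRk_of_subset hsub
  rw [Matroid.eRk_closure_eq] at h1
  have h2 := h1.trans ((AlgebraicIndependent.matroid k ℂ).eRk_le_encard (Set.range b))
  have h3 : (Set.range a).encard = (n + 1 : ℕ) := by
    rw [← Set.image_univ, hinj.encard_image, Set.encard_univ]; simp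
  have h4 : (Set.range b).encard ≤ (n : ℕ) := by
    have := Set.encard_image_le b Set.univ
    rw [Set.image_univ] at this
    simpa using this
  rw [h3] at h2
  have := h2.trans h4
  norm_cast at this
  omega

end EVR
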