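import Pool.Agent.EVR.Api

/-!
TPL: values of the test polynomial.
-/

set_option autoImplicit false

namespace EVR

open Polynomial

theorem tpl_proof (hTDB : Stmt_TDB) : Stmt_TPL := by
  intro k M d a ha
  have h2 : ¬ IsAlgebraic (ad k (a '' {i | i ≠ 0})) (a 0) := by
    intro h0
    obtain ⟨i, hi⟩ := hTDB k d a (fun j => a j.succ) ha
    apply hi
    have hsub : a '' {i | i ≠ 0} ⊆ Set.range (fun j : Fin d => a j.succ) := by
      rintro _ ⟨i, hi, rfl⟩
      obtain ⟨j, rfl⟩ := Fin.exists_succ_eq.2 hi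
      exact ⟨j, rfl⟩
    rcases Fin.eq_zero_or_eq_succ i with rfl | ⟨j, rfl⟩
    · exact isAlgebraic_mono (ad_mono hsub) h0
    · exact isAlgebraic_of_mem (mem_ad k ⟨j, rfl⟩)
  refine ⟨?_, h2, ?_⟩
  · intro c hc h1
    apply h2
    obtain ⟨L, hL, -, hLa⟩ := exists_acl (ad k (a '' {i | i ≠ 0}))
    rw [← hLa]
    have hf : (tp M d a).eval c ∈ L := (hLa _).2 (isAlgebraic_mono (le_ad k _) h1)
    have hcL : c ∈ L := hL (le_ad k _ hc)
    rw [tp_eval, Fin.sum_univ_succ] at hf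
    have hs : ∑ i : Fin d, a i.succ * c ^ ((i.succ : Fin (d + 1)) : ℕ) ∈ L :=
      Subfield.sum_mem _ fun i _ => mul_mem
        (hL (mem_ad k ⟨i.succ, Fin.succ_ne_zero i, rfl⟩)) (pow_mem hcL _)
    have e : a 0 = (c ^ M + (a 0 * c ^ ((0 : Fin (d + 1)) : ℕ) +
        ∑ i : Fin d, a i.succ * c ^ ((i.succ : Fin (d + 1)) : ℕ))) - c ^ M -
        ∑ i : Fin d, a i.succ * c ^ ((i.succ : Fin (d + 1)) : ℕ) := by
      rw [Fin.val_zero, pow_zero, mul_one]
      ring
    rw [e]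
    exact sub_mem (sub_mem hf (pow_mem hcL M)) hs
  · intro hd c hc c' hc' hne
    obtain ⟨e, rfl⟩ : ∃ e, d = e + 1 := ⟨d - 1, by omega⟩
    set S : Set ℂ := Set.range (fun j : Fin e => a j.succ.succ) with hS
    have hall : ∀ L : Subfield ℂ, k ≤ L → S ⊆ L → (tp M (e + 1) a).eval c' ∈ L →
        (tp M (e + 1) a).eval c ∈ L → ∀ i, a i ∈ L := by
      intro L hkL hSL h1 h2
      have hcL : c ∈ L := hkL hc
      have hcL' : c' ∈ L := hkL hc'
      rw [tp_eval, Fin.sum_univ_succ, Fin.sum_univ_succ] at h1 h2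
      have hs : ∀ x ∈ L, ∑ i : Fin e, a i.succ.succ * x ^ ((i.succ.succ : Fin (e + 1 + 1)) : ℕ) ∈ L :=
        fun x hx => Subfield.sum_mem _ fun i _ => mul_mem (hSL ⟨i, rfl⟩) (pow_mem hx _)
      have g : ∀ x ∈ L, x ^ M + (a 0 * x ^ ((0 : Fin (e + 1 + 1)) : ℕ) +
          (a (Fin.succ 0) * x ^ ((Fin.succ 0 : Fin (e + 1 + 1)) : ℕ) +
          ∑ i : Fin e, a i.succ.succ * x ^ ((i.succ.succ : Fin (e + 1 + 1)) : ℕ))) ∈ L →
          a 0 + a (Fin.succ 0) * x ∈ L := by
        intro x hx h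
        have e1 := sub_mem (sub_mem h (pow_mem hx M)) (hs x hx)
        have e2 : x ^ M + (a 0 * x ^ ((0 : Fin (e + 1 + 1)) : ℕ) +
          (a (Fin.succ 0) * x ^ ((Fin.succ 0 : Fin (e + 1 + 1)) : ℕ) +
          ∑ i : Fin e, a i.succ.succ * x ^ ((i.succ.succ : Fin (e + 1 + 1)) : ℕ))) - x ^ M -
          ∑ i : Fin e, a i.succ.succ * x ^ ((i.succ.succ : Fin (e + 1 + 1)) : ℕ) =
          a 0 + a (Fin.succ 0) * x := by
          have z1 : ((Fin.succ 0 : Fin (e + 1 + 1)) : ℕ) = 1 := rfl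
          rw [Fin.val_zero, pow_zero, mul_one, z1, pow_one]
          ring
        rwa [e2] at e1
      have g1 := g c' hcL' h1
      have g2 := g c hcL h2
      have hne' : c - c' ≠ 0 := sub_ne_zero.2 hne
      have a1 : a (Fin.succ 0) ∈ L := by
        have e3 : a (Fin.succ 0) = ((a 0 + a (Fin.succ 0) * c) - (a 0 + a (Fin.succ 0) * c')) /
            (c - c') := by
          rw [eq_div_iff hne']
          ring
        rw [e3]
        exact div_mem (sub_mem g2 g1) (sub_mem hcL hcL')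
      have a0 : a 0 ∈ L := by
        have e4 : a 0 = (a 0 + a (Fin.succ 0) * c) - a (Fin.succ 0) * c := by ring
        rw [e4]
        exact sub_mem g2 (mul_mem a1 hcL)
      intro i
      rcases Fin.eq_zero_or_eq_succ i with rfl | ⟨j, rfl⟩
      · exact a0
      · rcases Fin.eq_zero_or_eq_succ j with rfl | ⟨l, rfl⟩
        · exact a1
        · exact hSL ⟨l, rfl⟩
    refine ⟨S, ?_, ?_⟩
    · intro h
      obtain ⟨L, hL, -, hLa⟩ := exists_acl (ad k (S ∪ {(tp M (e + 1) a).eval c'}))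
      have h5 := hall L ((le_ad k _).trans hL) (fun x hx => hL (mem_ad k (Or.inl hx)))
        (hL (mem_ad k (Or.inr rfl))) ((hLa _).2 h)
      obtain ⟨i, hi⟩ := hTDB k (e + 1) a
        (Fin.cons ((tp M (e + 1) a).eval c') (fun j : Fin e => a j.succ.succ)) ha
      apply hi
      refine isAlgebraic_mono (ad_mono ?_) ((hLa _).1 (h5 i))
      rw [Fin.range_cons]
      rintro x (hx | hx)
      · exact Or.inr hx
      · exact Or.inl hx
    · exact hall _ (le_ad k _) (fun x hx => mem_ad k (Or.inl hx))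
        (mem_ad k (Or.inr (Or.inl rfl))) (mem_ad k (Or.inr (Or.inr rfl)))

end EVR
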