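import Pool.Agent.EVR.Api

/-!
# Squad EVR, module TRC: the test polynomial is transcendental
-/

set_option autoImplicit false

namespace EVR

open Polynomial

namespace TRC_

theorem eval_vl (P : K[X]) (y : K) (c : ℂ) (hP : ∀ i, Rg c (P.coeff i)) (hy : Rg c y) :
    Rg c (P.eval y) ∧ vl c (P.eval y) =
      ∑ i ∈ Finset.range (P.natDegree + 1), vl c (P.coeff i) * (vl c y) ^ i := by
  rw [eval_eq_sum_range]
  have h1 : ∀ i ∈ Finset.range (P.natDegree + 1), Rg c (P.coeff i * y ^ i) := fun i _ =>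
    (rg_vl_mul (hP i) (rg_vl_pow hy i).1).1
  have h := rg_vl_sum (Finset.range (P.natDegree + 1)) h1
  refine ⟨h.1, ?_⟩
  rw [h.2]
  refine Finset.sum_congr rfl fun i _ => ?_
  rw [(rg_vl_mul (hP i) (rg_vl_pow hy i).1).2, (rg_vl_pow hy i).2]

theorem finite_alg (k : Subfield ℂ) (P : K[X]) (y : K) (hP : ∀ n, P.coeff n ∈ kZ k)
    (hP0 : P ≠ 0) (h0 : P.eval y = 0) :
    {c : ℂ | c ∈ k ∧ ¬ (Rg c y ∧ IsAlgebraic k (vl c y))}.Finite := by
  have hlead : P.coeff P.natDegree ≠ 0 := by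
    rw [Ne, ← leadingCoeff, leadingCoeff_eq_zero]
    exact hP0
  have hfin : ((⋃ i ∈ Finset.range (P.natDegree + 1),
      {c : ℂ | c ∈ k ∧ ¬ (Rg c (P.coeff i) ∧ vl c (P.coeff i) ∈ k)}) ∪
      ({c : ℂ | ¬ Rg c y} ∪ {c : ℂ | ¬ (Rg c (P.coeff P.natDegree) ∧
        vl c (P.coeff P.natDegree) ≠ 0)})).Finite := by
    refine Set.Finite.union ?_ (Set.Finite.union (finite_not_rg y) (finite_vl_eq_zero hlead))
    exact Set.Finite.biUnion (Finset.finite_toSet _) fun i _ => vl_mem_of_kZ (hP i)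
  refine hfin.subset ?_
  rintro c ⟨hc, hcy⟩
  by_contra hcon
  simp only [Set.mem_union, Set.mem_iUnion, not_or, not_exists] at hcon
  obtain ⟨h1, h2, h3⟩ := hcon
  have h2' : Rg c y := by
    by_contra h
    exact h2 h
  have h3' : Rg c (P.coeff P.natDegree) ∧ vl c (P.coeff P.natDegree) ≠ 0 := by
    by_contra h
    exact h3 h
  have h1' : ∀ i, Rg c (P.coeff i) ∧ vl c (P.coeff i) ∈ k := by
    intro i
    by_cases hi : i ∈ Finset.range (P.natDegree + 1)
    · by_contra h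
      exact h1 i hi ⟨hc, h⟩
    · rw [coeff_eq_zero_of_natDegree_lt (by simpa using hi)]
      refine ⟨rg_zero c, ?_⟩
      rw [vl_zero]
      exact zero_mem k
  apply hcy
  refine ⟨h2', ?_⟩
  rw [isAlgebraic_iff]
  refine ⟨∑ i ∈ Finset.range (P.natDegree + 1), C (vl c (P.coeff i)) * X ^ i, ?_, ?_, ?_⟩
  · intro n
    rw [finsetSum_coeff]
    refine Subfield.sum_mem _ fun i _ => ?_
    rw [coeff_C_mul, coeff_X_pow]
    split_ifs
    · rw [mul_one]
      exact (h1' i).2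
    · rw [mul_zero]
      exact zero_mem k
  · intro h
    have := congrArg (fun p => coeff p P.natDegree) h
    simp only [finsetSum_coeff, coeff_C_mul, coeff_X_pow, coeff_zero] at this
    rw [Finset.sum_eq_single P.natDegree] at this
    · simp only [if_true, mul_one] at this
      exact h3'.2 this
    · intro j _ hj
      rw [if_neg (Ne.symm hj), mul_zero]
    · intro hj
      exact absurd (Finset.mem_range.2 (Nat.lt_succ_self _)) hj
  · have h4 := (eval_vl P y c (fun i => (h1' i).1) h2').2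
    rw [h0, vl_zero] at h4
    rw [eval_finsetSum]
    simp only [eval_mul, eval_C, eval_pow, eval_X]
    exact h4.symm

theorem coeff_mem (k : Subfield ℂ) (f : ℂ[X]) (h : pz f ∈ kZ k) (n : ℕ) : f.coeff n ∈ k := by
  obtain ⟨P, Q, hQ, hf⟩ := mem_kZ_iff.1 h
  have hQ' : Q.map k.subtype ≠ 0 := by
    rw [Ne, Polynomial.map_eq_zero]
    exact hQ
  rw [eq_div_iff (pz_ne_zero.2 hQ'), ← map_mul] at hf
  have hf' := pz_inj.1 hf
  have hdvd : Q ∣ P := by
    rw [← Polynomial.map_dvd_map' k.subtype, ← hf']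
    exact Dvd.intro_left f rfl
  obtain ⟨R, rfl⟩ := hdvd
  rw [Polynomial.map_mul, mul_comm] at hf'
  have hR : f = R.map k.subtype := mul_left_cancel₀ hQ' hf'
  rw [hR]
  exact coeff_map_mem R n

end TRC_

open TRC_ in
theorem trc_proof (hI : Stmt_INT) (hT : Stmt_TDB) : Stmt_TRC := by
  intro k M d s a c hk hdM ha hsd
  obtain ⟨k1, hk1, hclo, halg⟩ := exists_acl (ad k (Set.range c))
  have hkk1 : k ≤ k1 := (le_ad k _).trans hk1
  refine ⟨kZ k1, kZ_mono hkk1, fun j => cst_mem_kZ (hk1 (mem_ad k ⟨j, rfl⟩)), ?_⟩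
  rw [tr_iff]
  intro hal
  obtain ⟨P, hP, hP0, h0⟩ := isAlgebraic_iff'.1 hal
  have hfin := finite_alg k1 P _ hP hP0 h0
  have hinf : {z : ℂ | z ∈ k1 ∧ Rg z (pz (tp M d a)) ∧ vl z (pz (tp M d a)) ∈ k1}.Infinite := by
    have h1 := (hclo.infinite).sdiff hfin
    refine h1.mono ?_
    rintro z ⟨hz, hz'⟩
    have h2 : Rg z (pz (tp M d a)) ∧ IsAlgebraic k1 (vl z (pz (tp M d a))) := by
      by_contra h
      exact hz' ⟨hz, h⟩
    exact ⟨hz, h2.1, hclo _ h2.2⟩
  have hmem := hI k1 _ hinf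
  -- padding
  let b : Fin d → ℂ := fun i => if h : (i : ℕ) < s then c ⟨i, h⟩ else 0
  obtain ⟨i, hi⟩ := hT k d a b ha
  apply hi
  have h3 : a i ∈ k1 := by
    rw [← tp_coeff hdM a i]
    exact coeff_mem k1 _ hmem i
  have h4 : IsAlgebraic (ad k (Set.range c)) (a i) := (halg _).1 h3
  refine isAlgebraic_mono (ad_mono ?_) h4
  rintro _ ⟨j, rfl⟩
  refine ⟨⟨j, lt_of_lt_of_le j.2 hsd⟩, ?_⟩
  simp [b]

end EVR
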